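import Pool.Agent.U783.SSE.Defs

/-!
# Ashley's eight-by-eight: part 3 of the chain
-/

set_option autoImplicit false

namespace Pool.Agent.U783.SSE.Ash3

open Matrix

theorem s1 : El
    ⟨10, !![0, 0, 1, 0, 0, 0, 0, 0, 0, 1; 0, 0, 1, 0, 1, 1, 0, 0, 1, 0; 0, 0, 1, 0, 0, 0, 1, 0, 0, 0; 0, 1, 0, 0, 1, 0, 0, 0, 1, 0; 0, 0, 0, 0, 0, 1, 0, 0, 0, 0; 0, 0, 0, 0, 0, 0, 0, 1, 0, 0; 1, 0, 0, 0, 1, 0, 0, 0, 0, 0; 0, 0, 0, 1, 0, 0, 0, 0, 0, 0; 0, 0, 2, 1, 2, 0, 0, 0, 0, 0; 0, 1, 0, 0, 0, 0, 0, 0, 0, 1]⟩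
    ⟨10, !![0, 0, 1, 0, 0, 0, 0, 0, 0, 1; 0, 0, 1, 0, 0, 1, 0, 0, 1, 0; 0, 0, 1, 0, 0, 0, 1, 0, 0, 0; 0, 1, 0, 0, 0, 0, 0, 0, 1, 0; 0, 0, 0, 0, 0, 1, 0, 0, 0, 0; 0, 0, 0, 0, 0, 0, 0, 1, 0, 0; 1, 0, 0, 0, 1, 0, 0, 0, 0, 0; 0, 0, 0, 1, 0, 0, 0, 0, 0, 0; 0, 0, 2, 1, 2, 1, 0, 0, 0, 0; 0, 1, 0, 0, 0, 0, 0, 0, 0, 1]⟩ :=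
  ⟨!![0, 0, 1, 0, 0, 0, 0, 0, 0, 1; 0, 0, 1, 0, 0, 1, 0, 0, 1, 0; 0, 0, 1, 0, 0, 0, 1, 0, 0, 0; 0, 1, 0, 0, 0, 0, 0, 0, 1, 0; 0, 0, 0, 0, 0, 1, 0, 0, 0, 0; 0, 0, 0, 0, 0, 0, 0, 1, 0, 0; 1, 0, 0, 0, 1, 0, 0, 0, 0, 0; 0, 0, 0, 1, 0, 0, 0, 0, 0, 0; 0, 0, 2, 1, 2, 0, 0, 0, 0, 0; 0, 1, 0, 0, 0, 0, 0, 0, 0, 1],
    !![1, 0, 0, 0, 0, 0, 0, 0, 0, 0; 0, 1, 0, 0, 0, 0, 0, 0, 0, 0; 0, 0, 1, 0, 0, 0, 0, 0, 0, 0; 0, 0, 0, 1, 0, 0, 0, 0, 0, 0; 0, 0, 0, 0, 1, 0, 0, 0, 0, 0; 0, 0, 0, 0, 0, 1, 0, 0, 0, 0; 0, 0, 0, 0, 0, 0, 1, 0, 0, 0; 0, 0, 0, 0, 0, 0, 0, 1, 0, 0; 0, 0, 0, 0, 1, 0, 0, 0, 1, 0; 0, 0, 0, 0, 0, 0, 0, 0, 0, 1], by decide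 +kernel, by decide +kernel⟩

theorem s2 : El
    ⟨10, !![0, 0, 1, 0, 0, 0, 0, 0, 0, 1; 0, 0, 1, 0, 0, 1, 0, 0, 1, 0; 0, 0, 1, 0, 0, 0, 1, 0, 0, 0; 0, 1, 0, 0, 0, 0, 0, 0, 1, 0; 0, 0, 0, 0, 0, 1, 0, 0, 0, 0; 0, 0, 0, 0, 0, 0, 0, 1, 0, 0; 1, 0, 0, 0, 1, 0, 0, 0, 0, 0; 0, 0, 0, 1, 0, 0, 0, 0, 0, 0; 0, 0, 2, 1, 2, 1, 0, 0, 0, 0; 0, 1, 0, 0, 0, 0, 0, 0, 0, 1]⟩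
    ⟨11, !![0, 0, 1, 0, 0, 0, 0, 0, 0, 1, 0; 0, 0, 1, 0, 0, 0, 0, 0, 1, 0, 1; 0, 0, 1, 0, 0, 0, 1, 0, 0, 0, 0; 0, 1, 0, 0, 0, 0, 0, 0, 1, 0, 0; 0, 0, 0, 0, 0, 0, 0, 0, 0, 0, 1; 0, 0, 0, 0, 0, 0, 0, 1, 0, 0, 0; 1, 0, 0, 0, 1, 0, 0, 0, 0, 0, 0; 0, 0, 0, 1, 0, 0, 0, 0, 0, 0, 0; 0, 0, 2, 1, 2, 1, 0, 0, 0, 0, 0; 0, 1, 0, 0, 0, 0, 0, 0, 0, 1, 0; 0, 0, 0, 0, 0, 0, 0, 1, 0, 0, 0]⟩ :=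
  ⟨!![0, 0, 1, 0, 0, 0, 0, 0, 0, 1, 0; 0, 0, 1, 0, 0, 0, 0, 0, 1, 0, 1; 0, 0, 1, 0, 0, 0, 1, 0, 0, 0, 0; 0, 1, 0, 0, 0, 0, 0, 0, 1, 0, 0; 0, 0, 0, 0, 0, 0, 0, 0, 0, 0, 1; 0, 0, 0, 0, 0, 0, 0, 1, 0, 0, 0; 1, 0, 0, 0, 1, 0, 0, 0, 0, 0, 0; 0, 0, 0, 1, 0, 0, 0, 0, 0, 0, 0; 0, 0, 2, 1, 2, 1, 0, 0, 0, 0, 0; 0, 1, 0, 0, 0, 0, 0, 0, 0, 1, 0],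
    !![1, 0, 0, 0, 0, 0, 0, 0, 0, 0; 0, 1, 0, 0, 0, 0, 0, 0, 0, 0; 0, 0, 1, 0, 0, 0, 0, 0, 0, 0; 0, 0, 0, 1, 0, 0, 0, 0, 0, 0; 0, 0, 0, 0, 1, 0, 0, 0, 0, 0; 0, 0, 0, 0, 0, 1, 0, 0, 0, 0; 0, 0, 0, 0, 0, 0, 1, 0, 0, 0; 0, 0, 0, 0, 0, 0, 0, 1, 0, 0; 0, 0, 0, 0, 0, 0, 0, 0, 1, 0; 0, 0, 0, 0, 0, 0, 0, 0, 0, 1; 0, 0, 0, 0, 0, 1, 0, 0, 0, 0], by decide +kernel, by decide +kernel⟩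

theorem s3 : El
    ⟨11, !![0, 0, 1, 0, 0, 0, 0, 0, 0, 1, 0; 0, 0, 1, 0, 0, 0, 0, 0, 1, 0, 1; 0, 0, 1, 0, 0, 0, 1, 0, 0, 0, 0; 0, 1, 0, 0, 0, 0, 0, 0, 1, 0, 0; 0, 0, 0, 0, 0, 0, 0, 0, 0, 0, 1; 0, 0, 0, 0, 0, 0, 0, 1, 0, 0, 0; 1, 0, 0, 0, 1, 0, 0, 0, 0, 0, 0; 0, 0, 0, 1, 0, 0, 0, 0, 0, 0, 0; 0, 0, 2, 1, 2, 1, 0, 0, 0, 0, 0; 0, 1, 0, 0, 0, 0, 0, 0, 0, 1, 0; 0, 0, 0, 0, 0, 0, 0, 1, 0, 0, 0]⟩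
    ⟨11, !![0, 0, 1, 0, 0, 0, 0, 0, 0, 1, 1; 0, 0, 1, 0, 0, 0, 0, 0, 1, 0, 1; 0, 0, 1, 0, 0, 0, 1, 0, 0, 0, 0; 0, 1, 0, 0, 0, 0, 0, 0, 1, 0, 0; 0, 0, 0, 0, 0, 0, 0, 0, 0, 0, 1; 0, 0, 0, 0, 0, 0, 0, 1, 0, 0, 0; 1, 0, 0, 0, 0, 0, 0, 0, 0, 0, 0; 0, 0, 0, 1, 0, 0, 0, 0, 0, 0, 0; 0, 0, 2, 1, 2, 1, 0, 0, 0, 0, 0; 0, 1, 0, 0, 0, 0, 0, 0, 0, 1, 0; 0, 0, 0, 0, 0, 0, 0, 1, 0, 0, 0]⟩ :=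
  ⟨!![0, 0, 1, 0, 0, 0, 0, 0, 0, 1, 0; 0, 0, 1, 0, 0, 0, 0, 0, 1, 0, 1; 0, 0, 1, 0, 0, 0, 1, 0, 0, 0, 0; 0, 1, 0, 0, 0, 0, 0, 0, 1, 0, 0; 0, 0, 0, 0, 0, 0, 0, 0, 0, 0, 1; 0, 0, 0, 0, 0, 0, 0, 1, 0, 0, 0; 1, 0, 0, 0, 0, 0, 0, 0, 0, 0, 0; 0, 0, 0, 1, 0, 0, 0, 0, 0, 0, 0; 0, 0, 2, 1, 2, 1, 0, 0, 0, 0, 0; 0, 1, 0, 0, 0, 0, 0, 0, 0, 1, 0; 0, 0, 0, 0, 0, 0, 0, 1, 0, 0, 0],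
    !![1, 0, 0, 0, 1, 0, 0, 0, 0, 0, 0; 0, 1, 0, 0, 0, 0, 0, 0, 0, 0, 0; 0, 0, 1, 0, 0, 0, 0, 0, 0, 0, 0; 0, 0, 0, 1, 0, 0, 0, 0, 0, 0, 0; 0, 0, 0, 0, 1, 0, 0, 0, 0, 0, 0; 0, 0, 0, 0, 0, 1, 0, 0, 0, 0, 0; 0, 0, 0, 0, 0, 0, 1, 0, 0, 0, 0; 0, 0, 0, 0, 0, 0, 0, 1, 0, 0, 0; 0, 0, 0, 0, 0, 0, 0, 0, 1, 0, 0; 0, 0, 0, 0, 0, 0, 0, 0, 0, 1, 0; 0, 0, 0, 0, 0, 0, 0, 0, 0, 0, 1], by decide +kernel, by decide +kernel⟩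

theorem s4 : El
    ⟨11, !![0, 0, 1, 0, 0, 0, 0, 0, 0, 1, 1; 0, 0, 1, 0, 0, 0, 0, 0, 1, 0, 1; 0, 0, 1, 0, 0, 0, 1, 0, 0, 0, 0; 0, 1, 0, 0, 0, 0, 0, 0, 1, 0, 0; 0, 0, 0, 0, 0, 0, 0, 0, 0, 0, 1; 0, 0, 0, 0, 0, 0, 0, 1, 0, 0, 0; 1, 0, 0, 0, 0, 0, 0, 0, 0, 0, 0; 0, 0, 0, 1, 0, 0, 0, 0, 0, 0, 0; 0, 0, 2, 1, 2, 1, 0, 0, 0, 0, 0; 0, 1, 0, 0, 0, 0, 0, 0, 0, 1, 0; 0, 0, 0, 0, 0, 0, 0, 1, 0, 0, 0]⟩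
    ⟨11, !![0, 0, 1, 0, 0, 0, 0, 0, 0, 1, 1; 0, 0, 1, 0, 0, 0, 0, 0, 1, 0, 1; 0, 0, 1, 0, 0, 0, 1, 0, 0, 0, 0; 0, 1, 0, 0, 0, 0, 0, 0, 1, 0, 0; 0, 0, 1, 0, 0, 0, 1, 0, 0, 0, 1; 0, 0, 0, 0, 0, 0, 0, 1, 0, 0, 0; 1, 0, 0, 0, 0, 0, 0, 0, 0, 0, 0; 0, 0, 0, 1, 0, 0, 0, 0, 0, 0, 0; 0, 0, 0, 1, 2, 1, 0, 0, 0, 0, 0; 0, 1, 0, 0, 0, 0, 0, 0, 0, 1, 0; 0, 0, 0, 0, 0, 0, 0, 1, 0, 0, 0]⟩ :=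
  ⟨!![0, 0, 1, 0, 0, 0, 0, 0, 0, 1, 1; 0, 0, 1, 0, 0, 0, 0, 0, 1, 0, 1; 0, 0, 1, 0, 0, 0, 1, 0, 0, 0, 0; 0, 1, 0, 0, 0, 0, 0, 0, 1, 0, 0; 0, 0, 0, 0, 0, 0, 0, 0, 0, 0, 1; 0, 0, 0, 0, 0, 0, 0, 1, 0, 0, 0; 1, 0, 0, 0, 0, 0, 0, 0, 0, 0, 0; 0, 0, 0, 1, 0, 0, 0, 0, 0, 0, 0; 0, 0, 0, 1, 2, 1, 0, 0, 0, 0, 0; 0, 1, 0, 0, 0, 0, 0, 0, 0, 1, 0; 0, 0, 0, 0, 0, 0, 0, 1, 0, 0, 0],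
    !![1, 0, 0, 0, 0, 0, 0, 0, 0, 0, 0; 0, 1, 0, 0, 0, 0, 0, 0, 0, 0, 0; 0, 0, 1, 0, 0, 0, 0, 0, 0, 0, 0; 0, 0, 0, 1, 0, 0, 0, 0, 0, 0, 0; 0, 0, 1, 0, 1, 0, 0, 0, 0, 0, 0; 0, 0, 0, 0, 0, 1, 0, 0, 0, 0, 0; 0, 0, 0, 0, 0, 0, 1, 0, 0, 0, 0; 0, 0, 0, 0, 0, 0, 0, 1, 0, 0, 0; 0, 0, 0, 0, 0, 0, 0, 0, 1, 0, 0; 0, 0, 0, 0, 0, 0, 0, 0, 0, 1, 0; 0, 0, 0, 0, 0, 0, 0, 0, 0, 0, 1], by decide +kernel, by decide +kernel⟩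

theorem s5 : El
    ⟨11, !![0, 0, 1, 0, 0, 0, 0, 0, 0, 1, 1; 0, 0, 1, 0, 0, 0, 0, 0, 1, 0, 1; 0, 0, 1, 0, 0, 0, 1, 0, 0, 0, 0; 0, 1, 0, 0, 0, 0, 0, 0, 1, 0, 0; 0, 0, 1, 0, 0, 0, 1, 0, 0, 0, 1; 0, 0, 0, 0, 0, 0, 0, 1, 0, 0, 0; 1, 0, 0, 0, 0, 0, 0, 0, 0, 0, 0; 0, 0, 0, 1, 0, 0, 0, 0, 0, 0, 0; 0, 0, 0, 1, 2, 1, 0, 0, 0, 0, 0; 0, 1, 0, 0, 0, 0, 0, 0, 0, 1, 0; 0, 0, 0, 0, 0, 0, 0, 1, 0, 0, 0]⟩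
    ⟨11, !![0, 0, 0, 0, 0, 0, 0, 0, 0, 1, 1; 0, 0, 0, 0, 0, 0, 0, 0, 1, 0, 1; 0, 0, 1, 0, 0, 0, 1, 0, 0, 0, 0; 0, 1, 0, 0, 0, 0, 0, 0, 1, 0, 0; 0, 0, 0, 0, 0, 0, 1, 0, 0, 0, 1; 0, 0, 0, 0, 0, 0, 0, 1, 0, 0, 0; 1, 0, 0, 0, 0, 0, 0, 0, 0, 0, 0; 0, 0, 0, 1, 0, 0, 0, 0, 0, 0, 0; 0, 0, 0, 1, 2, 1, 0, 0, 0, 0, 0; 0, 1, 0, 0, 0, 0, 0, 0, 0, 1, 0; 0, 0, 1, 0, 0, 0, 1, 1, 0, 0, 0]⟩ :=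
  ⟨!![0, 0, 0, 0, 0, 0, 0, 0, 0, 1, 1; 0, 0, 0, 0, 0, 0, 0, 0, 1, 0, 1; 0, 0, 1, 0, 0, 0, 1, 0, 0, 0, 0; 0, 1, 0, 0, 0, 0, 0, 0, 1, 0, 0; 0, 0, 0, 0, 0, 0, 1, 0, 0, 0, 1; 0, 0, 0, 0, 0, 0, 0, 1, 0, 0, 0; 1, 0, 0, 0, 0, 0, 0, 0, 0, 0, 0; 0, 0, 0, 1, 0, 0, 0, 0, 0, 0, 0; 0, 0, 0, 1, 2, 1, 0, 0, 0, 0, 0; 0, 1, 0, 0, 0, 0, 0, 0, 0, 1, 0; 0, 0, 0, 0, 0, 0, 0, 1, 0, 0, 0],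
    !![1, 0, 0, 0, 0, 0, 0, 0, 0, 0, 0; 0, 1, 0, 0, 0, 0, 0, 0, 0, 0, 0; 0, 0, 1, 0, 0, 0, 0, 0, 0, 0, 0; 0, 0, 0, 1, 0, 0, 0, 0, 0, 0, 0; 0, 0, 0, 0, 1, 0, 0, 0, 0, 0, 0; 0, 0, 0, 0, 0, 1, 0, 0, 0, 0, 0; 0, 0, 0, 0, 0, 0, 1, 0, 0, 0, 0; 0, 0, 0, 0, 0, 0, 0, 1, 0, 0, 0; 0, 0, 0, 0, 0, 0, 0, 0, 1, 0, 0; 0, 0, 0, 0, 0, 0, 0, 0, 0, 1, 0; 0, 0, 1, 0, 0, 0, 0, 0, 0, 0, 1], by decide +kernel, by decide +kernel⟩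

theorem s6 : El
    ⟨11, !![0, 0, 0, 0, 0, 0, 0, 0, 0, 1, 1; 0, 0, 0, 0, 0, 0, 0, 0, 1, 0, 1; 0, 0, 1, 0, 0, 0, 1, 0, 0, 0, 0; 0, 1, 0, 0, 0, 0, 0, 0, 1, 0, 0; 0, 0, 0, 0, 0, 0, 1, 0, 0, 0, 1; 0, 0, 0, 0, 0, 0, 0, 1, 0, 0, 0; 1, 0, 0, 0, 0, 0, 0, 0, 0, 0, 0; 0, 0, 0, 1, 0, 0, 0, 0, 0, 0, 0; 0, 0, 0, 1, 2, 1, 0, 0, 0, 0, 0; 0, 1, 0, 0, 0, 0, 0, 0, 0, 1, 0; 0, 0, 1, 0, 0, 0, 1, 1, 0, 0, 0]⟩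
    ⟨11, !![0, 0, 0, 0, 0, 0, 0, 0, 0, 1, 1; 0, 0, 0, 0, 0, 0, 0, 0, 1, 0, 1; 0, 0, 1, 0, 0, 0, 1, 0, 0, 0, 0; 0, 1, 0, 0, 0, 0, 0, 0, 1, 0, 0; 0, 0, 0, 0, 0, 0, 1, 0, 0, 0, 1; 0, 1, 0, 0, 0, 0, 0, 1, 1, 0, 0; 1, 0, 0, 0, 0, 0, 0, 0, 0, 0, 0; 0, 0, 0, 1, 0, 0, 0, 0, 0, 0, 0; 0, 0, 0, 0, 2, 1, 0, 0, 0, 0, 0; 0, 1, 0, 0, 0, 0, 0, 0, 0, 1, 0; 0, 0, 1, 0, 0, 0, 1, 1, 0, 0, 0]⟩ :=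
  ⟨!![0, 0, 0, 0, 0, 0, 0, 0, 0, 1, 1; 0, 0, 0, 0, 0, 0, 0, 0, 1, 0, 1; 0, 0, 1, 0, 0, 0, 1, 0, 0, 0, 0; 0, 1, 0, 0, 0, 0, 0, 0, 1, 0, 0; 0, 0, 0, 0, 0, 0, 1, 0, 0, 0, 1; 0, 0, 0, 0, 0, 0, 0, 1, 0, 0, 0; 1, 0, 0, 0, 0, 0, 0, 0, 0, 0, 0; 0, 0, 0, 1, 0, 0, 0, 0, 0, 0, 0; 0, 0, 0, 0, 2, 1, 0, 0, 0, 0, 0; 0, 1, 0, 0, 0, 0, 0, 0, 0, 1, 0; 0, 0, 1, 0, 0, 0, 1, 1, 0, 0, 0],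
    !![1, 0, 0, 0, 0, 0, 0, 0, 0, 0, 0; 0, 1, 0, 0, 0, 0, 0, 0, 0, 0, 0; 0, 0, 1, 0, 0, 0, 0, 0, 0, 0, 0; 0, 0, 0, 1, 0, 0, 0, 0, 0, 0, 0; 0, 0, 0, 0, 1, 0, 0, 0, 0, 0, 0; 0, 0, 0, 1, 0, 1, 0, 0, 0, 0, 0; 0, 0, 0, 0, 0, 0, 1, 0, 0, 0, 0; 0, 0, 0, 0, 0, 0, 0, 1, 0, 0, 0; 0, 0, 0, 0, 0, 0, 0, 0, 1, 0, 0; 0, 0, 0, 0, 0, 0, 0, 0, 0, 1, 0; 0, 0, 0, 0, 0, 0, 0, 0, 0, 0, 1], by decide +kernel, by decide +kernel⟩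

theorem s7 : El
    ⟨11, !![0, 0, 0, 0, 0, 0, 0, 0, 0, 1, 1; 0, 0, 0, 0, 0, 0, 0, 0, 1, 0, 1; 0, 0, 1, 0, 0, 0, 1, 0, 0, 0, 0; 0, 1, 0, 0, 0, 0, 0, 0, 1, 0, 0; 0, 0, 0, 0, 0, 0, 1, 0, 0, 0, 1; 0, 1, 0, 0, 0, 0, 0, 1, 1, 0, 0; 1, 0, 0, 0, 0, 0, 0, 0, 0, 0, 0; 0, 0, 0, 1, 0, 0, 0, 0, 0, 0, 0; 0, 0, 0, 0, 2, 1, 0, 0, 0, 0, 0; 0, 1, 0, 0, 0, 0, 0, 0, 0, 1, 0; 0, 0, 1, 0, 0, 0, 1, 1, 0, 0, 0]⟩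
    ⟨11, !![0, 0, 0, 0, 0, 0, 0, 0, 0, 1, 1; 0, 0, 0, 0, 0, 0, 0, 0, 1, 0, 1; 0, 0, 1, 0, 0, 0, 1, 0, 0, 0, 0; 0, 1, 0, 0, 0, 0, 0, 0, 1, 0, 0; 0, 0, 0, 0, 0, 0, 1, 0, 0, 0, 1; 0, 1, 0, 0, 0, 0, 1, 1, 1, 0, 1; 1, 0, 0, 0, 0, 0, 0, 0, 0, 0, 0; 0, 0, 0, 1, 0, 0, 0, 0, 0, 0, 0; 0, 0, 0, 0, 1, 1, 0, 0, 0, 0, 0; 0, 1, 0, 0, 0, 0, 0, 0, 0, 1, 0; 0, 0, 1, 0, 0, 0, 1, 1, 0, 0, 0]⟩ :=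
  ⟨!![0, 0, 0, 0, 0, 0, 0, 0, 0, 1, 1; 0, 0, 0, 0, 0, 0, 0, 0, 1, 0, 1; 0, 0, 1, 0, 0, 0, 1, 0, 0, 0, 0; 0, 1, 0, 0, 0, 0, 0, 0, 1, 0, 0; 0, 0, 0, 0, 0, 0, 1, 0, 0, 0, 1; 0, 1, 0, 0, 0, 0, 0, 1, 1, 0, 0; 1, 0, 0, 0, 0, 0, 0, 0, 0, 0, 0; 0, 0, 0, 1, 0, 0, 0, 0, 0, 0, 0; 0, 0, 0, 0, 1, 1, 0, 0, 0, 0, 0; 0, 1, 0, 0, 0, 0, 0, 0, 0, 1, 0; 0, 0, 1, 0, 0, 0, 1, 1, 0, 0, 0],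
    !![1, 0, 0, 0, 0, 0, 0, 0, 0, 0, 0; 0, 1, 0, 0, 0, 0, 0, 0, 0, 0, 0; 0, 0, 1, 0, 0, 0, 0, 0, 0, 0, 0; 0, 0, 0, 1, 0, 0, 0, 0, 0, 0, 0; 0, 0, 0, 0, 1, 0, 0, 0, 0, 0, 0; 0, 0, 0, 0, 1, 1, 0, 0, 0, 0, 0; 0, 0, 0, 0, 0, 0, 1, 0, 0, 0, 0; 0, 0, 0, 0, 0, 0, 0, 1, 0, 0, 0; 0, 0, 0, 0, 0, 0, 0, 0, 1, 0, 0; 0, 0, 0, 0, 0, 0, 0, 0, 0, 1, 0; 0, 0, 0, 0, 0, 0, 0, 0, 0, 0, 1], by decide +kernel, by decide +kernel⟩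

theorem s8 : El
    ⟨11, !![0, 0, 0, 0, 0, 0, 0, 0, 0, 1, 1; 0, 0, 0, 0, 0, 0, 0, 0, 1, 0, 1; 0, 0, 1, 0, 0, 0, 1, 0, 0, 0, 0; 0, 1, 0, 0, 0, 0, 0, 0, 1, 0, 0; 0, 0, 0, 0, 0, 0, 1, 0, 0, 0, 1; 0, 1, 0, 0, 0, 0, 1, 1, 1, 0, 1; 1, 0, 0, 0, 0, 0, 0, 0, 0, 0, 0; 0, 0, 0, 1, 0, 0, 0, 0, 0, 0, 0; 0, 0, 0, 0, 1, 1, 0, 0, 0, 0, 0; 0, 1, 0, 0, 0, 0, 0, 0, 0, 1, 0; 0, 0, 1, 0, 0, 0, 1, 1, 0, 0, 0]⟩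
    ⟨11, !![0, 0, 0, 0, 0, 0, 0, 0, 0, 1, 1; 0, 0, 0, 0, 0, 0, 0, 0, 1, 0, 1; 0, 0, 1, 0, 0, 0, 1, 0, 0, 0, 0; 0, 1, 0, 0, 0, 0, 0, 0, 1, 0, 0; 0, 0, 0, 0, 0, 0, 1, 0, 0, 0, 1; 0, 1, 0, 0, 0, 0, 0, 1, 1, 0, 1; 1, 0, 0, 0, 0, 0, 0, 0, 0, 0, 0; 1, 0, 0, 1, 0, 0, 0, 0, 0, 0, 0; 0, 0, 0, 0, 1, 1, 0, 0, 0, 0, 0; 0, 1, 0, 0, 0, 0, 0, 0, 0, 1, 0; 0, 0, 1, 0, 0, 0, 0, 1, 0, 0, 0]⟩ :=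
  ⟨!![0, 0, 0, 0, 0, 0, 0, 0, 0, 1, 1; 0, 0, 0, 0, 0, 0, 0, 0, 1, 0, 1; 0, 0, 1, 0, 0, 0, 1, 0, 0, 0, 0; 0, 1, 0, 0, 0, 0, 0, 0, 1, 0, 0; 0, 0, 0, 0, 0, 0, 1, 0, 0, 0, 1; 0, 1, 0, 0, 0, 0, 0, 1, 1, 0, 1; 1, 0, 0, 0, 0, 0, 0, 0, 0, 0, 0; 0, 0, 0, 1, 0, 0, 0, 0, 0, 0, 0; 0, 0, 0, 0, 1, 1, 0, 0, 0, 0, 0; 0, 1, 0, 0, 0, 0, 0, 0, 0, 1, 0; 0, 0, 1, 0, 0, 0, 0, 1, 0, 0, 0],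
    !![1, 0, 0, 0, 0, 0, 0, 0, 0, 0, 0; 0, 1, 0, 0, 0, 0, 0, 0, 0, 0, 0; 0, 0, 1, 0, 0, 0, 0, 0, 0, 0, 0; 0, 0, 0, 1, 0, 0, 0, 0, 0, 0, 0; 0, 0, 0, 0, 1, 0, 0, 0, 0, 0, 0; 0, 0, 0, 0, 0, 1, 0, 0, 0, 0, 0; 0, 0, 0, 0, 0, 0, 1, 0, 0, 0, 0; 0, 0, 0, 0, 0, 0, 1, 1, 0, 0, 0; 0, 0, 0, 0, 0, 0, 0, 0, 1, 0, 0; 0, 0, 0, 0, 0, 0, 0, 0, 0, 1, 0; 0, 0, 0, 0, 0, 0, 0, 0, 0, 0, 1], by decide +kernel, by decide +kernel⟩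

theorem s9 : El
    ⟨11, !![0, 0, 0, 0, 0, 0, 0, 0, 0, 1, 1; 0, 0, 0, 0, 0, 0, 0, 0, 1, 0, 1; 0, 0, 1, 0, 0, 0, 1, 0, 0, 0, 0; 0, 1, 0, 0, 0, 0, 0, 0, 1, 0, 0; 0, 0, 0, 0, 0, 0, 1, 0, 0, 0, 1; 0, 1, 0, 0, 0, 0, 0, 1, 1, 0, 1; 1, 0, 0, 0, 0, 0, 0, 0, 0, 0, 0; 1, 0, 0, 1, 0, 0, 0, 0, 0, 0, 0; 0, 0, 0, 0, 1, 1, 0, 0, 0, 0, 0; 0, 1, 0, 0, 0, 0, 0, 0, 0, 1, 0; 0, 0, 1, 0, 0, 0, 0, 1, 0, 0, 0]⟩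
    ⟨11, !![0, 0, 0, 0, 0, 0, 0, 0, 0, 1, 1; 0, 0, 0, 0, 0, 0, 0, 0, 1, 0, 1; 0, 0, 1, 0, 0, 0, 1, 0, 0, 0, 0; 0, 1, 0, 0, 0, 0, 0, 0, 1, 1, 1; 0, 0, 0, 0, 0, 0, 1, 0, 0, 0, 1; 0, 1, 0, 0, 0, 0, 0, 1, 1, 0, 1; 1, 0, 0, 0, 0, 0, 0, 0, 0, 0, 0; 0, 0, 0, 1, 0, 0, 0, 0, 0, 0, 0; 0, 0, 0, 0, 1, 1, 0, 0, 0, 0, 0; 0, 1, 0, 0, 0, 0, 0, 0, 0, 1, 0; 0, 0, 1, 0, 0, 0, 0, 1, 0, 0, 0]⟩ :=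
  ⟨!![0, 0, 0, 0, 0, 0, 0, 0, 0, 1, 1; 0, 0, 0, 0, 0, 0, 0, 0, 1, 0, 1; 0, 0, 1, 0, 0, 0, 1, 0, 0, 0, 0; 0, 1, 0, 0, 0, 0, 0, 0, 1, 0, 0; 0, 0, 0, 0, 0, 0, 1, 0, 0, 0, 1; 0, 1, 0, 0, 0, 0, 0, 1, 1, 0, 1; 1, 0, 0, 0, 0, 0, 0, 0, 0, 0, 0; 0, 0, 0, 1, 0, 0, 0, 0, 0, 0, 0; 0, 0, 0, 0, 1, 1, 0, 0, 0, 0, 0; 0, 1, 0, 0, 0, 0, 0, 0, 0, 1, 0; 0, 0, 1, 0, 0, 0, 0, 1, 0, 0, 0],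
    !![1, 0, 0, 0, 0, 0, 0, 0, 0, 0, 0; 0, 1, 0, 0, 0, 0, 0, 0, 0, 0, 0; 0, 0, 1, 0, 0, 0, 0, 0, 0, 0, 0; 1, 0, 0, 1, 0, 0, 0, 0, 0, 0, 0; 0, 0, 0, 0, 1, 0, 0, 0, 0, 0, 0; 0, 0, 0, 0, 0, 1, 0, 0, 0, 0, 0; 0, 0, 0, 0, 0, 0, 1, 0, 0, 0, 0; 0, 0, 0, 0, 0, 0, 0, 1, 0, 0, 0; 0, 0, 0, 0, 0, 0, 0, 0, 1, 0, 0; 0, 0, 0, 0, 0, 0, 0, 0, 0, 1, 0; 0, 0, 0, 0, 0, 0, 0, 0, 0, 0, 1], by decide +kernel, by decide +kernel⟩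

theorem part : Ch
    ⟨10, !![0, 0, 1, 0, 0, 0, 0, 0, 0, 1; 0, 0, 1, 0, 1, 1, 0, 0, 1, 0; 0, 0, 1, 0, 0, 0, 1, 0, 0, 0; 0, 1, 0, 0, 1, 0, 0, 0, 1, 0; 0, 0, 0, 0, 0, 1, 0, 0, 0, 0; 0, 0, 0, 0, 0, 0, 0, 1, 0, 0; 1, 0, 0, 0, 1, 0, 0, 0, 0, 0; 0, 0, 0, 1, 0, 0, 0, 0, 0, 0; 0, 0, 2, 1, 2, 0, 0, 0, 0, 0; 0, 1, 0, 0, 0, 0, 0, 0, 0, 1]⟩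
    ⟨11, !![0, 0, 0, 0, 0, 0, 0, 0, 0, 1, 1; 0, 0, 0, 0, 0, 0, 0, 0, 1, 0, 1; 0, 0, 1, 0, 0, 0, 1, 0, 0, 0, 0; 0, 1, 0, 0, 0, 0, 0, 0, 1, 1, 1; 0, 0, 0, 0, 0, 0, 1, 0, 0, 0, 1; 0, 1, 0, 0, 0, 0, 0, 1, 1, 0, 1; 1, 0, 0, 0, 0, 0, 0, 0, 0, 0, 0; 0, 0, 0, 1, 0, 0, 0, 0, 0, 0, 0; 0, 0, 0, 0, 1, 1, 0, 0, 0, 0, 0; 0, 1, 0, 0, 0, 0, 0, 0, 0, 1, 0; 0, 0, 1, 0, 0, 0, 0, 1, 0, 0, 0]⟩ :=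
  Relation.TransGen.single s1
    |>.tail s2
    |>.tail s3
    |>.tail s4
    |>.tail s5
    |>.tail s6
    |>.tail s7
    |>.tail s8
    |>.tail s9

end Pool.Agent.U783.SSE.Ash3
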