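import Pool.Agent.U783.SSE.Gen

/-!
# Chains of elementary equivalences between `2 × 2` matrices, file 12
-/

set_option autoImplicit false

namespace Pool.Agent.U783.SSE.C12

open Matrix

theorem m_1_5_2_1_s1 : El
    ⟨2, !![1, 5; 2, 1]⟩
    ⟨3, !![1, 3, 1; 2, 1, 2; 0, 2, 0]⟩ :=
  ⟨!![1, 0, 1; 0, 1, 0],
    !![1, 3; 2, 1; 0, 2], by decide +kernel, by decide +kernel⟩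

theorem m_1_5_2_1_s2 : El
    ⟨3, !![1, 3, 1; 2, 1, 2; 0, 2, 0]⟩
    ⟨4, !![1, 3, 1, 3; 1, 0, 0, 0; 0, 2, 0, 2; 1, 1, 2, 1]⟩ :=
  ⟨!![1, 0, 0, 0; 0, 1, 0, 1; 0, 0, 1, 0],
    !![1, 3, 1; 1, 0, 0; 0, 2, 0; 1, 1, 2], by decide +kernel, by decide +kernel⟩

theorem m_1_5_2_1_s3 : El
    ⟨4, !![1, 3, 1, 3; 1, 0, 0, 0; 0, 2, 0, 2; 1, 1, 2, 1]⟩
    ⟨4, !![1, 6, 1, 3; 1, 0, 0, 0; 0, 4, 0, 2; 0, 2, 2, 1]⟩ :=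
  ⟨!![1, 0, 0, 0; 0, 1, 0, 0; 0, 0, 1, 0; 0, 1, 0, 1],
    !![1, 3, 1, 3; 1, 0, 0, 0; 0, 2, 0, 2; 0, 1, 2, 1], by decide +kernel, by decide +kernel⟩

theorem m_1_5_2_1_s4 : El
    ⟨4, !![1, 6, 1, 3; 1, 0, 0, 0; 0, 4, 0, 2; 0, 2, 2, 1]⟩
    ⟨4, !![1, 5, 1, 3; 1, 0, 0, 0; 1, 4, 0, 2; 0, 0, 2, 1]⟩ :=
  ⟨!![1, 5, 1, 3; 1, 0, 0, 0; 0, 4, 0, 2; 0, 0, 2, 1],
    !![1, 0, 0, 0; 0, 1, 0, 0; 0, 1, 1, 0; 0, 0, 0, 1], by decide +kernel, by decide +kernel⟩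

theorem m_1_5_2_1_s5 : El
    ⟨4, !![1, 5, 1, 3; 1, 0, 0, 0; 1, 4, 0, 2; 0, 0, 2, 1]⟩
    ⟨4, !![0, 1, 1, 1; 1, 0, 1, 0; 1, 4, 1, 2; 0, 0, 2, 1]⟩ :=
  ⟨!![1, 0, 1, 0; 0, 1, 0, 0; 0, 0, 1, 0; 0, 0, 0, 1],
    !![0, 1, 1, 1; 1, 0, 0, 0; 1, 4, 0, 2; 0, 0, 2, 1], by decide +kernel, by decide +kernel⟩

theorem m_1_5_2_1_s6 : El
    ⟨4, !![0, 1, 1, 1; 1, 0, 1, 0; 1, 4, 1, 2; 0, 0, 2, 1]⟩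
    ⟨4, !![1, 1, 1, 1; 2, 0, 1, 0; 1, 3, 0, 1; 2, 0, 2, 1]⟩ :=
  ⟨!![1, 0, 0, 0; 0, 1, 0, 0; 1, 0, 1, 0; 0, 0, 0, 1],
    !![0, 1, 1, 1; 1, 0, 1, 0; 1, 3, 0, 1; 0, 0, 2, 1], by decide +kernel, by decide +kernel⟩

theorem m_1_5_2_1_s7 : El
    ⟨4, !![1, 1, 1, 1; 2, 0, 1, 0; 1, 3, 0, 1; 2, 0, 2, 1]⟩
    ⟨4, !![1, 2, 1, 1; 2, 0, 1, 0; 1, 4, 0, 1; 0, 1, 1, 1]⟩ :=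
  ⟨!![1, 0, 0, 0; 0, 1, 0, 0; 0, 0, 1, 0; 0, 1, 0, 1],
    !![1, 1, 1, 1; 2, 0, 1, 0; 1, 3, 0, 1; 0, 0, 1, 1], by decide +kernel, by decide +kernel⟩

theorem m_1_5_2_1_s8 : El
    ⟨4, !![1, 2, 1, 1; 2, 0, 1, 0; 1, 4, 0, 1; 0, 1, 1, 1]⟩
    ⟨4, !![1, 1, 0, 1; 2, 0, 1, 2; 1, 4, 0, 2; 0, 1, 1, 1]⟩ :=
  ⟨!![1, 0, 0, 1; 0, 1, 0, 0; 0, 0, 1, 0; 0, 0, 0, 1],
    !![1, 1, 0, 0; 2, 0, 1, 0; 1, 4, 0, 1; 0, 1, 1, 1], by decide +kernel, by decide +kernel⟩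

theorem m_1_5_2_1_s9 : El
    ⟨4, !![1, 1, 0, 1; 2, 0, 1, 2; 1, 4, 0, 2; 0, 1, 1, 1]⟩
    ⟨4, !![1, 1, 0, 1; 3, 0, 1, 2; 0, 3, 0, 1; 1, 1, 1, 1]⟩ :=
  ⟨!![1, 0, 0, 0; 0, 1, 0, 0; 1, 0, 1, 0; 0, 0, 0, 1],
    !![1, 1, 0, 1; 2, 0, 1, 2; 0, 3, 0, 1; 0, 1, 1, 1], by decide +kernel, by decide +kernel⟩

theorem m_1_5_2_1_s10 : El
    ⟨4, !![1, 1, 0, 1; 3, 0, 1, 2; 0, 3, 0, 1; 1, 1, 1, 1]⟩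
    ⟨4, !![1, 1, 0, 1; 3, 0, 1, 1; 1, 4, 1, 1; 1, 1, 1, 0]⟩ :=
  ⟨!![1, 1, 0, 1; 3, 0, 1, 1; 0, 3, 0, 1; 1, 1, 1, 0],
    !![1, 0, 0, 0; 0, 1, 0, 0; 0, 0, 1, 1; 0, 0, 0, 1], by decide +kernel, by decide +kernel⟩

theorem m_1_5_2_1_s11 : El
    ⟨4, !![1, 1, 0, 1; 3, 0, 1, 1; 1, 4, 1, 1; 1, 1, 1, 0]⟩
    ⟨4, !![1, 1, 0, 1; 4, 0, 1, 1; 1, 3, 1, 0; 2, 1, 1, 0]⟩ :=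
  ⟨!![1, 0, 0, 0; 0, 1, 0, 0; 1, 0, 1, 0; 0, 0, 0, 1],
    !![1, 1, 0, 1; 3, 0, 1, 1; 0, 3, 1, 0; 1, 1, 1, 0], by decide +kernel, by decide +kernel⟩

theorem m_1_5_2_1_s12 : El
    ⟨4, !![1, 1, 0, 1; 4, 0, 1, 1; 1, 3, 1, 0; 2, 1, 1, 0]⟩
    ⟨4, !![0, 1, 0, 1; 3, 0, 1, 1; 1, 3, 1, 0; 2, 2, 1, 1]⟩ :=
  ⟨!![0, 1, 0, 1; 3, 0, 1, 1; 1, 3, 1, 0; 2, 1, 1, 0],
    !![1, 0, 0, 0; 0, 1, 0, 0; 0, 0, 1, 0; 1, 0, 0, 1], by decide +kernel, by decide +kernel⟩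

theorem m_1_5_2_1_s13 : El
    ⟨4, !![0, 1, 0, 1; 3, 0, 1, 1; 1, 3, 1, 0; 2, 2, 1, 1]⟩
    ⟨5, !![0, 1, 0, 1, 1; 3, 0, 1, 1, 1; 1, 3, 1, 0, 0; 0, 2, 1, 0, 0; 2, 0, 0, 1, 1]⟩ :=
  ⟨!![1, 0, 0, 0, 0; 0, 1, 0, 0, 0; 0, 0, 1, 0, 0; 0, 0, 0, 1, 1],
    !![0, 1, 0, 1; 3, 0, 1, 1; 1, 3, 1, 0; 0, 2, 1, 0; 2, 0, 0, 1], by decide +kernel, by decide +kernel⟩

theorem m_1_5_2_1_s14 : El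
    ⟨5, !![0, 1, 0, 1, 1; 3, 0, 1, 1, 1; 1, 3, 1, 0, 0; 0, 2, 1, 0, 0; 2, 0, 0, 1, 1]⟩
    ⟨5, !![0, 1, 0, 1, 2; 1, 0, 1, 0, 0; 1, 3, 1, 0, 3; 0, 2, 1, 0, 2; 2, 0, 0, 1, 1]⟩ :=
  ⟨!![1, 0, 0, 0, 0; 0, 1, 0, 0, 1; 0, 0, 1, 0, 0; 0, 0, 0, 1, 0; 0, 0, 0, 0, 1],
    !![0, 1, 0, 1, 1; 1, 0, 1, 0, 0; 1, 3, 1, 0, 0; 0, 2, 1, 0, 0; 2, 0, 0, 1, 1], by decide +kernel, by decide +kernel⟩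

theorem m_1_5_2_1_s15 : El
    ⟨5, !![0, 1, 0, 1, 2; 1, 0, 1, 0, 0; 1, 3, 1, 0, 3; 0, 2, 1, 0, 2; 2, 0, 0, 1, 1]⟩
    ⟨5, !![0, 1, 0, 1, 2; 1, 0, 1, 1, 0; 1, 1, 0, 0, 1; 0, 2, 1, 1, 2; 2, 0, 0, 1, 1]⟩ :=
  ⟨!![1, 0, 0, 0, 0; 0, 1, 0, 0, 0; 0, 0, 1, 1, 0; 0, 0, 0, 1, 0; 0, 0, 0, 0, 1],
    !![0, 1, 0, 1, 2; 1, 0, 1, 0, 0; 1, 1, 0, 0, 1; 0, 2, 1, 0, 2; 2, 0, 0, 1, 1], by decide +kernel, by decide +kernel⟩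

theorem m_1_5_2_1_s16 : El
    ⟨5, !![0, 1, 0, 1, 2; 1, 0, 1, 1, 0; 1, 1, 0, 0, 1; 0, 2, 1, 1, 2; 2, 0, 0, 1, 1]⟩
    ⟨5, !![1, 1, 0, 1, 2; 2, 0, 1, 1, 0; 1, 1, 0, 0, 1; 0, 1, 1, 0, 0; 3, 0, 0, 1, 1]⟩ :=
  ⟨!![1, 0, 0, 0, 0; 0, 1, 0, 0, 0; 0, 0, 1, 0, 0; 1, 0, 0, 1, 0; 0, 0, 0, 0, 1],
    !![0, 1, 0, 1, 2; 1, 0, 1, 1, 0; 1, 1, 0, 0, 1; 0, 1, 1, 0, 0; 2, 0, 0, 1, 1], by decide +kernel, by decide +kernel⟩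

theorem m_1_5_2_1_s17 : El
    ⟨5, !![1, 1, 0, 1, 2; 2, 0, 1, 1, 0; 1, 1, 0, 0, 1; 0, 1, 1, 0, 0; 3, 0, 0, 1, 1]⟩
    ⟨5, !![0, 0, 0, 1, 1; 2, 0, 3, 1, 0; 1, 1, 1, 0, 1; 0, 1, 1, 0, 0; 3, 0, 3, 1, 1]⟩ :=
  ⟨!![1, 0, 1, 0, 0; 0, 1, 0, 0, 0; 0, 0, 1, 0, 0; 0, 0, 0, 1, 0; 0, 0, 0, 0, 1],
    !![0, 0, 0, 1, 1; 2, 0, 1, 1, 0; 1, 1, 0, 0, 1; 0, 1, 1, 0, 0; 3, 0, 0, 1, 1], by decide +kernel, by decide +kernel⟩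

theorem m_1_5_2_1_s18 : El
    ⟨5, !![0, 0, 0, 1, 1; 2, 0, 3, 1, 0; 1, 1, 1, 0, 1; 0, 1, 1, 0, 0; 3, 0, 3, 1, 1]⟩
    ⟨5, !![0, 0, 0, 1, 1; 3, 1, 3, 1, 1; 1, 1, 0, 0, 1; 0, 1, 0, 0, 0; 3, 0, 3, 1, 1]⟩ :=
  ⟨!![0, 0, 0, 1, 1; 2, 0, 3, 1, 0; 1, 1, 0, 0, 1; 0, 1, 0, 0, 0; 3, 0, 3, 1, 1],
    !![1, 0, 0, 0, 0; 0, 1, 1, 0, 0; 0, 0, 1, 0, 0; 0, 0, 0, 1, 0; 0, 0, 0, 0, 1], by decide +kernel, by decide +kernel⟩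

theorem m_1_5_2_1_s19 : El
    ⟨5, !![0, 0, 0, 1, 1; 3, 1, 3, 1, 1; 1, 1, 0, 0, 1; 0, 1, 0, 0, 0; 3, 0, 3, 1, 1]⟩
    ⟨5, !![0, 0, 0, 1, 1; 3, 0, 3, 1, 1; 1, 1, 0, 1, 1; 0, 1, 0, 1, 0; 3, 0, 3, 1, 1]⟩ :=
  ⟨!![1, 0, 0, 0, 0; 0, 1, 0, 1, 0; 0, 0, 1, 0, 0; 0, 0, 0, 1, 0; 0, 0, 0, 0, 1],
    !![0, 0, 0, 1, 1; 3, 0, 3, 1, 1; 1, 1, 0, 0, 1; 0, 1, 0, 0, 0; 3, 0, 3, 1, 1], by decide +kernel, by decide +kernel⟩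

theorem m_1_5_2_1_s20 : El
    ⟨5, !![0, 0, 0, 1, 1; 3, 0, 3, 1, 1; 1, 1, 0, 1, 1; 0, 1, 0, 1, 0; 3, 0, 3, 1, 1]⟩
    ⟨4, !![0, 1, 0, 1; 3, 1, 3, 1; 1, 2, 0, 1; 0, 1, 0, 1]⟩ :=
  ⟨!![1, 0, 0, 0; 0, 1, 0, 0; 0, 0, 1, 0; 0, 0, 0, 1; 0, 1, 0, 0],
    !![0, 0, 0, 1, 1; 3, 0, 3, 1, 1; 1, 1, 0, 1, 1; 0, 1, 0, 1, 0], by decide +kernel, by decide +kernel⟩

theorem m_1_5_2_1_s21 : El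
    ⟨4, !![0, 1, 0, 1; 3, 1, 3, 1; 1, 2, 0, 1; 0, 1, 0, 1]⟩
    ⟨3, !![1, 1, 0; 4, 1, 3; 2, 2, 0]⟩ :=
  ⟨!![1, 0, 0; 0, 1, 0; 0, 0, 1; 1, 0, 0],
    !![0, 1, 0, 1; 3, 1, 3, 1; 1, 2, 0, 1], by decide +kernel, by decide +kernel⟩

theorem m_1_5_2_1_s22 : El
    ⟨3, !![1, 1, 0; 4, 1, 3; 2, 2, 0]⟩
    ⟨3, !![0, 1, 0; 3, 2, 3; 0, 2, 0]⟩ :=
  ⟨!![0, 1, 0; 3, 1, 3; 0, 2, 0],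
    !![1, 0, 0; 1, 1, 0; 0, 0, 1], by decide +kernel, by decide +kernel⟩

theorem m_1_5_2_1_s23 : El
    ⟨3, !![0, 1, 0; 3, 2, 3; 0, 2, 0]⟩
    ⟨2, !![0, 3; 3, 2]⟩ :=
  ⟨!![0, 1; 3, 2; 0, 2],
    !![1, 0, 1; 0, 1, 0], by decide +kernel, by decide +kernel⟩

theorem m_1_5_2_1_s24 : El
    ⟨2, !![0, 3; 3, 2]⟩
    ⟨2, !![2, 3; 3, 0]⟩ :=
  ⟨!![3, 0; 2, 3],
    !![0, 1; 1, 0], by decide +kernel, by decide +kernel⟩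

theorem m_1_5_2_1_s25 : El
    ⟨2, !![2, 3; 3, 0]⟩
    ⟨2, !![2, 9; 1, 0]⟩ :=
  ⟨!![1, 0; 0, 3],
    !![2, 3; 1, 0], by decide +kernel, by decide +kernel⟩

theorem m_1_5_2_1 : Ch ⟨2, !![1, 5; 2, 1]⟩ ⟨2, !![2, 9; 1, 0]⟩ :=
  Relation.TransGen.single m_1_5_2_1_s1
    |>.tail m_1_5_2_1_s2
    |>.tail m_1_5_2_1_s3
    |>.tail m_1_5_2_1_s4
    |>.tail m_1_5_2_1_s5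
    |>.tail m_1_5_2_1_s6
    |>.tail m_1_5_2_1_s7
    |>.tail m_1_5_2_1_s8
    |>.tail m_1_5_2_1_s9
    |>.tail m_1_5_2_1_s10
    |>.tail m_1_5_2_1_s11
    |>.tail m_1_5_2_1_s12
    |>.tail m_1_5_2_1_s13
    |>.tail m_1_5_2_1_s14
    |>.tail m_1_5_2_1_s15
    |>.tail m_1_5_2_1_s16
    |>.tail m_1_5_2_1_s17
    |>.tail m_1_5_2_1_s18
    |>.tail m_1_5_2_1_s19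
    |>.tail m_1_5_2_1_s20
    |>.tail m_1_5_2_1_s21
    |>.tail m_1_5_2_1_s22
    |>.tail m_1_5_2_1_s23
    |>.tail m_1_5_2_1_s24
    |>.tail m_1_5_2_1_s25

theorem m_3_2_7_1_s1 : El
    ⟨2, !![3, 2; 7, 1]⟩
    ⟨2, !![1, 2; 7, 3]⟩ :=
  ⟨!![1, 2; 6, 1],
    !![1, 0; 1, 1], by decide +kernel, by decide +kernel⟩

theorem m_3_2_7_1_s2 : El
    ⟨2, !![1, 2; 7, 3]⟩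
    ⟨3, !![1, 2, 2; 2, 1, 1; 5, 2, 2]⟩ :=
  ⟨!![1, 0, 0; 0, 1, 1],
    !![1, 2; 2, 1; 5, 2], by decide +kernel, by decide +kernel⟩

theorem m_3_2_7_1_s3 : El
    ⟨3, !![1, 2, 2; 2, 1, 1; 5, 2, 2]⟩
    ⟨3, !![1, 4, 2; 2, 2, 1; 3, 2, 1]⟩ :=
  ⟨!![1, 0, 0; 0, 1, 0; 0, 1, 1],
    !![1, 2, 2; 2, 1, 1; 3, 1, 1], by decide +kernel, by decide +kernel⟩

theorem m_3_2_7_1_s4 : El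
    ⟨3, !![1, 4, 2; 2, 2, 1; 3, 2, 1]⟩
    ⟨4, !![1, 1, 2, 3; 2, 2, 1, 0; 3, 2, 1, 0; 2, 2, 1, 0]⟩ :=
  ⟨!![1, 1, 2, 3; 2, 2, 1, 0; 3, 2, 1, 0],
    !![1, 0, 0; 0, 1, 0; 0, 0, 1; 0, 1, 0], by decide +kernel, by decide +kernel⟩

theorem m_3_2_7_1_s5 : El
    ⟨4, !![1, 1, 2, 3; 2, 2, 1, 0; 3, 2, 1, 0; 2, 2, 1, 0]⟩
    ⟨4, !![0, 1, 2, 3; 0, 3, 3, 3; 1, 2, 1, 0; 0, 2, 1, 0]⟩ :=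
  ⟨!![0, 1, 2, 3; 0, 2, 1, 0; 1, 2, 1, 0; 0, 2, 1, 0],
    !![1, 0, 0, 0; 1, 1, 0, 0; 0, 0, 1, 0; 0, 0, 0, 1], by decide +kernel, by decide +kernel⟩

theorem m_3_2_7_1_s6 : El
    ⟨4, !![0, 1, 2, 3; 0, 3, 3, 3; 1, 2, 1, 0; 0, 2, 1, 0]⟩
    ⟨4, !![1, 3, 2, 3; 0, 3, 3, 3; 1, 2, 0, 0; 0, 2, 1, 0]⟩ :=
  ⟨!![0, 1, 2, 3; 0, 3, 3, 3; 1, 2, 0, 0; 0, 2, 1, 0],
    !![1, 0, 1, 0; 0, 1, 0, 0; 0, 0, 1, 0; 0, 0, 0, 1], by decide +kernel, by decide +kernel⟩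

theorem m_3_2_7_1_s7 : El
    ⟨4, !![1, 3, 2, 3; 0, 3, 3, 3; 1, 2, 0, 0; 0, 2, 1, 0]⟩
    ⟨4, !![1, 1, 2, 3; 0, 0, 3, 3; 1, 2, 3, 3; 0, 1, 1, 0]⟩ :=
  ⟨!![1, 1, 2, 3; 0, 0, 3, 3; 1, 2, 0, 0; 0, 1, 1, 0],
    !![1, 0, 0, 0; 0, 1, 0, 0; 0, 1, 1, 0; 0, 0, 0, 1], by decide +kernel, by decide +kernel⟩

theorem m_3_2_7_1_s8 : El
    ⟨4, !![1, 1, 2, 3; 0, 0, 3, 3; 1, 2, 3, 3; 0, 1, 1, 0]⟩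
    ⟨4, !![1, 2, 3, 2; 0, 0, 3, 3; 1, 2, 3, 2; 0, 1, 1, 0]⟩ :=
  ⟨!![1, 1, 2, 2; 0, 0, 3, 3; 1, 2, 3, 2; 0, 1, 1, 0],
    !![1, 0, 0, 1; 0, 1, 0, 0; 0, 0, 1, 0; 0, 0, 0, 1], by decide +kernel, by decide +kernel⟩

theorem m_3_2_7_1_s9 : El
    ⟨4, !![1, 2, 3, 2; 0, 0, 3, 3; 1, 2, 3, 2; 0, 1, 1, 0]⟩
    ⟨3, !![4, 2, 2; 3, 0, 3; 1, 1, 0]⟩ :=
  ⟨!![1, 0, 0; 0, 1, 0; 1, 0, 0; 0, 0, 1],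
    !![1, 2, 3, 2; 0, 0, 3, 3; 0, 1, 1, 0], by decide +kernel, by decide +kernel⟩

theorem m_3_2_7_1_s10 : El
    ⟨3, !![4, 2, 2; 3, 0, 3; 1, 1, 0]⟩
    ⟨3, !![2, 2, 2; 5, 2, 5; 0, 1, 0]⟩ :=
  ⟨!![2, 2, 2; 3, 0, 3; 0, 1, 0],
    !![1, 0, 0; 1, 1, 0; 0, 0, 1], by decide +kernel, by decide +kernel⟩

theorem m_3_2_7_1_s11 : El
    ⟨3, !![2, 2, 2; 5, 2, 5; 0, 1, 0]⟩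
    ⟨2, !![2, 3; 5, 2]⟩ :=
  ⟨!![2, 2; 5, 2; 0, 1],
    !![1, 0, 1; 0, 1, 0], by decide +kernel, by decide +kernel⟩

theorem m_3_2_7_1 : Ch ⟨2, !![3, 2; 7, 1]⟩ ⟨2, !![2, 3; 5, 2]⟩ :=
  Relation.TransGen.single m_3_2_7_1_s1
    |>.tail m_3_2_7_1_s2
    |>.tail m_3_2_7_1_s3
    |>.tail m_3_2_7_1_s4
    |>.tail m_3_2_7_1_s5
    |>.tail m_3_2_7_1_s6
    |>.tail m_3_2_7_1_s7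
    |>.tail m_3_2_7_1_s8
    |>.tail m_3_2_7_1_s9
    |>.tail m_3_2_7_1_s10
    |>.tail m_3_2_7_1_s11

theorem m_2_2_3_1_s1 : El
    ⟨2, !![2, 2; 3, 1]⟩
    ⟨2, !![1, 3; 2, 2]⟩ :=
  ⟨!![2, 2; 1, 3],
    !![0, 1; 1, 0], by decide +kernel, by decide +kernel⟩

theorem m_2_2_3_1_s2 : El
    ⟨2, !![1, 3; 2, 2]⟩
    ⟨2, !![3, 2; 2, 0]⟩ :=
  ⟨!![1, 2; 2, 0],
    !![1, 1; 0, 1], by decide +kernel, by decide +kernel⟩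

theorem m_2_2_3_1_s3 : El
    ⟨2, !![3, 2; 2, 0]⟩
    ⟨2, !![3, 4; 1, 0]⟩ :=
  ⟨!![1, 0; 0, 2],
    !![3, 2; 1, 0], by decide +kernel, by decide +kernel⟩

theorem m_2_2_3_1 : Ch ⟨2, !![2, 2; 3, 1]⟩ ⟨2, !![3, 4; 1, 0]⟩ :=
  Relation.TransGen.single m_2_2_3_1_s1
    |>.tail m_2_2_3_1_s2
    |>.tail m_2_2_3_1_s3

theorem m_2_2_6_1_s1 : El
    ⟨2, !![2, 2; 6, 1]⟩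
    ⟨2, !![1, 6; 2, 2]⟩ :=
  ⟨!![2, 2; 1, 6],
    !![0, 1; 1, 0], by decide +kernel, by decide +kernel⟩

theorem m_2_2_6_1_s2 : El
    ⟨2, !![1, 6; 2, 2]⟩
    ⟨2, !![3, 5; 2, 0]⟩ :=
  ⟨!![1, 5; 2, 0],
    !![1, 1; 0, 1], by decide +kernel, by decide +kernel⟩

theorem m_2_2_6_1_s3 : El
    ⟨2, !![3, 5; 2, 0]⟩
    ⟨2, !![3, 10; 1, 0]⟩ :=
  ⟨!![1, 0; 0, 2],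
    !![3, 5; 1, 0], by decide +kernel, by decide +kernel⟩

theorem m_2_2_6_1 : Ch ⟨2, !![2, 2; 6, 1]⟩ ⟨2, !![3, 10; 1, 0]⟩ :=
  Relation.TransGen.single m_2_2_6_1_s1
    |>.tail m_2_2_6_1_s2
    |>.tail m_2_2_6_1_s3

theorem m_2_4_4_1_s1 : El
    ⟨2, !![2, 4; 4, 1]⟩
    ⟨2, !![2, 8; 2, 1]⟩ :=
  ⟨!![1, 4; 2, 1],
    !![2, 0; 0, 1], by decide +kernel, by decide +kernel⟩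

theorem m_2_4_4_1_s2 : El
    ⟨2, !![2, 8; 2, 1]⟩
    ⟨2, !![2, 16; 1, 1]⟩ :=
  ⟨!![1, 8; 1, 1],
    !![2, 0; 0, 1], by decide +kernel, by decide +kernel⟩

theorem m_2_4_4_1_s3 : El
    ⟨2, !![2, 16; 1, 1]⟩
    ⟨2, !![3, 14; 1, 0]⟩ :=
  ⟨!![2, 14; 1, 0],
    !![1, 1; 0, 1], by decide +kernel, by decide +kernel⟩

theorem m_2_4_4_1 : Ch ⟨2, !![2, 4; 4, 1]⟩ ⟨2, !![3, 14; 1, 0]⟩ :=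
  Relation.TransGen.single m_2_4_4_1_s1
    |>.tail m_2_4_4_1_s2
    |>.tail m_2_4_4_1_s3

theorem m_4_2_3_1_s1 : El
    ⟨2, !![4, 2; 3, 1]⟩
    ⟨2, !![1, 2; 3, 4]⟩ :=
  ⟨!![1, 1; 0, 1],
    !![1, 1; 3, 1], by decide +kernel, by decide +kernel⟩

theorem m_4_2_3_1_s2 : El
    ⟨2, !![1, 2; 3, 4]⟩
    ⟨2, !![3, 2; 4, 2]⟩ :=
  ⟨!![1, 0; 1, 1],
    !![1, 2; 2, 2], by decide +kernel, by decide +kernel⟩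

theorem m_4_2_3_1_s3 : El
    ⟨2, !![3, 2; 4, 2]⟩
    ⟨2, !![5, 2; 1, 0]⟩ :=
  ⟨!![1, 0; 1, 1],
    !![3, 2; 1, 0], by decide +kernel, by decide +kernel⟩

theorem m_4_2_3_1 : Ch ⟨2, !![4, 2; 3, 1]⟩ ⟨2, !![5, 2; 1, 0]⟩ :=
  Relation.TransGen.single m_4_2_3_1_s1
    |>.tail m_4_2_3_1_s2
    |>.tail m_4_2_3_1_s3

theorem m_2_7_2_1_s1 : El
    ⟨2, !![2, 7; 2, 1]⟩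
    ⟨2, !![2, 14; 1, 1]⟩ :=
  ⟨!![1, 7; 1, 1],
    !![2, 0; 0, 1], by decide +kernel, by decide +kernel⟩

theorem m_2_7_2_1_s2 : El
    ⟨2, !![2, 14; 1, 1]⟩
    ⟨2, !![3, 12; 1, 0]⟩ :=
  ⟨!![2, 12; 1, 0],
    !![1, 1; 0, 1], by decide +kernel, by decide +kernel⟩

theorem m_2_7_2_1 : Ch ⟨2, !![2, 7; 2, 1]⟩ ⟨2, !![3, 12; 1, 0]⟩ :=
  Relation.TransGen.single m_2_7_2_1_s1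
    |>.tail m_2_7_2_1_s2

theorem m_3_3_2_1_s1 : El
    ⟨2, !![3, 3; 2, 1]⟩
    ⟨2, !![1, 3; 2, 3]⟩ :=
  ⟨!![1, 1; 0, 1],
    !![1, 2; 2, 1], by decide +kernel, by decide +kernel⟩

theorem m_3_3_2_1_s2 : El
    ⟨2, !![1, 3; 2, 3]⟩
    ⟨2, !![4, 3; 1, 0]⟩ :=
  ⟨!![1, 0; 1, 1],
    !![1, 3; 1, 0], by decide +kernel, by decide +kernel⟩

theorem m_3_3_2_1 : Ch ⟨2, !![3, 3; 2, 1]⟩ ⟨2, !![4, 3; 1, 0]⟩ :=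
  Relation.TransGen.single m_3_3_2_1_s1
    |>.tail m_3_3_2_1_s2

theorem m_3_4_3_1_s1 : El
    ⟨2, !![3, 4; 3, 1]⟩
    ⟨2, !![3, 12; 1, 1]⟩ :=
  ⟨!![1, 4; 1, 1],
    !![3, 0; 0, 1], by decide +kernel, by decide +kernel⟩

theorem m_3_4_3_1_s2 : El
    ⟨2, !![3, 12; 1, 1]⟩
    ⟨2, !![4, 9; 1, 0]⟩ :=
  ⟨!![3, 9; 1, 0],
    !![1, 1; 0, 1], by decide +kernel, by decide +kernel⟩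

theorem m_3_4_3_1 : Ch ⟨2, !![3, 4; 3, 1]⟩ ⟨2, !![4, 9; 1, 0]⟩ :=
  Relation.TransGen.single m_3_4_3_1_s1
    |>.tail m_3_4_3_1_s2

theorem m_4_2_4_1_s1 : El
    ⟨2, !![4, 2; 4, 1]⟩
    ⟨2, !![1, 4; 2, 4]⟩ :=
  ⟨!![2, 4; 1, 4],
    !![0, 1; 1, 0], by decide +kernel, by decide +kernel⟩

theorem m_4_2_4_1_s2 : El
    ⟨2, !![1, 4; 2, 4]⟩
    ⟨2, !![5, 4; 1, 0]⟩ :=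
  ⟨!![1, 0; 1, 1],
    !![1, 4; 1, 0], by decide +kernel, by decide +kernel⟩

theorem m_4_2_4_1 : Ch ⟨2, !![4, 2; 4, 1]⟩ ⟨2, !![5, 4; 1, 0]⟩ :=
  Relation.TransGen.single m_4_2_4_1_s1
    |>.tail m_4_2_4_1_s2

theorem m_1_6_2_1_s1 : El
    ⟨2, !![1, 6; 2, 1]⟩
    ⟨2, !![1, 2; 6, 1]⟩ :=
  ⟨!![6, 1; 1, 2],
    !![0, 1; 1, 0], by decide +kernel, by decide +kernel⟩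

theorem m_1_6_2_1 : Ch ⟨2, !![1, 6; 2, 1]⟩ ⟨2, !![1, 2; 6, 1]⟩ :=
  Relation.TransGen.single m_1_6_2_1_s1

theorem m_1_12_2_1_s1 : El
    ⟨2, !![1, 12; 2, 1]⟩
    ⟨2, !![1, 2; 12, 1]⟩ :=
  ⟨!![12, 1; 1, 2],
    !![0, 1; 1, 0], by decide +kernel, by decide +kernel⟩

theorem m_1_12_2_1 : Ch ⟨2, !![1, 12; 2, 1]⟩ ⟨2, !![1, 2; 12, 1]⟩ :=
  Relation.TransGen.single m_1_12_2_1_s1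

theorem m_3_6_2_1_s1 : El
    ⟨2, !![3, 6; 2, 1]⟩
    ⟨2, !![1, 2; 6, 3]⟩ :=
  ⟨!![6, 3; 1, 2],
    !![0, 1; 1, 0], by decide +kernel, by decide +kernel⟩

theorem m_3_6_2_1 : Ch ⟨2, !![3, 6; 2, 1]⟩ ⟨2, !![1, 2; 6, 3]⟩ :=
  Relation.TransGen.single m_3_6_2_1_s1

theorem m_1_3_3_1 : Ch ⟨2, !![1, 3; 3, 1]⟩ ⟨2, !![1, 3; 3, 1]⟩ := Ch.refl _

end Pool.Agent.U783.SSE.C12
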