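import Pool.Agent.U783.SSE.Gen

/-!
# Chains of elementary equivalences between `2 × 2` matrices, file 4
-/

set_option autoImplicit false

namespace Pool.Agent.U783.SSE.C4

open Matrix

theorem m_1_5_3_1_s1 : El
    ⟨2, !![1, 5; 3, 1]⟩
    ⟨3, !![0, 2, 0; 3, 1, 3; 1, 3, 1]⟩ :=
  ⟨!![1, 0, 1; 0, 1, 0],
    !![0, 2; 3, 1; 1, 3], by decide +kernel, by decide +kernel⟩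

theorem m_1_5_3_1_s2 : El
    ⟨3, !![0, 2, 0; 3, 1, 3; 1, 3, 1]⟩
    ⟨4, !![0, 0, 2, 0; 3, 1, 0, 3; 3, 1, 0, 3; 1, 0, 3, 1]⟩ :=
  ⟨!![0, 0, 2, 0; 3, 1, 0, 3; 1, 0, 3, 1],
    !![1, 0, 0; 0, 1, 0; 0, 1, 0; 0, 0, 1], by decide +kernel, by decide +kernel⟩

theorem m_1_5_3_1_s3 : El
    ⟨4, !![0, 0, 2, 0; 3, 1, 0, 3; 3, 1, 0, 3; 1, 0, 3, 1]⟩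
    ⟨5, !![0, 0, 2, 0, 0; 0, 0, 0, 2, 0; 3, 1, 0, 3, 1; 1, 0, 3, 1, 0; 3, 1, 0, 1, 1]⟩ :=
  ⟨!![1, 0, 0, 0, 0; 0, 1, 0, 0, 1; 0, 0, 1, 0, 0; 0, 0, 0, 1, 0],
    !![0, 0, 2, 0; 0, 0, 0, 2; 3, 1, 0, 3; 1, 0, 3, 1; 3, 1, 0, 1], by decide +kernel, by decide +kernel⟩

theorem m_1_5_3_1_s4 : El
    ⟨5, !![0, 0, 2, 0, 0; 0, 0, 0, 2, 0; 3, 1, 0, 3, 1; 1, 0, 3, 1, 0; 3, 1, 0, 1, 1]⟩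
    ⟨5, !![0, 0, 2, 0, 0; 0, 0, 0, 2, 0; 2, 1, 0, 3, 1; 1, 0, 3, 1, 0; 2, 1, 2, 1, 1]⟩ :=
  ⟨!![0, 0, 2, 0, 0; 0, 0, 0, 2, 0; 2, 1, 0, 3, 1; 1, 0, 3, 1, 0; 2, 1, 0, 1, 1],
    !![1, 0, 0, 0, 0; 0, 1, 0, 0, 0; 0, 0, 1, 0, 0; 0, 0, 0, 1, 0; 1, 0, 0, 0, 1], by decide +kernel, by decide +kernel⟩

theorem m_1_5_3_1_s5 : El
    ⟨5, !![0, 0, 2, 0, 0; 0, 0, 0, 2, 0; 2, 1, 0, 3, 1; 1, 0, 3, 1, 0; 2, 1, 2, 1, 1]⟩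
    ⟨5, !![0, 0, 2, 0, 0; 0, 0, 0, 2, 0; 1, 1, 0, 3, 1; 1, 0, 3, 1, 0; 1, 1, 4, 1, 1]⟩ :=
  ⟨!![0, 0, 2, 0, 0; 0, 0, 0, 2, 0; 1, 1, 0, 3, 1; 1, 0, 3, 1, 0; 1, 1, 2, 1, 1],
    !![1, 0, 0, 0, 0; 0, 1, 0, 0, 0; 0, 0, 1, 0, 0; 0, 0, 0, 1, 0; 1, 0, 0, 0, 1], by decide +kernel, by decide +kernel⟩

theorem m_1_5_3_1_s6 : El
    ⟨5, !![0, 0, 2, 0, 0; 0, 0, 0, 2, 0; 1, 1, 0, 3, 1; 1, 0, 3, 1, 0; 1, 1, 4, 1, 1]⟩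
    ⟨5, !![0, 0, 2, 0, 0; 0, 0, 0, 2, 0; 1, 1, 0, 4, 1; 1, 0, 3, 1, 0; 0, 1, 1, 1, 1]⟩ :=
  ⟨!![1, 0, 0, 0, 0; 0, 1, 0, 0, 0; 0, 0, 1, 0, 0; 0, 0, 0, 1, 0; 0, 0, 0, 1, 1],
    !![0, 0, 2, 0, 0; 0, 0, 0, 2, 0; 1, 1, 0, 3, 1; 1, 0, 3, 1, 0; 0, 1, 1, 0, 1], by decide +kernel, by decide +kernel⟩

theorem m_1_5_3_1_s7 : El
    ⟨5, !![0, 0, 2, 0, 0; 0, 0, 0, 2, 0; 1, 1, 0, 4, 1; 1, 0, 3, 1, 0; 0, 1, 1, 1, 1]⟩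
    ⟨5, !![0, 2, 2, 0, 0; 0, 0, 0, 2, 0; 1, 1, 0, 2, 1; 1, 3, 3, 1, 0; 0, 2, 1, 1, 1]⟩ :=
  ⟨!![1, 0, 0, 0, 0; 0, 1, 0, 0, 0; 0, 1, 1, 0, 0; 0, 0, 0, 1, 0; 0, 0, 0, 0, 1],
    !![0, 0, 2, 0, 0; 0, 0, 0, 2, 0; 1, 1, 0, 2, 1; 1, 0, 3, 1, 0; 0, 1, 1, 1, 1], by decide +kernel, by decide +kernel⟩

theorem m_1_5_3_1_s8 : El
    ⟨5, !![0, 2, 2, 0, 0; 0, 0, 0, 2, 0; 1, 1, 0, 2, 1; 1, 3, 3, 1, 0; 0, 2, 1, 1, 1]⟩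
    ⟨5, !![0, 2, 2, 2, 0; 0, 0, 0, 2, 0; 1, 0, 0, 2, 1; 1, 2, 3, 1, 0; 0, 2, 1, 1, 1]⟩ :=
  ⟨!![0, 2, 2, 0, 0; 0, 0, 0, 2, 0; 1, 0, 0, 2, 1; 1, 2, 3, 1, 0; 0, 2, 1, 1, 1],
    !![1, 1, 0, 0, 0; 0, 1, 0, 0, 0; 0, 0, 1, 0, 0; 0, 0, 0, 1, 0; 0, 0, 0, 0, 1], by decide +kernel, by decide +kernel⟩

theorem m_1_5_3_1_s9 : El
    ⟨5, !![0, 2, 2, 2, 0; 0, 0, 0, 2, 0; 1, 0, 0, 2, 1; 1, 2, 3, 1, 0; 0, 2, 1, 1, 1]⟩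
    ⟨6, !![0, 1, 1, 1, 0, 0; 0, 0, 0, 2, 0, 0; 1, 0, 0, 2, 1, 1; 1, 2, 3, 1, 0, 1; 0, 2, 1, 1, 1, 0; 0, 1, 1, 1, 0, 0]⟩ :=
  ⟨!![1, 0, 0, 0, 0, 1; 0, 1, 0, 0, 0, 0; 0, 0, 1, 0, 0, 0; 0, 0, 0, 1, 0, 0; 0, 0, 0, 0, 1, 0],
    !![0, 1, 1, 1, 0; 0, 0, 0, 2, 0; 1, 0, 0, 2, 1; 1, 2, 3, 1, 0; 0, 2, 1, 1, 1; 0, 1, 1, 1, 0], by decide +kernel, by decide +kernel⟩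

theorem m_1_5_3_1_s10 : El
    ⟨6, !![0, 1, 1, 1, 0, 0; 0, 0, 0, 2, 0, 0; 1, 0, 0, 2, 1, 1; 1, 2, 3, 1, 0, 1; 0, 2, 1, 1, 1, 0; 0, 1, 1, 1, 0, 0]⟩
    ⟨5, !![0, 1, 1, 1, 0; 0, 0, 0, 2, 0; 2, 0, 0, 2, 1; 2, 2, 3, 1, 0; 0, 2, 1, 1, 1]⟩ :=
  ⟨!![1, 0, 0, 0, 0; 0, 1, 0, 0, 0; 0, 0, 1, 0, 0; 0, 0, 0, 1, 0; 0, 0, 0, 0, 1; 1, 0, 0, 0, 0],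
    !![0, 1, 1, 1, 0, 0; 0, 0, 0, 2, 0, 0; 1, 0, 0, 2, 1, 1; 1, 2, 3, 1, 0, 1; 0, 2, 1, 1, 1, 0], by decide +kernel, by decide +kernel⟩

theorem m_1_5_3_1_s11 : El
    ⟨5, !![0, 1, 1, 1, 0; 0, 0, 0, 2, 0; 2, 0, 0, 2, 1; 2, 2, 3, 1, 0; 0, 2, 1, 1, 1]⟩
    ⟨5, !![1, 1, 1, 1, 0; 2, 0, 0, 2, 0; 4, 0, 0, 2, 1; 2, 1, 2, 0, 0; 1, 2, 1, 1, 1]⟩ :=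
  ⟨!![1, 0, 0, 0, 0; 0, 1, 0, 0, 0; 0, 0, 1, 0, 0; 1, 0, 0, 1, 0; 0, 0, 0, 0, 1],
    !![0, 1, 1, 1, 0; 0, 0, 0, 2, 0; 2, 0, 0, 2, 1; 2, 1, 2, 0, 0; 0, 2, 1, 1, 1], by decide +kernel, by decide +kernel⟩

theorem m_1_5_3_1_s12 : El
    ⟨5, !![1, 1, 1, 1, 0; 2, 0, 0, 2, 0; 4, 0, 0, 2, 1; 2, 1, 2, 0, 0; 1, 2, 1, 1, 1]⟩
    ⟨5, !![1, 1, 1, 1, 0; 2, 0, 0, 2, 0; 5, 0, 0, 2, 1; 2, 1, 2, 0, 0; 1, 1, 0, 0, 1]⟩ :=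
  ⟨!![1, 0, 0, 0, 0; 0, 1, 0, 0, 0; 0, 0, 1, 0, 0; 0, 0, 0, 1, 0; 1, 0, 0, 0, 1],
    !![1, 1, 1, 1, 0; 2, 0, 0, 2, 0; 4, 0, 0, 2, 1; 2, 1, 2, 0, 0; 0, 1, 0, 0, 1], by decide +kernel, by decide +kernel⟩

theorem m_1_5_3_1_s13 : El
    ⟨5, !![1, 1, 1, 1, 0; 2, 0, 0, 2, 0; 5, 0, 0, 2, 1; 2, 1, 2, 0, 0; 1, 1, 0, 0, 1]⟩
    ⟨5, !![0, 1, 1, 1, 0; 2, 0, 0, 2, 0; 5, 1, 1, 3, 1; 0, 1, 2, 0, 0; 1, 1, 0, 0, 1]⟩ :=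
  ⟨!![0, 1, 1, 1, 0; 2, 0, 0, 2, 0; 5, 0, 0, 2, 1; 0, 1, 2, 0, 0; 1, 1, 0, 0, 1],
    !![1, 0, 0, 0, 0; 0, 1, 0, 0, 0; 1, 0, 1, 0, 0; 0, 0, 0, 1, 0; 0, 0, 0, 0, 1], by decide +kernel, by decide +kernel⟩

theorem m_1_5_3_1_s14 : El
    ⟨5, !![0, 1, 1, 1, 0; 2, 0, 0, 2, 0; 5, 1, 1, 3, 1; 0, 1, 2, 0, 0; 1, 1, 0, 0, 1]⟩
    ⟨6, !![0, 1, 1, 1, 0, 0; 1, 0, 0, 2, 1, 0; 3, 1, 1, 3, 2, 1; 0, 1, 2, 0, 0, 0; 0, 1, 1, 1, 0, 0; 1, 1, 0, 0, 0, 1]⟩ :=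
  ⟨!![0, 1, 1, 1, 0, 0; 1, 0, 0, 2, 1, 0; 3, 1, 1, 3, 2, 1; 0, 1, 2, 0, 0, 0; 1, 1, 0, 0, 0, 1],
    !![1, 0, 0, 0, 0; 0, 1, 0, 0, 0; 0, 0, 1, 0, 0; 0, 0, 0, 1, 0; 1, 0, 0, 0, 0; 0, 0, 0, 0, 1], by decide +kernel, by decide +kernel⟩

theorem m_1_5_3_1_s15 : El
    ⟨6, !![0, 1, 1, 1, 0, 0; 1, 0, 0, 2, 1, 0; 3, 1, 1, 3, 2, 1; 0, 1, 2, 0, 0, 0; 0, 1, 1, 1, 0, 0; 1, 1, 0, 0, 0, 1]⟩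
    ⟨6, !![0, 1, 1, 1, 0, 0; 0, 0, 0, 2, 1, 0; 1, 1, 1, 3, 2, 1; 0, 1, 2, 0, 0, 0; 0, 2, 2, 2, 0, 0; 1, 1, 0, 0, 0, 1]⟩ :=
  ⟨!![0, 1, 1, 1, 0, 0; 0, 0, 0, 2, 1, 0; 1, 1, 1, 3, 2, 1; 0, 1, 2, 0, 0, 0; 0, 1, 1, 1, 0, 0; 1, 1, 0, 0, 0, 1],
    !![1, 0, 0, 0, 0, 0; 0, 1, 0, 0, 0, 0; 0, 0, 1, 0, 0, 0; 0, 0, 0, 1, 0, 0; 1, 0, 0, 0, 1, 0; 0, 0, 0, 0, 0, 1], by decide +kernel, by decide +kernel⟩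

theorem m_1_5_3_1_s16 : El
    ⟨6, !![0, 1, 1, 1, 0, 0; 0, 0, 0, 2, 1, 0; 1, 1, 1, 3, 2, 1; 0, 1, 2, 0, 0, 0; 0, 2, 2, 2, 0, 0; 1, 1, 0, 0, 0, 1]⟩
    ⟨5, !![1, 2, 1, 1, 0; 0, 0, 0, 2, 1; 1, 1, 1, 3, 2; 0, 1, 2, 0, 0; 0, 2, 2, 2, 0]⟩ :=
  ⟨!![0, 1, 1, 1, 0; 0, 0, 0, 2, 1; 1, 1, 1, 3, 2; 0, 1, 2, 0, 0; 0, 2, 2, 2, 0; 1, 1, 0, 0, 0],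
    !![1, 0, 0, 0, 0, 1; 0, 1, 0, 0, 0, 0; 0, 0, 1, 0, 0, 0; 0, 0, 0, 1, 0, 0; 0, 0, 0, 0, 1, 0], by decide +kernel, by decide +kernel⟩

theorem m_1_5_3_1_s17 : El
    ⟨5, !![1, 2, 1, 1, 0; 0, 0, 0, 2, 1; 1, 1, 1, 3, 2; 0, 1, 2, 0, 0; 0, 2, 2, 2, 0]⟩
    ⟨5, !![1, 2, 1, 1, 0; 0, 0, 0, 3, 1; 1, 1, 1, 5, 2; 0, 1, 2, 0, 0; 0, 1, 0, 2, 0]⟩ :=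
  ⟨!![1, 0, 0, 0, 0; 0, 1, 0, 0, 0; 0, 0, 1, 0, 0; 0, 0, 0, 1, 0; 0, 0, 0, 1, 1],
    !![1, 2, 1, 1, 0; 0, 0, 0, 2, 1; 1, 1, 1, 3, 2; 0, 1, 2, 0, 0; 0, 1, 0, 2, 0], by decide +kernel, by decide +kernel⟩

theorem m_1_5_3_1_s18 : El
    ⟨5, !![1, 2, 1, 1, 0; 0, 0, 0, 3, 1; 1, 1, 1, 5, 2; 0, 1, 2, 0, 0; 0, 1, 0, 2, 0]⟩
    ⟨5, !![1, 3, 1, 1, 0; 0, 0, 0, 3, 1; 1, 2, 1, 2, 1; 0, 3, 2, 0, 0; 0, 1, 0, 2, 0]⟩ :=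
  ⟨!![1, 0, 0, 0, 0; 0, 1, 0, 0, 0; 0, 1, 1, 0, 0; 0, 0, 0, 1, 0; 0, 0, 0, 0, 1],
    !![1, 2, 1, 1, 0; 0, 0, 0, 3, 1; 1, 1, 1, 2, 1; 0, 1, 2, 0, 0; 0, 1, 0, 2, 0], by decide +kernel, by decide +kernel⟩

theorem m_1_5_3_1_s19 : El
    ⟨5, !![1, 3, 1, 1, 0; 0, 0, 0, 3, 1; 1, 2, 1, 2, 1; 0, 3, 2, 0, 0; 0, 1, 0, 2, 0]⟩
    ⟨5, !![1, 2, 1, 4, 1; 0, 0, 0, 3, 1; 1, 1, 1, 2, 1; 0, 3, 2, 0, 0; 0, 1, 0, 2, 0]⟩ :=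
  ⟨!![1, 2, 1, 1, 0; 0, 0, 0, 3, 1; 1, 1, 1, 2, 1; 0, 3, 2, 0, 0; 0, 1, 0, 2, 0],
    !![1, 1, 0, 0, 0; 0, 1, 0, 0, 0; 0, 0, 1, 0, 0; 0, 0, 0, 1, 0; 0, 0, 0, 0, 1], by decide +kernel, by decide +kernel⟩

theorem m_1_5_3_1_s20 : El
    ⟨5, !![1, 2, 1, 4, 1; 0, 0, 0, 3, 1; 1, 1, 1, 2, 1; 0, 3, 2, 0, 0; 0, 1, 0, 2, 0]⟩
    ⟨5, !![0, 1, 0, 2, 0; 0, 0, 0, 3, 1; 1, 1, 2, 2, 1; 0, 3, 2, 0, 0; 0, 1, 0, 2, 0]⟩ :=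
  ⟨!![1, 0, 1, 0, 0; 0, 1, 0, 0, 0; 0, 0, 1, 0, 0; 0, 0, 0, 1, 0; 0, 0, 0, 0, 1],
    !![0, 1, 0, 2, 0; 0, 0, 0, 3, 1; 1, 1, 1, 2, 1; 0, 3, 2, 0, 0; 0, 1, 0, 2, 0], by decide +kernel, by decide +kernel⟩

theorem m_1_5_3_1_s21 : El
    ⟨5, !![0, 1, 0, 2, 0; 0, 0, 0, 3, 1; 1, 1, 2, 2, 1; 0, 3, 2, 0, 0; 0, 1, 0, 2, 0]⟩
    ⟨5, !![0, 1, 0, 2, 0; 0, 0, 0, 3, 1; 1, 0, 2, 0, 3; 0, 3, 2, 0, 2; 0, 1, 0, 2, 0]⟩ :=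
  ⟨!![1, 0, 0, 0, 0; 0, 1, 0, 0, 0; 0, 0, 1, 0, 1; 0, 0, 0, 1, 0; 0, 0, 0, 0, 1],
    !![0, 1, 0, 2, 0; 0, 0, 0, 3, 1; 1, 0, 2, 0, 1; 0, 3, 2, 0, 0; 0, 1, 0, 2, 0], by decide +kernel, by decide +kernel⟩

theorem m_1_5_3_1_s22 : El
    ⟨5, !![0, 1, 0, 2, 0; 0, 0, 0, 3, 1; 1, 0, 2, 0, 3; 0, 3, 2, 0, 2; 0, 1, 0, 2, 0]⟩
    ⟨6, !![0, 1, 0, 2, 0, 0; 0, 0, 0, 3, 0, 1; 0, 0, 1, 0, 1, 2; 0, 3, 2, 0, 2, 2; 1, 0, 1, 0, 1, 1; 0, 1, 0, 2, 0, 0]⟩ :=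
  ⟨!![1, 0, 0, 0, 0, 0; 0, 1, 0, 0, 0, 0; 0, 0, 1, 0, 1, 0; 0, 0, 0, 1, 0, 0; 0, 0, 0, 0, 0, 1],
    !![0, 1, 0, 2, 0; 0, 0, 0, 3, 1; 0, 0, 1, 0, 2; 0, 3, 2, 0, 2; 1, 0, 1, 0, 1; 0, 1, 0, 2, 0], by decide +kernel, by decide +kernel⟩

theorem m_1_5_3_1_s23 : El
    ⟨6, !![0, 1, 0, 2, 0, 0; 0, 0, 0, 3, 0, 1; 0, 0, 1, 0, 1, 2; 0, 3, 2, 0, 2, 2; 1, 0, 1, 0, 1, 1; 0, 1, 0, 2, 0, 0]⟩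
    ⟨5, !![0, 1, 0, 2, 0; 1, 0, 0, 3, 0; 2, 0, 1, 0, 1; 2, 3, 2, 0, 2; 2, 0, 1, 0, 1]⟩ :=
  ⟨!![1, 0, 0, 0, 0; 0, 1, 0, 0, 0; 0, 0, 1, 0, 0; 0, 0, 0, 1, 0; 0, 0, 0, 0, 1; 1, 0, 0, 0, 0],
    !![0, 1, 0, 2, 0, 0; 0, 0, 0, 3, 0, 1; 0, 0, 1, 0, 1, 2; 0, 3, 2, 0, 2, 2; 1, 0, 1, 0, 1, 1], by decide +kernel, by decide +kernel⟩

theorem m_1_5_3_1_s24 : El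
    ⟨5, !![0, 1, 0, 2, 0; 1, 0, 0, 3, 0; 2, 0, 1, 0, 1; 2, 3, 2, 0, 2; 2, 0, 1, 0, 1]⟩
    ⟨4, !![0, 1, 0, 2; 1, 0, 0, 3; 2, 0, 2, 0; 2, 3, 4, 0]⟩ :=
  ⟨!![1, 0, 0, 0; 0, 1, 0, 0; 0, 0, 1, 0; 0, 0, 0, 1; 0, 0, 1, 0],
    !![0, 1, 0, 2, 0; 1, 0, 0, 3, 0; 2, 0, 1, 0, 1; 2, 3, 2, 0, 2], by decide +kernel, by decide +kernel⟩

theorem m_1_5_3_1_s25 : El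
    ⟨4, !![0, 1, 0, 2; 1, 0, 0, 3; 2, 0, 2, 0; 2, 3, 4, 0]⟩
    ⟨5, !![0, 1, 0, 2, 0; 1, 0, 0, 3, 0; 1, 0, 1, 0, 1; 2, 3, 4, 0, 4; 1, 0, 1, 0, 1]⟩ :=
  ⟨!![1, 0, 0, 0, 0; 0, 1, 0, 0, 0; 0, 0, 1, 0, 1; 0, 0, 0, 1, 0],
    !![0, 1, 0, 2; 1, 0, 0, 3; 1, 0, 1, 0; 2, 3, 4, 0; 1, 0, 1, 0], by decide +kernel, by decide +kernel⟩

theorem m_1_5_3_1_s26 : El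
    ⟨5, !![0, 1, 0, 2, 0; 1, 0, 0, 3, 0; 1, 0, 1, 0, 1; 2, 3, 4, 0, 4; 1, 0, 1, 0, 1]⟩
    ⟨4, !![0, 1, 0, 2; 1, 0, 0, 3; 1, 0, 2, 0; 2, 3, 8, 0]⟩ :=
  ⟨!![1, 0, 0, 0; 0, 1, 0, 0; 0, 0, 1, 0; 0, 0, 0, 1; 0, 0, 1, 0],
    !![0, 1, 0, 2, 0; 1, 0, 0, 3, 0; 1, 0, 1, 0, 1; 2, 3, 4, 0, 4], by decide +kernel, by decide +kernel⟩

theorem m_1_5_3_1_s27 : El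
    ⟨4, !![0, 1, 0, 2; 1, 0, 0, 3; 1, 0, 2, 0; 2, 3, 8, 0]⟩
    ⟨4, !![0, 1, 2, 2; 1, 0, 3, 3; 1, 0, 2, 0; 1, 3, 6, 0]⟩ :=
  ⟨!![1, 0, 0, 0; 0, 1, 0, 0; 0, 0, 1, 0; 0, 0, 1, 1],
    !![0, 1, 0, 2; 1, 0, 0, 3; 1, 0, 2, 0; 1, 3, 6, 0], by decide +kernel, by decide +kernel⟩

theorem m_1_5_3_1_s28 : El
    ⟨4, !![0, 1, 2, 2; 1, 0, 3, 3; 1, 0, 2, 0; 1, 3, 6, 0]⟩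
    ⟨4, !![1, 1, 3, 2; 1, 0, 2, 3; 1, 0, 1, 0; 1, 3, 5, 0]⟩ :=
  ⟨!![0, 1, 2, 2; 1, 0, 2, 3; 1, 0, 1, 0; 1, 3, 5, 0],
    !![1, 0, 1, 0; 0, 1, 0, 0; 0, 0, 1, 0; 0, 0, 0, 1], by decide +kernel, by decide +kernel⟩

theorem m_1_5_3_1_s29 : El
    ⟨4, !![1, 1, 3, 2; 1, 0, 2, 3; 1, 0, 1, 0; 1, 3, 5, 0]⟩
    ⟨4, !![1, 1, 2, 2; 2, 0, 3, 3; 1, 0, 1, 0; 1, 3, 2, 0]⟩ :=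
  ⟨!![1, 1, 2, 2; 1, 0, 2, 3; 1, 0, 1, 0; 1, 3, 2, 0],
    !![1, 0, 0, 0; 0, 1, 1, 0; 0, 0, 1, 0; 0, 0, 0, 1], by decide +kernel, by decide +kernel⟩

theorem m_1_5_3_1_s30 : El
    ⟨4, !![1, 1, 2, 2; 2, 0, 3, 3; 1, 0, 1, 0; 1, 3, 2, 0]⟩
    ⟨4, !![1, 1, 0, 2; 2, 0, 0, 3; 1, 0, 1, 0; 2, 3, 3, 0]⟩ :=
  ⟨!![1, 1, 0, 2; 2, 0, 0, 3; 1, 0, 1, 0; 1, 3, 2, 0],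
    !![1, 0, 0, 0; 0, 1, 0, 0; 0, 0, 1, 0; 0, 0, 1, 1], by decide +kernel, by decide +kernel⟩

theorem m_1_5_3_1_s31 : El
    ⟨4, !![1, 1, 0, 2; 2, 0, 0, 3; 1, 0, 1, 0; 2, 3, 3, 0]⟩
    ⟨5, !![1, 1, 0, 0, 2; 2, 0, 0, 0, 3; 1, 0, 1, 0, 0; 2, 0, 0, 0, 3; 2, 0, 3, 3, 0]⟩ :=
  ⟨!![1, 1, 0, 0, 2; 2, 0, 0, 0, 3; 1, 0, 1, 0, 0; 2, 0, 3, 3, 0],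
    !![1, 0, 0, 0; 0, 1, 0, 0; 0, 0, 1, 0; 0, 1, 0, 0; 0, 0, 0, 1], by decide +kernel, by decide +kernel⟩

theorem m_1_5_3_1_s32 : El
    ⟨5, !![1, 1, 0, 0, 2; 2, 0, 0, 0, 3; 1, 0, 1, 0, 0; 2, 0, 0, 0, 3; 2, 0, 3, 3, 0]⟩
    ⟨6, !![1, 1, 0, 0, 1, 2; 1, 0, 0, 0, 0, 2; 1, 0, 1, 0, 0, 0; 2, 0, 0, 0, 0, 3; 1, 0, 0, 0, 0, 1; 2, 0, 3, 3, 0, 0]⟩ :=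
  ⟨!![1, 0, 0, 0, 0, 0; 0, 1, 0, 0, 1, 0; 0, 0, 1, 0, 0, 0; 0, 0, 0, 1, 0, 0; 0, 0, 0, 0, 0, 1],
    !![1, 1, 0, 0, 2; 1, 0, 0, 0, 2; 1, 0, 1, 0, 0; 2, 0, 0, 0, 3; 1, 0, 0, 0, 1; 2, 0, 3, 3, 0], by decide +kernel, by decide +kernel⟩

theorem m_1_5_3_1_s33 : El
    ⟨6, !![1, 1, 0, 0, 1, 2; 1, 0, 0, 0, 0, 2; 1, 0, 1, 0, 0, 0; 2, 0, 0, 0, 0, 3; 1, 0, 0, 0, 0, 1; 2, 0, 3, 3, 0, 0]⟩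
    ⟨6, !![1, 1, 0, 0, 2, 2; 0, 0, 0, 0, 0, 1; 1, 0, 1, 0, 0, 0; 2, 0, 0, 0, 0, 3; 1, 0, 0, 0, 0, 1; 2, 0, 3, 3, 0, 0]⟩ :=
  ⟨!![1, 0, 0, 0, 0, 0; 0, 1, 0, 0, 1, 0; 0, 0, 1, 0, 0, 0; 0, 0, 0, 1, 0, 0; 0, 0, 0, 0, 1, 0; 0, 0, 0, 0, 0, 1],
    !![1, 1, 0, 0, 1, 2; 0, 0, 0, 0, 0, 1; 1, 0, 1, 0, 0, 0; 2, 0, 0, 0, 0, 3; 1, 0, 0, 0, 0, 1; 2, 0, 3, 3, 0, 0], by decide +kernel, by decide +kernel⟩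

theorem m_1_5_3_1_s34 : El
    ⟨6, !![1, 1, 0, 0, 2, 2; 0, 0, 0, 0, 0, 1; 1, 0, 1, 0, 0, 0; 2, 0, 0, 0, 0, 3; 1, 0, 0, 0, 0, 1; 2, 0, 3, 3, 0, 0]⟩
    ⟨6, !![1, 1, 0, 0, 2, 2; 0, 0, 0, 0, 0, 1; 1, 0, 1, 0, 0, 0; 3, 0, 1, 0, 0, 3; 1, 0, 0, 0, 0, 1; 2, 0, 0, 3, 0, 0]⟩ :=
  ⟨!![1, 1, 0, 0, 2, 2; 0, 0, 0, 0, 0, 1; 1, 0, 1, 0, 0, 0; 2, 0, 0, 0, 0, 3; 1, 0, 0, 0, 0, 1; 2, 0, 0, 3, 0, 0],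
    !![1, 0, 0, 0, 0, 0; 0, 1, 0, 0, 0, 0; 0, 0, 1, 0, 0, 0; 0, 0, 1, 1, 0, 0; 0, 0, 0, 0, 1, 0; 0, 0, 0, 0, 0, 1], by decide +kernel, by decide +kernel⟩

theorem m_1_5_3_1_s35 : El
    ⟨6, !![1, 1, 0, 0, 2, 2; 0, 0, 0, 0, 0, 1; 1, 0, 1, 0, 0, 0; 3, 0, 1, 0, 0, 3; 1, 0, 0, 0, 0, 1; 2, 0, 0, 3, 0, 0]⟩
    ⟨6, !![1, 1, 0, 0, 2, 1; 2, 0, 0, 3, 0, 1; 1, 0, 1, 0, 0, 0; 3, 0, 1, 0, 0, 3; 1, 0, 0, 0, 0, 1; 2, 0, 0, 3, 0, 0]⟩ :=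
  ⟨!![1, 1, 0, 0, 2, 1; 0, 0, 0, 0, 0, 1; 1, 0, 1, 0, 0, 0; 3, 0, 1, 0, 0, 3; 1, 0, 0, 0, 0, 1; 2, 0, 0, 3, 0, 0],
    !![1, 0, 0, 0, 0, 0; 0, 1, 0, 0, 0, 1; 0, 0, 1, 0, 0, 0; 0, 0, 0, 1, 0, 0; 0, 0, 0, 0, 1, 0; 0, 0, 0, 0, 0, 1], by decide +kernel, by decide +kernel⟩

theorem m_1_5_3_1_s36 : El
    ⟨6, !![1, 1, 0, 0, 2, 1; 2, 0, 0, 3, 0, 1; 1, 0, 1, 0, 0, 0; 3, 0, 1, 0, 0, 3; 1, 0, 0, 0, 0, 1; 2, 0, 0, 3, 0, 0]⟩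
    ⟨6, !![1, 1, 0, 0, 3, 1; 1, 0, 0, 3, 0, 0; 1, 0, 1, 0, 0, 0; 3, 0, 1, 0, 0, 3; 1, 0, 0, 0, 0, 1; 2, 0, 0, 3, 0, 0]⟩ :=
  ⟨!![1, 0, 0, 0, 0, 0; 0, 1, 0, 0, 1, 0; 0, 0, 1, 0, 0, 0; 0, 0, 0, 1, 0, 0; 0, 0, 0, 0, 1, 0; 0, 0, 0, 0, 0, 1],
    !![1, 1, 0, 0, 2, 1; 1, 0, 0, 3, 0, 0; 1, 0, 1, 0, 0, 0; 3, 0, 1, 0, 0, 3; 1, 0, 0, 0, 0, 1; 2, 0, 0, 3, 0, 0], by decide +kernel, by decide +kernel⟩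

theorem m_1_5_3_1_s37 : El
    ⟨6, !![1, 1, 0, 0, 3, 1; 1, 0, 0, 3, 0, 0; 1, 0, 1, 0, 0, 0; 3, 0, 1, 0, 0, 3; 1, 0, 0, 0, 0, 1; 2, 0, 0, 3, 0, 0]⟩
    ⟨6, !![1, 2, 0, 0, 3, 1; 1, 0, 0, 3, 0, 0; 1, 0, 1, 0, 0, 0; 3, 3, 1, 0, 0, 3; 1, 1, 0, 0, 0, 1; 1, 0, 0, 0, 0, 0]⟩ :=
  ⟨!![1, 0, 0, 0, 0, 0; 0, 1, 0, 0, 0, 0; 0, 0, 1, 0, 0, 0; 0, 0, 0, 1, 0, 0; 0, 0, 0, 0, 1, 0; 0, 1, 0, 0, 0, 1],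
    !![1, 1, 0, 0, 3, 1; 1, 0, 0, 3, 0, 0; 1, 0, 1, 0, 0, 0; 3, 0, 1, 0, 0, 3; 1, 0, 0, 0, 0, 1; 1, 0, 0, 0, 0, 0], by decide +kernel, by decide +kernel⟩

theorem m_1_5_3_1_s38 : El
    ⟨6, !![1, 2, 0, 0, 3, 1; 1, 0, 0, 3, 0, 0; 1, 0, 1, 0, 0, 0; 3, 3, 1, 0, 0, 3; 1, 1, 0, 0, 0, 1; 1, 0, 0, 0, 0, 0]⟩
    ⟨6, !![1, 2, 0, 0, 3, 1; 1, 0, 0, 3, 3, 0; 1, 0, 1, 0, 0, 0; 2, 2, 1, 0, 0, 2; 1, 1, 0, 0, 0, 1; 1, 0, 0, 0, 0, 0]⟩ :=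
  ⟨!![1, 0, 0, 0, 0, 0; 0, 1, 0, 0, 0, 0; 0, 0, 1, 0, 0, 0; 0, 0, 0, 1, 1, 0; 0, 0, 0, 0, 1, 0; 0, 0, 0, 0, 0, 1],
    !![1, 2, 0, 0, 3, 1; 1, 0, 0, 3, 0, 0; 1, 0, 1, 0, 0, 0; 2, 2, 1, 0, 0, 2; 1, 1, 0, 0, 0, 1; 1, 0, 0, 0, 0, 0], by decide +kernel, by decide +kernel⟩

theorem m_1_5_3_1_s39 : El
    ⟨6, !![1, 2, 0, 0, 3, 1; 1, 0, 0, 3, 3, 0; 1, 0, 1, 0, 0, 0; 2, 2, 1, 0, 0, 2; 1, 1, 0, 0, 0, 1; 1, 0, 0, 0, 0, 0]⟩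
    ⟨6, !![1, 2, 0, 0, 3, 1; 1, 0, 0, 3, 6, 0; 1, 0, 1, 0, 0, 0; 1, 1, 1, 0, 0, 1; 1, 1, 0, 0, 0, 1; 1, 0, 0, 0, 0, 0]⟩ :=
  ⟨!![1, 0, 0, 0, 0, 0; 0, 1, 0, 0, 0, 0; 0, 0, 1, 0, 0, 0; 0, 0, 0, 1, 1, 0; 0, 0, 0, 0, 1, 0; 0, 0, 0, 0, 0, 1],
    !![1, 2, 0, 0, 3, 1; 1, 0, 0, 3, 3, 0; 1, 0, 1, 0, 0, 0; 1, 1, 1, 0, 0, 1; 1, 1, 0, 0, 0, 1; 1, 0, 0, 0, 0, 0], by decide +kernel, by decide +kernel⟩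

theorem m_1_5_3_1_s40 : El
    ⟨6, !![1, 2, 0, 0, 3, 1; 1, 0, 0, 3, 6, 0; 1, 0, 1, 0, 0, 0; 1, 1, 1, 0, 0, 1; 1, 1, 0, 0, 0, 1; 1, 0, 0, 0, 0, 0]⟩
    ⟨6, !![1, 2, 0, 0, 3, 1; 1, 0, 0, 3, 9, 0; 1, 0, 1, 0, 0, 0; 0, 0, 1, 0, 0, 0; 1, 1, 0, 0, 0, 1; 1, 0, 0, 0, 0, 0]⟩ :=
  ⟨!![1, 0, 0, 0, 0, 0; 0, 1, 0, 0, 0, 0; 0, 0, 1, 0, 0, 0; 0, 0, 0, 1, 1, 0; 0, 0, 0, 0, 1, 0; 0, 0, 0, 0, 0, 1],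
    !![1, 2, 0, 0, 3, 1; 1, 0, 0, 3, 6, 0; 1, 0, 1, 0, 0, 0; 0, 0, 1, 0, 0, 0; 1, 1, 0, 0, 0, 1; 1, 0, 0, 0, 0, 0], by decide +kernel, by decide +kernel⟩

theorem m_1_5_3_1_s41 : El
    ⟨6, !![1, 2, 0, 0, 3, 1; 1, 0, 0, 3, 9, 0; 1, 0, 1, 0, 0, 0; 0, 0, 1, 0, 0, 0; 1, 1, 0, 0, 0, 1; 1, 0, 0, 0, 0, 0]⟩
    ⟨6, !![1, 2, 0, 0, 3, 1; 1, 0, 0, 3, 9, 0; 1, 0, 0, 0, 0, 0; 0, 0, 1, 1, 0, 0; 1, 1, 0, 0, 0, 1; 1, 0, 0, 0, 0, 0]⟩ :=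
  ⟨!![1, 0, 0, 0, 0, 0; 0, 1, 0, 0, 0, 0; 0, 0, 1, 1, 0, 0; 0, 0, 0, 1, 0, 0; 0, 0, 0, 0, 1, 0; 0, 0, 0, 0, 0, 1],
    !![1, 2, 0, 0, 3, 1; 1, 0, 0, 3, 9, 0; 1, 0, 0, 0, 0, 0; 0, 0, 1, 0, 0, 0; 1, 1, 0, 0, 0, 1; 1, 0, 0, 0, 0, 0], by decide +kernel, by decide +kernel⟩

theorem m_1_5_3_1_s42 : El
    ⟨6, !![1, 2, 0, 0, 3, 1; 1, 0, 0, 3, 9, 0; 1, 0, 0, 0, 0, 0; 0, 0, 1, 1, 0, 0; 1, 1, 0, 0, 0, 1; 1, 0, 0, 0, 0, 0]⟩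
    ⟨5, !![1, 2, 1, 0, 3; 1, 0, 0, 3, 9; 1, 0, 0, 0, 0; 0, 0, 1, 1, 0; 1, 1, 1, 0, 0]⟩ :=
  ⟨!![1, 0, 0, 0, 0; 0, 1, 0, 0, 0; 0, 0, 1, 0, 0; 0, 0, 0, 1, 0; 0, 0, 0, 0, 1; 0, 0, 1, 0, 0],
    !![1, 2, 0, 0, 3, 1; 1, 0, 0, 3, 9, 0; 1, 0, 0, 0, 0, 0; 0, 0, 1, 1, 0, 0; 1, 1, 0, 0, 0, 1], by decide +kernel, by decide +kernel⟩

theorem m_1_5_3_1_s43 : El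
    ⟨5, !![1, 2, 1, 0, 3; 1, 0, 0, 3, 9; 1, 0, 0, 0, 0; 0, 0, 1, 1, 0; 1, 1, 1, 0, 0]⟩
    ⟨5, !![0, 1, 0, 0, 3; 1, 0, 0, 3, 10; 1, 0, 0, 0, 1; 0, 0, 1, 1, 0; 1, 1, 1, 0, 1]⟩ :=
  ⟨!![1, 0, 0, 0, 1; 0, 1, 0, 0, 0; 0, 0, 1, 0, 0; 0, 0, 0, 1, 0; 0, 0, 0, 0, 1],
    !![0, 1, 0, 0, 3; 1, 0, 0, 3, 9; 1, 0, 0, 0, 0; 0, 0, 1, 1, 0; 1, 1, 1, 0, 0], by decide +kernel, by decide +kernel⟩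

theorem m_1_5_3_1_s44 : El
    ⟨5, !![0, 1, 0, 0, 3; 1, 0, 0, 3, 10; 1, 0, 0, 0, 1; 0, 0, 1, 1, 0; 1, 1, 1, 0, 1]⟩
    ⟨5, !![0, 1, 0, 0, 2; 2, 1, 1, 3, 10; 1, 0, 0, 0, 1; 0, 0, 1, 1, 0; 1, 1, 1, 0, 0]⟩ :=
  ⟨!![0, 1, 0, 0, 2; 1, 0, 0, 3, 10; 1, 0, 0, 0, 1; 0, 0, 1, 1, 0; 1, 1, 1, 0, 0],
    !![1, 0, 0, 0, 0; 0, 1, 0, 0, 1; 0, 0, 1, 0, 0; 0, 0, 0, 1, 0; 0, 0, 0, 0, 1], by decide +kernel, by decide +kernel⟩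

theorem m_1_5_3_1_s45 : El
    ⟨5, !![0, 1, 0, 0, 2; 2, 1, 1, 3, 10; 1, 0, 0, 0, 1; 0, 0, 1, 1, 0; 1, 1, 1, 0, 0]⟩
    ⟨5, !![1, 1, 0, 0, 2; 2, 0, 1, 3, 8; 1, 0, 0, 0, 1; 0, 0, 1, 1, 0; 2, 1, 1, 0, 0]⟩ :=
  ⟨!![1, 0, 0, 0, 0; 1, 1, 0, 0, 0; 0, 0, 1, 0, 0; 0, 0, 0, 1, 0; 0, 0, 0, 0, 1],
    !![0, 1, 0, 0, 2; 2, 0, 1, 3, 8; 1, 0, 0, 0, 1; 0, 0, 1, 1, 0; 1, 1, 1, 0, 0], by decide +kernel, by decide +kernel⟩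

theorem m_1_5_3_1_s46 : El
    ⟨5, !![1, 1, 0, 0, 2; 2, 0, 1, 3, 8; 1, 0, 0, 0, 1; 0, 0, 1, 1, 0; 2, 1, 1, 0, 0]⟩
    ⟨5, !![1, 1, 0, 1, 2; 2, 0, 0, 2, 8; 1, 0, 0, 0, 1; 0, 0, 1, 1, 0; 2, 1, 1, 1, 0]⟩ :=
  ⟨!![1, 0, 0, 0, 0; 0, 1, 0, 1, 0; 0, 0, 1, 0, 0; 0, 0, 0, 1, 0; 0, 0, 0, 0, 1],
    !![1, 1, 0, 0, 2; 2, 0, 0, 2, 8; 1, 0, 0, 0, 1; 0, 0, 1, 1, 0; 2, 1, 1, 0, 0], by decide +kernel, by decide +kernel⟩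

theorem m_1_5_3_1_s47 : El
    ⟨5, !![1, 1, 0, 1, 2; 2, 0, 0, 2, 8; 1, 0, 0, 0, 1; 0, 0, 1, 1, 0; 2, 1, 1, 1, 0]⟩
    ⟨5, !![1, 1, 0, 1, 2; 2, 0, 0, 2, 8; 1, 0, 1, 0, 1; 0, 0, 1, 0, 0; 2, 1, 1, 0, 0]⟩ :=
  ⟨!![1, 1, 0, 1, 2; 2, 0, 0, 2, 8; 1, 0, 0, 0, 1; 0, 0, 1, 0, 0; 2, 1, 1, 0, 0],
    !![1, 0, 0, 0, 0; 0, 1, 0, 0, 0; 0, 0, 1, 1, 0; 0, 0, 0, 1, 0; 0, 0, 0, 0, 1], by decide +kernel, by decide +kernel⟩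

theorem m_1_5_3_1_s48 : El
    ⟨5, !![1, 1, 0, 1, 2; 2, 0, 0, 2, 8; 1, 0, 1, 0, 1; 0, 0, 1, 0, 0; 2, 1, 1, 0, 0]⟩
    ⟨6, !![1, 1, 0, 1, 2, 1; 1, 0, 0, 1, 4, 0; 1, 0, 1, 0, 1, 0; 0, 0, 1, 0, 0, 0; 2, 1, 1, 0, 0, 1; 1, 0, 0, 1, 4, 0]⟩ :=
  ⟨!![1, 0, 0, 0, 0, 0; 0, 1, 0, 0, 0, 1; 0, 0, 1, 0, 0, 0; 0, 0, 0, 1, 0, 0; 0, 0, 0, 0, 1, 0],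
    !![1, 1, 0, 1, 2; 1, 0, 0, 1, 4; 1, 0, 1, 0, 1; 0, 0, 1, 0, 0; 2, 1, 1, 0, 0; 1, 0, 0, 1, 4], by decide +kernel, by decide +kernel⟩

theorem m_1_5_3_1_s49 : El
    ⟨6, !![1, 1, 0, 1, 2, 1; 1, 0, 0, 1, 4, 0; 1, 0, 1, 0, 1, 0; 0, 0, 1, 0, 0, 0; 2, 1, 1, 0, 0, 1; 1, 0, 0, 1, 4, 0]⟩
    ⟨5, !![1, 2, 0, 1, 2; 1, 0, 0, 1, 4; 1, 0, 1, 0, 1; 0, 0, 1, 0, 0; 2, 2, 1, 0, 0]⟩ :=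
  ⟨!![1, 0, 0, 0, 0; 0, 1, 0, 0, 0; 0, 0, 1, 0, 0; 0, 0, 0, 1, 0; 0, 0, 0, 0, 1; 0, 1, 0, 0, 0],
    !![1, 1, 0, 1, 2, 1; 1, 0, 0, 1, 4, 0; 1, 0, 1, 0, 1, 0; 0, 0, 1, 0, 0, 0; 2, 1, 1, 0, 0, 1], by decide +kernel, by decide +kernel⟩

theorem m_1_5_3_1_s50 : El
    ⟨5, !![1, 2, 0, 1, 2; 1, 0, 0, 1, 4; 1, 0, 1, 0, 1; 0, 0, 1, 0, 0; 2, 2, 1, 0, 0]⟩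
    ⟨5, !![1, 2, 0, 1, 2; 1, 0, 0, 1, 4; 1, 0, 0, 0, 1; 0, 0, 1, 1, 0; 2, 2, 1, 1, 0]⟩ :=
  ⟨!![1, 0, 0, 0, 0; 0, 1, 0, 0, 0; 0, 0, 1, 1, 0; 0, 0, 0, 1, 0; 0, 0, 0, 0, 1],
    !![1, 2, 0, 1, 2; 1, 0, 0, 1, 4; 1, 0, 0, 0, 1; 0, 0, 1, 0, 0; 2, 2, 1, 0, 0], by decide +kernel, by decide +kernel⟩

theorem m_1_5_3_1_s51 : El
    ⟨5, !![1, 2, 0, 1, 2; 1, 0, 0, 1, 4; 1, 0, 0, 0, 1; 0, 0, 1, 1, 0; 2, 2, 1, 1, 0]⟩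
    ⟨5, !![1, 2, 2, 1, 2; 0, 0, 0, 1, 3; 1, 0, 0, 0, 1; 0, 0, 1, 1, 0; 2, 2, 3, 1, 0]⟩ :=
  ⟨!![1, 0, 0, 0, 0; 0, 1, 1, 0, 0; 0, 0, 1, 0, 0; 0, 0, 0, 1, 0; 0, 0, 0, 0, 1],
    !![1, 2, 0, 1, 2; 0, 0, 0, 1, 3; 1, 0, 0, 0, 1; 0, 0, 1, 1, 0; 2, 2, 1, 1, 0], by decide +kernel, by decide +kernel⟩

theorem m_1_5_3_1_s52 : El
    ⟨5, !![1, 2, 2, 1, 2; 0, 0, 0, 1, 3; 1, 0, 0, 0, 1; 0, 0, 1, 1, 0; 2, 2, 3, 1, 0]⟩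
    ⟨5, !![1, 2, 1, 1, 2; 0, 0, 0, 1, 3; 1, 0, 0, 1, 1; 0, 0, 1, 1, 0; 2, 2, 3, 3, 0]⟩ :=
  ⟨!![1, 0, 0, 1, 0; 0, 1, 0, 0, 0; 0, 0, 1, 0, 0; 0, 0, 0, 1, 0; 0, 0, 0, 0, 1],
    !![1, 2, 1, 0, 2; 0, 0, 0, 1, 3; 1, 0, 0, 0, 1; 0, 0, 1, 1, 0; 2, 2, 3, 1, 0], by decide +kernel, by decide +kernel⟩

theorem m_1_5_3_1_s53 : El
    ⟨5, !![1, 2, 1, 1, 2; 0, 0, 0, 1, 3; 1, 0, 0, 1, 1; 0, 0, 1, 1, 0; 2, 2, 3, 3, 0]⟩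
    ⟨5, !![1, 2, 1, 0, 2; 0, 0, 0, 1, 3; 1, 0, 1, 1, 1; 0, 0, 1, 0, 0; 2, 2, 3, 0, 0]⟩ :=
  ⟨!![1, 2, 1, 0, 2; 0, 0, 0, 1, 3; 1, 0, 0, 1, 1; 0, 0, 1, 0, 0; 2, 2, 3, 0, 0],
    !![1, 0, 0, 0, 0; 0, 1, 0, 0, 0; 0, 0, 1, 1, 0; 0, 0, 0, 1, 0; 0, 0, 0, 0, 1], by decide +kernel, by decide +kernel⟩

theorem m_1_5_3_1_s54 : El
    ⟨5, !![1, 2, 1, 0, 2; 0, 0, 0, 1, 3; 1, 0, 1, 1, 1; 0, 0, 1, 0, 0; 2, 2, 3, 0, 0]⟩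
    ⟨5, !![2, 2, 0, 1, 3; 0, 0, 0, 1, 3; 1, 0, 0, 1, 1; 0, 0, 1, 0, 0; 2, 2, 1, 0, 0]⟩ :=
  ⟨!![1, 2, 0, 0, 2; 0, 0, 0, 1, 3; 1, 0, 0, 1, 1; 0, 0, 1, 0, 0; 2, 2, 1, 0, 0],
    !![1, 0, 1, 0, 0; 0, 1, 0, 0, 0; 0, 0, 1, 0, 0; 0, 0, 0, 1, 0; 0, 0, 0, 0, 1], by decide +kernel, by decide +kernel⟩

theorem m_1_5_3_1_s55 : El
    ⟨5, !![2, 2, 0, 1, 3; 0, 0, 0, 1, 3; 1, 0, 0, 1, 1; 0, 0, 1, 0, 0; 2, 2, 1, 0, 0]⟩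
    ⟨6, !![1, 1, 0, 0, 0, 1; 0, 0, 0, 1, 3, 0; 1, 0, 0, 1, 1, 1; 0, 0, 1, 0, 0, 0; 2, 2, 1, 0, 0, 2; 1, 1, 0, 1, 3, 1]⟩ :=
  ⟨!![1, 0, 0, 0, 0, 1; 0, 1, 0, 0, 0, 0; 0, 0, 1, 0, 0, 0; 0, 0, 0, 1, 0, 0; 0, 0, 0, 0, 1, 0],
    !![1, 1, 0, 0, 0; 0, 0, 0, 1, 3; 1, 0, 0, 1, 1; 0, 0, 1, 0, 0; 2, 2, 1, 0, 0; 1, 1, 0, 1, 3], by decide +kernel, by decide +kernel⟩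

theorem m_1_5_3_1_s56 : El
    ⟨6, !![1, 1, 0, 0, 0, 1; 0, 0, 0, 1, 3, 0; 1, 0, 0, 1, 1, 1; 0, 0, 1, 0, 0, 0; 2, 2, 1, 0, 0, 2; 1, 1, 0, 1, 3, 1]⟩
    ⟨6, !![0, 1, 0, 0, 0, 1; 0, 1, 0, 1, 3, 1; 1, 0, 0, 1, 1, 1; 0, 0, 1, 0, 0, 0; 0, 2, 1, 0, 0, 2; 0, 1, 0, 1, 3, 1]⟩ :=
  ⟨!![0, 1, 0, 0, 0, 1; 0, 0, 0, 1, 3, 0; 1, 0, 0, 1, 1, 1; 0, 0, 1, 0, 0, 0; 0, 2, 1, 0, 0, 2; 0, 1, 0, 1, 3, 1],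
    !![1, 0, 0, 0, 0, 0; 1, 1, 0, 0, 0, 0; 0, 0, 1, 0, 0, 0; 0, 0, 0, 1, 0, 0; 0, 0, 0, 0, 1, 0; 0, 0, 0, 0, 0, 1], by decide +kernel, by decide +kernel⟩

theorem m_1_5_3_1_s57 : El
    ⟨6, !![0, 1, 0, 0, 0, 1; 0, 1, 0, 1, 3, 1; 1, 0, 0, 1, 1, 1; 0, 0, 1, 0, 0, 0; 0, 2, 1, 0, 0, 2; 0, 1, 0, 1, 3, 1]⟩
    ⟨5, !![0, 2, 0, 0, 0; 0, 2, 0, 1, 3; 1, 1, 0, 1, 1; 0, 0, 1, 0, 0; 0, 4, 1, 0, 0]⟩ :=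
  ⟨!![1, 0, 0, 0, 0; 0, 1, 0, 0, 0; 0, 0, 1, 0, 0; 0, 0, 0, 1, 0; 0, 0, 0, 0, 1; 0, 1, 0, 0, 0],
    !![0, 1, 0, 0, 0, 1; 0, 1, 0, 1, 3, 1; 1, 0, 0, 1, 1, 1; 0, 0, 1, 0, 0, 0; 0, 2, 1, 0, 0, 2], by decide +kernel, by decide +kernel⟩

theorem m_1_5_3_1_s58 : El
    ⟨5, !![0, 2, 0, 0, 0; 0, 2, 0, 1, 3; 1, 1, 0, 1, 1; 0, 0, 1, 0, 0; 0, 4, 1, 0, 0]⟩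
    ⟨5, !![0, 2, 0, 0, 0; 3, 2, 0, 1, 3; 2, 1, 0, 1, 1; 0, 0, 1, 0, 0; 0, 2, 1, 0, 0]⟩ :=
  ⟨!![1, 0, 0, 0, 0; 0, 1, 0, 0, 0; 0, 0, 1, 0, 0; 0, 0, 0, 1, 0; 1, 0, 0, 0, 1],
    !![0, 2, 0, 0, 0; 0, 2, 0, 1, 3; 1, 1, 0, 1, 1; 0, 0, 1, 0, 0; 0, 2, 1, 0, 0], by decide +kernel, by decide +kernel⟩

theorem m_1_5_3_1_s59 : El
    ⟨5, !![0, 2, 0, 0, 0; 3, 2, 0, 1, 3; 2, 1, 0, 1, 1; 0, 0, 1, 0, 0; 0, 2, 1, 0, 0]⟩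
    ⟨5, !![0, 2, 0, 0, 0; 2, 2, 0, 1, 3; 1, 1, 0, 1, 1; 0, 2, 1, 0, 0; 0, 2, 1, 0, 0]⟩ :=
  ⟨!![0, 2, 0, 0, 0; 2, 2, 0, 1, 3; 1, 1, 0, 1, 1; 0, 0, 1, 0, 0; 0, 2, 1, 0, 0],
    !![1, 0, 0, 0, 0; 0, 1, 0, 0, 0; 0, 0, 1, 0, 0; 1, 0, 0, 1, 0; 0, 0, 0, 0, 1], by decide +kernel, by decide +kernel⟩

theorem m_1_5_3_1_s60 : El
    ⟨5, !![0, 2, 0, 0, 0; 2, 2, 0, 1, 3; 1, 1, 0, 1, 1; 0, 2, 1, 0, 0; 0, 2, 1, 0, 0]⟩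
    ⟨6, !![0, 1, 0, 0, 0, 0; 2, 2, 0, 1, 2, 3; 1, 1, 0, 1, 1, 1; 0, 2, 1, 0, 0, 0; 0, 1, 0, 0, 0, 0; 0, 2, 1, 0, 0, 0]⟩ :=
  ⟨!![1, 0, 0, 0, 1, 0; 0, 1, 0, 0, 0, 0; 0, 0, 1, 0, 0, 0; 0, 0, 0, 1, 0, 0; 0, 0, 0, 0, 0, 1],
    !![0, 1, 0, 0, 0; 2, 2, 0, 1, 3; 1, 1, 0, 1, 1; 0, 2, 1, 0, 0; 0, 1, 0, 0, 0; 0, 2, 1, 0, 0], by decide +kernel, by decide +kernel⟩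

theorem m_1_5_3_1_s61 : El
    ⟨6, !![0, 1, 0, 0, 0, 0; 2, 2, 0, 1, 2, 3; 1, 1, 0, 1, 1, 1; 0, 2, 1, 0, 0, 0; 0, 1, 0, 0, 0, 0; 0, 2, 1, 0, 0, 0]⟩
    ⟨5, !![0, 1, 0, 0, 0; 2, 2, 0, 4, 2; 1, 1, 0, 2, 1; 0, 2, 1, 0, 0; 0, 1, 0, 0, 0]⟩ :=
  ⟨!![1, 0, 0, 0, 0; 0, 1, 0, 0, 0; 0, 0, 1, 0, 0; 0, 0, 0, 1, 0; 0, 0, 0, 0, 1; 0, 0, 0, 1, 0],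
    !![0, 1, 0, 0, 0, 0; 2, 2, 0, 1, 2, 3; 1, 1, 0, 1, 1, 1; 0, 2, 1, 0, 0, 0; 0, 1, 0, 0, 0, 0], by decide +kernel, by decide +kernel⟩

theorem m_1_5_3_1_s62 : El
    ⟨5, !![0, 1, 0, 0, 0; 2, 2, 0, 4, 2; 1, 1, 0, 2, 1; 0, 2, 1, 0, 0; 0, 1, 0, 0, 0]⟩
    ⟨4, !![0, 1, 0, 0; 4, 2, 0, 4; 2, 1, 0, 2; 0, 2, 1, 0]⟩ :=
  ⟨!![1, 0, 0, 0; 0, 1, 0, 0; 0, 0, 1, 0; 0, 0, 0, 1; 1, 0, 0, 0],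
    !![0, 1, 0, 0, 0; 2, 2, 0, 4, 2; 1, 1, 0, 2, 1; 0, 2, 1, 0, 0], by decide +kernel, by decide +kernel⟩

theorem m_1_5_3_1_s63 : El
    ⟨4, !![0, 1, 0, 0; 4, 2, 0, 4; 2, 1, 0, 2; 0, 2, 1, 0]⟩
    ⟨3, !![0, 3, 1; 4, 2, 0; 2, 1, 0]⟩ :=
  ⟨!![0, 1, 0; 4, 2, 0; 2, 1, 0; 0, 2, 1],
    !![1, 0, 0, 1; 0, 1, 0, 0; 0, 0, 1, 0], by decide +kernel, by decide +kernel⟩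

theorem m_1_5_3_1_s64 : El
    ⟨3, !![0, 3, 1; 4, 2, 0; 2, 1, 0]⟩
    ⟨3, !![0, 3, 4; 2, 1, 1; 2, 1, 1]⟩ :=
  ⟨!![1, 0, 0; 0, 1, 1; 0, 0, 1],
    !![0, 3, 1; 2, 1, 0; 2, 1, 0], by decide +kernel, by decide +kernel⟩

theorem m_1_5_3_1_s65 : El
    ⟨3, !![0, 3, 4; 2, 1, 1; 2, 1, 1]⟩
    ⟨2, !![0, 7; 2, 2]⟩ :=
  ⟨!![1, 0; 0, 1; 0, 1],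
    !![0, 3, 4; 2, 1, 1], by decide +kernel, by decide +kernel⟩

theorem m_1_5_3_1_s66 : El
    ⟨2, !![0, 7; 2, 2]⟩
    ⟨2, !![2, 2; 7, 0]⟩ :=
  ⟨!![7, 0; 2, 2],
    !![0, 1; 1, 0], by decide +kernel, by decide +kernel⟩

theorem m_1_5_3_1_s67 : El
    ⟨2, !![2, 2; 7, 0]⟩
    ⟨2, !![2, 14; 1, 0]⟩ :=
  ⟨!![1, 0; 0, 7],
    !![2, 2; 1, 0], by decide +kernel, by decide +kernel⟩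

theorem m_1_5_3_1 : Ch ⟨2, !![1, 5; 3, 1]⟩ ⟨2, !![2, 14; 1, 0]⟩ :=
  Relation.TransGen.single m_1_5_3_1_s1
    |>.tail m_1_5_3_1_s2
    |>.tail m_1_5_3_1_s3
    |>.tail m_1_5_3_1_s4
    |>.tail m_1_5_3_1_s5
    |>.tail m_1_5_3_1_s6
    |>.tail m_1_5_3_1_s7
    |>.tail m_1_5_3_1_s8
    |>.tail m_1_5_3_1_s9
    |>.tail m_1_5_3_1_s10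
    |>.tail m_1_5_3_1_s11
    |>.tail m_1_5_3_1_s12
    |>.tail m_1_5_3_1_s13
    |>.tail m_1_5_3_1_s14
    |>.tail m_1_5_3_1_s15
    |>.tail m_1_5_3_1_s16
    |>.tail m_1_5_3_1_s17
    |>.tail m_1_5_3_1_s18
    |>.tail m_1_5_3_1_s19
    |>.tail m_1_5_3_1_s20
    |>.tail m_1_5_3_1_s21
    |>.tail m_1_5_3_1_s22
    |>.tail m_1_5_3_1_s23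
    |>.tail m_1_5_3_1_s24
    |>.tail m_1_5_3_1_s25
    |>.tail m_1_5_3_1_s26
    |>.tail m_1_5_3_1_s27
    |>.tail m_1_5_3_1_s28
    |>.tail m_1_5_3_1_s29
    |>.tail m_1_5_3_1_s30
    |>.tail m_1_5_3_1_s31
    |>.tail m_1_5_3_1_s32
    |>.tail m_1_5_3_1_s33
    |>.tail m_1_5_3_1_s34
    |>.tail m_1_5_3_1_s35
    |>.tail m_1_5_3_1_s36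
    |>.tail m_1_5_3_1_s37
    |>.tail m_1_5_3_1_s38
    |>.tail m_1_5_3_1_s39
    |>.tail m_1_5_3_1_s40
    |>.tail m_1_5_3_1_s41
    |>.tail m_1_5_3_1_s42
    |>.tail m_1_5_3_1_s43
    |>.tail m_1_5_3_1_s44
    |>.tail m_1_5_3_1_s45
    |>.tail m_1_5_3_1_s46
    |>.tail m_1_5_3_1_s47
    |>.tail m_1_5_3_1_s48
    |>.tail m_1_5_3_1_s49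
    |>.tail m_1_5_3_1_s50
    |>.tail m_1_5_3_1_s51
    |>.tail m_1_5_3_1_s52
    |>.tail m_1_5_3_1_s53
    |>.tail m_1_5_3_1_s54
    |>.tail m_1_5_3_1_s55
    |>.tail m_1_5_3_1_s56
    |>.tail m_1_5_3_1_s57
    |>.tail m_1_5_3_1_s58
    |>.tail m_1_5_3_1_s59
    |>.tail m_1_5_3_1_s60
    |>.tail m_1_5_3_1_s61
    |>.tail m_1_5_3_1_s62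
    |>.tail m_1_5_3_1_s63
    |>.tail m_1_5_3_1_s64
    |>.tail m_1_5_3_1_s65
    |>.tail m_1_5_3_1_s66
    |>.tail m_1_5_3_1_s67

end Pool.Agent.U783.SSE.C4
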