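import Pool.Agent.U783.SSE.C1
import Pool.Agent.U783.SSE.C2
import Pool.Agent.U783.SSE.C3
import Pool.Agent.U783.SSE.C4
import Pool.Agent.U783.SSE.C5
import Pool.Agent.U783.SSE.C6
import Pool.Agent.U783.SSE.C7
import Pool.Agent.U783.SSE.C8
import Pool.Agent.U783.SSE.C9
import Pool.Agent.U783.SSE.C10
import Pool.Agent.U783.SSE.C11
import Pool.Agent.U783.SSE.C12

/-!
# Classes of `2 × 2` matrices over `ℕ` with negative determinant and spectral radius below 6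
-/

set_option autoImplicit false

namespace Pool.Agent.U783.SSE

open Matrix

/-- The matrix with rows `(a, b)` and `(c, e)`. -/
def K (r : ℕ × ℕ × ℕ × ℕ) : Matrix (Fin 2) (Fin 2) ℕ := !![r.1, r.2.1; r.2.2.1, r.2.2.2]

/-- Representatives of the classes other than the principal ones. -/
def rp : List (ℕ × ℕ × ℕ × ℕ) :=
  [(1, 2, 2, 1),
    (1, 2, 4, 1),
    (1, 3, 3, 1),
    (1, 2, 6, 1),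
    (1, 2, 8, 1),
    (1, 4, 4, 1),
    (1, 3, 6, 1),
    (1, 2, 10, 1),
    (1, 2, 2, 3),
    (1, 2, 4, 3),
    (2, 3, 3, 2),
    (1, 2, 6, 3),
    (2, 3, 5, 2),
    (1, 3, 3, 4)]

/-- The matrices with positive diagonal and off-diagonal entries at least two. -/
def tbl : List (ℕ × ℕ × ℕ × ℕ) :=
  [(1, 2, 2, 1),
    (1, 2, 3, 1),
    (1, 2, 4, 1),
    (1, 2, 5, 1),
    (1, 2, 6, 1),
    (1, 2, 7, 1),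
    (1, 2, 8, 1),
    (1, 2, 9, 1),
    (1, 2, 10, 1),
    (1, 2, 11, 1),
    (1, 3, 2, 1),
    (1, 3, 3, 1),
    (1, 3, 4, 1),
    (1, 3, 5, 1),
    (1, 3, 6, 1),
    (1, 3, 7, 1),
    (1, 4, 2, 1),
    (1, 4, 3, 1),
    (1, 4, 4, 1),
    (1, 4, 5, 1),
    (1, 5, 2, 1),
    (1, 5, 3, 1),
    (1, 5, 4, 1),
    (1, 6, 2, 1),
    (1, 6, 3, 1),
    (1, 7, 2, 1),
    (1, 7, 3, 1),
    (1, 8, 2, 1),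
    (1, 9, 2, 1),
    (1, 10, 2, 1),
    (1, 11, 2, 1),
    (1, 2, 2, 2),
    (1, 2, 3, 2),
    (1, 2, 4, 2),
    (1, 2, 5, 2),
    (1, 2, 6, 2),
    (1, 2, 7, 2),
    (1, 2, 8, 2),
    (1, 2, 9, 2),
    (1, 3, 2, 2),
    (1, 3, 3, 2),
    (1, 3, 4, 2),
    (1, 3, 5, 2),
    (1, 3, 6, 2),
    (1, 4, 2, 2),
    (1, 4, 3, 2),
    (1, 4, 4, 2),
    (1, 5, 2, 2),
    (1, 5, 3, 2),
    (1, 6, 2, 2),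
    (1, 6, 3, 2),
    (1, 7, 2, 2),
    (1, 8, 2, 2),
    (1, 9, 2, 2),
    (1, 2, 2, 3),
    (1, 2, 3, 3),
    (1, 2, 4, 3),
    (1, 2, 5, 3),
    (1, 2, 6, 3),
    (1, 2, 7, 3),
    (1, 3, 2, 3),
    (1, 3, 3, 3),
    (1, 3, 4, 3),
    (1, 4, 2, 3),
    (1, 4, 3, 3),
    (1, 5, 2, 3),
    (1, 6, 2, 3),
    (1, 7, 2, 3),
    (1, 2, 3, 4),
    (1, 2, 4, 4),
    (1, 3, 2, 4),
    (1, 3, 3, 4),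
    (1, 4, 2, 4),
    (2, 2, 2, 1),
    (2, 2, 3, 1),
    (2, 2, 4, 1),
    (2, 2, 5, 1),
    (2, 2, 6, 1),
    (2, 2, 7, 1),
    (2, 2, 8, 1),
    (2, 2, 9, 1),
    (2, 3, 2, 1),
    (2, 3, 3, 1),
    (2, 3, 4, 1),
    (2, 3, 5, 1),
    (2, 3, 6, 1),
    (2, 4, 2, 1),
    (2, 4, 3, 1),
    (2, 4, 4, 1),
    (2, 5, 2, 1),
    (2, 5, 3, 1),
    (2, 6, 2, 1),
    (2, 6, 3, 1),
    (2, 7, 2, 1),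
    (2, 8, 2, 1),
    (2, 9, 2, 1),
    (2, 2, 3, 2),
    (2, 2, 4, 2),
    (2, 2, 5, 2),
    (2, 2, 6, 2),
    (2, 2, 7, 2),
    (2, 3, 2, 2),
    (2, 3, 3, 2),
    (2, 3, 4, 2),
    (2, 3, 5, 2),
    (2, 4, 2, 2),
    (2, 4, 3, 2),
    (2, 5, 2, 2),
    (2, 5, 3, 2),
    (2, 6, 2, 2),
    (2, 7, 2, 2),
    (2, 2, 4, 3),
    (2, 2, 5, 3),
    (2, 3, 3, 3),
    (2, 4, 2, 3),
    (2, 5, 2, 3),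
    (3, 2, 2, 1),
    (3, 2, 3, 1),
    (3, 2, 4, 1),
    (3, 2, 5, 1),
    (3, 2, 6, 1),
    (3, 2, 7, 1),
    (3, 3, 2, 1),
    (3, 3, 3, 1),
    (3, 3, 4, 1),
    (3, 4, 2, 1),
    (3, 4, 3, 1),
    (3, 5, 2, 1),
    (3, 6, 2, 1),
    (3, 7, 2, 1),
    (3, 2, 4, 2),
    (3, 2, 5, 2),
    (3, 3, 3, 2),
    (3, 4, 2, 2),
    (3, 5, 2, 2),
    (4, 2, 3, 1),
    (4, 2, 4, 1),
    (4, 3, 2, 1),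
    (4, 3, 3, 1),
    (4, 4, 2, 1)]

/-- The class of a matrix. -/
def G (r : ℕ × ℕ × ℕ × ℕ) : Prop :=
  Ch ⟨2, K r⟩ ⟨2, !![r.1 + r.2.2.2, r.2.1 * r.2.2.1 - r.1 * r.2.2.2; 1, 0]⟩ ∨
    ∃ s ∈ rp, Ch ⟨2, K r⟩ ⟨2, K s⟩

lemma g_1_2_2_1 : G (1, 2, 2, 1) :=
  Or.inr ⟨(1, 2, 2, 1), by decide, C10.m_1_2_2_1⟩

lemma g_1_2_3_1 : G (1, 2, 3, 1) :=
  Or.inl ((ch_swap 1 2 3 1).trans C9.m_1_3_2_1)

lemma g_1_2_4_1 : G (1, 2, 4, 1) :=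
  Or.inr ⟨(1, 2, 4, 1), by decide, (ch_swap 1 2 4 1).trans C10.m_1_4_2_1⟩

lemma g_1_2_5_1 : G (1, 2, 5, 1) :=
  Or.inl ((ch_swap 1 2 5 1).trans C12.m_1_5_2_1)

lemma g_1_2_6_1 : G (1, 2, 6, 1) :=
  Or.inr ⟨(1, 2, 6, 1), by decide, (ch_swap 1 2 6 1).trans C12.m_1_6_2_1⟩

lemma g_1_2_7_1 : G (1, 2, 7, 1) :=
  Or.inl ((ch_swap 1 2 7 1).trans C3.m_1_7_2_1)

lemma g_1_2_8_1 : G (1, 2, 8, 1) :=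
  Or.inr ⟨(1, 2, 8, 1), by decide, (ch_swap 1 2 8 1).trans C11.m_1_8_2_1⟩

lemma g_1_2_9_1 : G (1, 2, 9, 1) :=
  Or.inl ((ch_swap 1 2 9 1).trans C1.m_1_9_2_1)

lemma g_1_2_10_1 : G (1, 2, 10, 1) :=
  Or.inr ⟨(1, 2, 10, 1), by decide, (ch_swap 1 2 10 1).trans C8.m_1_10_2_1⟩

lemma g_1_2_11_1 : G (1, 2, 11, 1) :=
  Or.inl ((ch_swap 1 2 11 1).trans C6.m_1_11_2_1)

lemma g_1_3_2_1 : G (1, 3, 2, 1) :=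
  Or.inl (C9.m_1_3_2_1)

lemma g_1_3_3_1 : G (1, 3, 3, 1) :=
  Or.inr ⟨(1, 3, 3, 1), by decide, C12.m_1_3_3_1⟩

lemma g_1_3_4_1 : G (1, 3, 4, 1) :=
  Or.inl ((ch_swap 1 3 4 1).trans C7.m_1_4_3_1)

lemma g_1_3_5_1 : G (1, 3, 5, 1) :=
  Or.inl ((ch_swap 1 3 5 1).trans C4.m_1_5_3_1)

lemma g_1_3_6_1 : G (1, 3, 6, 1) :=
  Or.inr ⟨(1, 3, 6, 1), by decide, (ch_swap 1 3 6 1).trans C9.m_1_6_3_1⟩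

lemma g_1_3_7_1 : G (1, 3, 7, 1) :=
  Or.inl ((ch_swap 1 3 7 1).trans C5.m_1_7_3_1)

lemma g_1_4_2_1 : G (1, 4, 2, 1) :=
  Or.inr ⟨(1, 2, 4, 1), by decide, C10.m_1_4_2_1⟩

lemma g_1_4_3_1 : G (1, 4, 3, 1) :=
  Or.inl (C7.m_1_4_3_1)

lemma g_1_4_4_1 : G (1, 4, 4, 1) :=
  Or.inr ⟨(1, 4, 4, 1), by decide, C11.m_1_4_4_1⟩

lemma g_1_4_5_1 : G (1, 4, 5, 1) :=
  Or.inl ((ch_swap 1 4 5 1).trans C2.m_1_5_4_1)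

lemma g_1_5_2_1 : G (1, 5, 2, 1) :=
  Or.inl (C12.m_1_5_2_1)

lemma g_1_5_3_1 : G (1, 5, 3, 1) :=
  Or.inl (C4.m_1_5_3_1)

lemma g_1_5_4_1 : G (1, 5, 4, 1) :=
  Or.inl (C2.m_1_5_4_1)

lemma g_1_6_2_1 : G (1, 6, 2, 1) :=
  Or.inr ⟨(1, 2, 6, 1), by decide, C12.m_1_6_2_1⟩

lemma g_1_6_3_1 : G (1, 6, 3, 1) :=
  Or.inr ⟨(1, 3, 6, 1), by decide, C9.m_1_6_3_1⟩

lemma g_1_7_2_1 : G (1, 7, 2, 1) :=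
  Or.inl (C3.m_1_7_2_1)

lemma g_1_7_3_1 : G (1, 7, 3, 1) :=
  Or.inl (C5.m_1_7_3_1)

lemma g_1_8_2_1 : G (1, 8, 2, 1) :=
  Or.inr ⟨(1, 2, 8, 1), by decide, C11.m_1_8_2_1⟩

lemma g_1_9_2_1 : G (1, 9, 2, 1) :=
  Or.inl (C1.m_1_9_2_1)

lemma g_1_10_2_1 : G (1, 10, 2, 1) :=
  Or.inr ⟨(1, 2, 10, 1), by decide, C8.m_1_10_2_1⟩

lemma g_1_11_2_1 : G (1, 11, 2, 1) :=
  Or.inl (C6.m_1_11_2_1)

lemma g_1_2_2_2 : G (1, 2, 2, 2) :=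
  Or.inl ((ch_swap 1 2 2 2).trans C10.m_2_2_2_1)

lemma g_1_2_3_2 : G (1, 2, 3, 2) :=
  Or.inl ((ch_swap 1 2 3 2).trans C11.m_2_3_2_1)

lemma g_1_2_4_2 : G (1, 2, 4, 2) :=
  Or.inl ((ch_swap 1 2 4 2).trans C9.m_2_4_2_1)

lemma g_1_2_5_2 : G (1, 2, 5, 2) :=
  Or.inl ((ch_swap 1 2 5 2).trans C8.m_2_5_2_1)

lemma g_1_2_6_2 : G (1, 2, 6, 2) :=
  Or.inl ((ch_swap 1 2 6 2).trans C10.m_2_6_2_1)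

lemma g_1_2_7_2 : G (1, 2, 7, 2) :=
  Or.inl ((ch_swap 1 2 7 2).trans C12.m_2_7_2_1)

lemma g_1_2_8_2 : G (1, 2, 8, 2) :=
  Or.inl ((ch_swap 1 2 8 2).trans C11.m_2_8_2_1)

lemma g_1_2_9_2 : G (1, 2, 9, 2) :=
  Or.inl ((ch_swap 1 2 9 2).trans C9.m_2_9_2_1)

lemma g_1_3_2_2 : G (1, 3, 2, 2) :=
  Or.inl ((ch_swap 1 3 2 2).trans C12.m_2_2_3_1)

lemma g_1_3_3_2 : G (1, 3, 3, 2) :=
  Or.inl ((ch_swap 1 3 3 2).trans C8.m_2_3_3_1)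

lemma g_1_3_4_2 : G (1, 3, 4, 2) :=
  Or.inl ((ch_swap 1 3 4 2).trans C9.m_2_4_3_1)

lemma g_1_3_5_2 : G (1, 3, 5, 2) :=
  Or.inl ((ch_swap 1 3 5 2).trans C10.m_2_5_3_1)

lemma g_1_3_6_2 : G (1, 3, 6, 2) :=
  Or.inl ((ch_swap 1 3 6 2).trans C9.m_2_6_3_1)

lemma g_1_4_2_2 : G (1, 4, 2, 2) :=
  Or.inl ((ch_swap 1 4 2 2).trans C10.m_2_2_4_1)

lemma g_1_4_3_2 : G (1, 4, 3, 2) :=
  Or.inl ((ch_swap 1 4 3 2).trans C10.m_2_3_4_1)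

lemma g_1_4_4_2 : G (1, 4, 4, 2) :=
  Or.inl ((ch_swap 1 4 4 2).trans C12.m_2_4_4_1)

lemma g_1_5_2_2 : G (1, 5, 2, 2) :=
  Or.inl ((ch_swap 1 5 2 2).trans C9.m_2_2_5_1)

lemma g_1_5_3_2 : G (1, 5, 3, 2) :=
  Or.inl ((ch_swap 1 5 3 2).trans C11.m_2_3_5_1)

lemma g_1_6_2_2 : G (1, 6, 2, 2) :=
  Or.inl ((ch_swap 1 6 2 2).trans C12.m_2_2_6_1)

lemma g_1_6_3_2 : G (1, 6, 3, 2) :=
  Or.inl ((ch_swap 1 6 3 2).trans C8.m_2_3_6_1)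

lemma g_1_7_2_2 : G (1, 7, 2, 2) :=
  Or.inl ((ch_swap 1 7 2 2).trans C9.m_2_2_7_1)

lemma g_1_8_2_2 : G (1, 8, 2, 2) :=
  Or.inl ((ch_swap 1 8 2 2).trans C8.m_2_2_8_1)

lemma g_1_9_2_2 : G (1, 9, 2, 2) :=
  Or.inl ((ch_swap 1 9 2 2).trans C10.m_2_2_9_1)

lemma g_1_2_2_3 : G (1, 2, 2, 3) :=
  Or.inr ⟨(1, 2, 2, 3), by decide, (ch_swap 1 2 2 3).trans C11.m_3_2_2_1⟩

lemma g_1_2_3_3 : G (1, 2, 3, 3) :=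
  Or.inl ((ch_swap 1 2 3 3).trans C12.m_3_3_2_1)

lemma g_1_2_4_3 : G (1, 2, 4, 3) :=
  Or.inr ⟨(1, 2, 4, 3), by decide, (ch_swap 1 2 4 3).trans C8.m_3_4_2_1⟩

lemma g_1_2_5_3 : G (1, 2, 5, 3) :=
  Or.inl ((ch_swap 1 2 5 3).trans C8.m_3_5_2_1)

lemma g_1_2_6_3 : G (1, 2, 6, 3) :=
  Or.inr ⟨(1, 2, 6, 3), by decide, (ch_swap 1 2 6 3).trans C12.m_3_6_2_1⟩

lemma g_1_2_7_3 : G (1, 2, 7, 3) :=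
  Or.inr ⟨(2, 3, 5, 2), by decide, (ch_swap 1 2 7 3).trans C11.m_3_7_2_1⟩

lemma g_1_3_2_3 : G (1, 3, 2, 3) :=
  Or.inl ((ch_swap 1 3 2 3).trans C10.m_3_2_3_1)

lemma g_1_3_3_3 : G (1, 3, 3, 3) :=
  Or.inl ((ch_swap 1 3 3 3).trans C9.m_3_3_3_1)

lemma g_1_3_4_3 : G (1, 3, 4, 3) :=
  Or.inl ((ch_swap 1 3 4 3).trans C12.m_3_4_3_1)

lemma g_1_4_2_3 : G (1, 4, 2, 3) :=
  Or.inr ⟨(1, 2, 4, 3), by decide, (ch_swap 1 4 2 3).trans C9.m_3_2_4_1⟩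

lemma g_1_4_3_3 : G (1, 4, 3, 3) :=
  Or.inl ((ch_swap 1 4 3 3).trans C8.m_3_3_4_1)

lemma g_1_5_2_3 : G (1, 5, 2, 3) :=
  Or.inl ((ch_swap 1 5 2 3).trans C10.m_3_2_5_1)

lemma g_1_6_2_3 : G (1, 6, 2, 3) :=
  Or.inr ⟨(1, 2, 6, 3), by decide, (ch_swap 1 6 2 3).trans C10.m_3_2_6_1⟩

lemma g_1_7_2_3 : G (1, 7, 2, 3) :=
  Or.inr ⟨(2, 3, 5, 2), by decide, (ch_swap 1 7 2 3).trans C12.m_3_2_7_1⟩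

lemma g_1_2_3_4 : G (1, 2, 3, 4) :=
  Or.inl ((ch_swap 1 2 3 4).trans C9.m_4_3_2_1)

lemma g_1_2_4_4 : G (1, 2, 4, 4) :=
  Or.inl ((ch_swap 1 2 4 4).trans C11.m_4_4_2_1)

lemma g_1_3_2_4 : G (1, 3, 2, 4) :=
  Or.inl ((ch_swap 1 3 2 4).trans C12.m_4_2_3_1)

lemma g_1_3_3_4 : G (1, 3, 3, 4) :=
  Or.inr ⟨(1, 3, 3, 4), by decide, (ch_swap 1 3 3 4).trans C8.m_4_3_3_1⟩

lemma g_1_4_2_4 : G (1, 4, 2, 4) :=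
  Or.inl ((ch_swap 1 4 2 4).trans C12.m_4_2_4_1)

lemma g_2_2_2_1 : G (2, 2, 2, 1) :=
  Or.inl (C10.m_2_2_2_1)

lemma g_2_2_3_1 : G (2, 2, 3, 1) :=
  Or.inl (C12.m_2_2_3_1)

lemma g_2_2_4_1 : G (2, 2, 4, 1) :=
  Or.inl (C10.m_2_2_4_1)

lemma g_2_2_5_1 : G (2, 2, 5, 1) :=
  Or.inl (C9.m_2_2_5_1)

lemma g_2_2_6_1 : G (2, 2, 6, 1) :=
  Or.inl (C12.m_2_2_6_1)

lemma g_2_2_7_1 : G (2, 2, 7, 1) :=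
  Or.inl (C9.m_2_2_7_1)

lemma g_2_2_8_1 : G (2, 2, 8, 1) :=
  Or.inl (C8.m_2_2_8_1)

lemma g_2_2_9_1 : G (2, 2, 9, 1) :=
  Or.inl (C10.m_2_2_9_1)

lemma g_2_3_2_1 : G (2, 3, 2, 1) :=
  Or.inl (C11.m_2_3_2_1)

lemma g_2_3_3_1 : G (2, 3, 3, 1) :=
  Or.inl (C8.m_2_3_3_1)

lemma g_2_3_4_1 : G (2, 3, 4, 1) :=
  Or.inl (C10.m_2_3_4_1)

lemma g_2_3_5_1 : G (2, 3, 5, 1) :=
  Or.inl (C11.m_2_3_5_1)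

lemma g_2_3_6_1 : G (2, 3, 6, 1) :=
  Or.inl (C8.m_2_3_6_1)

lemma g_2_4_2_1 : G (2, 4, 2, 1) :=
  Or.inl (C9.m_2_4_2_1)

lemma g_2_4_3_1 : G (2, 4, 3, 1) :=
  Or.inl (C9.m_2_4_3_1)

lemma g_2_4_4_1 : G (2, 4, 4, 1) :=
  Or.inl (C12.m_2_4_4_1)

lemma g_2_5_2_1 : G (2, 5, 2, 1) :=
  Or.inl (C8.m_2_5_2_1)

lemma g_2_5_3_1 : G (2, 5, 3, 1) :=
  Or.inl (C10.m_2_5_3_1)

lemma g_2_6_2_1 : G (2, 6, 2, 1) :=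
  Or.inl (C10.m_2_6_2_1)

lemma g_2_6_3_1 : G (2, 6, 3, 1) :=
  Or.inl (C9.m_2_6_3_1)

lemma g_2_7_2_1 : G (2, 7, 2, 1) :=
  Or.inl (C12.m_2_7_2_1)

lemma g_2_8_2_1 : G (2, 8, 2, 1) :=
  Or.inl (C11.m_2_8_2_1)

lemma g_2_9_2_1 : G (2, 9, 2, 1) :=
  Or.inl (C9.m_2_9_2_1)

lemma g_2_2_3_2 : G (2, 2, 3, 2) :=
  Or.inl ((ch_swap 2 2 3 2).trans C8.m_2_3_2_2)

lemma g_2_2_4_2 : G (2, 2, 4, 2) :=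
  Or.inl ((ch_swap 2 2 4 2).trans C11.m_2_4_2_2)

lemma g_2_2_5_2 : G (2, 2, 5, 2) :=
  Or.inl ((ch_swap 2 2 5 2).trans C8.m_2_5_2_2)

lemma g_2_2_6_2 : G (2, 2, 6, 2) :=
  Or.inl ((ch_swap 2 2 6 2).trans C10.m_2_6_2_2)

lemma g_2_2_7_2 : G (2, 2, 7, 2) :=
  Or.inl ((ch_swap 2 2 7 2).trans C11.m_2_7_2_2)

lemma g_2_3_2_2 : G (2, 3, 2, 2) :=
  Or.inl (C8.m_2_3_2_2)

lemma g_2_3_3_2 : G (2, 3, 3, 2) :=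
  Or.inr ⟨(2, 3, 3, 2), by decide, C9.m_2_3_3_2⟩

lemma g_2_3_4_2 : G (2, 3, 4, 2) :=
  Or.inl ((ch_swap 2 3 4 2).trans C9.m_2_4_3_2)

lemma g_2_3_5_2 : G (2, 3, 5, 2) :=
  Or.inr ⟨(2, 3, 5, 2), by decide, (ch_swap 2 3 5 2).trans C11.m_2_5_3_2⟩

lemma g_2_4_2_2 : G (2, 4, 2, 2) :=
  Or.inl (C11.m_2_4_2_2)

lemma g_2_4_3_2 : G (2, 4, 3, 2) :=
  Or.inl (C9.m_2_4_3_2)

lemma g_2_5_2_2 : G (2, 5, 2, 2) :=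
  Or.inl (C8.m_2_5_2_2)

lemma g_2_5_3_2 : G (2, 5, 3, 2) :=
  Or.inr ⟨(2, 3, 5, 2), by decide, C11.m_2_5_3_2⟩

lemma g_2_6_2_2 : G (2, 6, 2, 2) :=
  Or.inl (C10.m_2_6_2_2)

lemma g_2_7_2_2 : G (2, 7, 2, 2) :=
  Or.inl (C11.m_2_7_2_2)

lemma g_2_2_4_3 : G (2, 2, 4, 3) :=
  Or.inl ((ch_swap 2 2 4 3).trans C8.m_3_4_2_2)

lemma g_2_2_5_3 : G (2, 2, 5, 3) :=
  Or.inl ((ch_swap 2 2 5 3).trans C8.m_3_5_2_2)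

lemma g_2_3_3_3 : G (2, 3, 3, 3) :=
  Or.inl ((ch_swap 2 3 3 3).trans C10.m_3_3_3_2)

lemma g_2_4_2_3 : G (2, 4, 2, 3) :=
  Or.inl ((ch_swap 2 4 2 3).trans C9.m_3_2_4_2)

lemma g_2_5_2_3 : G (2, 5, 2, 3) :=
  Or.inl ((ch_swap 2 5 2 3).trans C9.m_3_2_5_2)

lemma g_3_2_2_1 : G (3, 2, 2, 1) :=
  Or.inr ⟨(1, 2, 2, 3), by decide, C11.m_3_2_2_1⟩

lemma g_3_2_3_1 : G (3, 2, 3, 1) :=
  Or.inl (C10.m_3_2_3_1)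

lemma g_3_2_4_1 : G (3, 2, 4, 1) :=
  Or.inr ⟨(1, 2, 4, 3), by decide, C9.m_3_2_4_1⟩

lemma g_3_2_5_1 : G (3, 2, 5, 1) :=
  Or.inl (C10.m_3_2_5_1)

lemma g_3_2_6_1 : G (3, 2, 6, 1) :=
  Or.inr ⟨(1, 2, 6, 3), by decide, C10.m_3_2_6_1⟩

lemma g_3_2_7_1 : G (3, 2, 7, 1) :=
  Or.inr ⟨(2, 3, 5, 2), by decide, C12.m_3_2_7_1⟩

lemma g_3_3_2_1 : G (3, 3, 2, 1) :=
  Or.inl (C12.m_3_3_2_1)

lemma g_3_3_3_1 : G (3, 3, 3, 1) :=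
  Or.inl (C9.m_3_3_3_1)

lemma g_3_3_4_1 : G (3, 3, 4, 1) :=
  Or.inl (C8.m_3_3_4_1)

lemma g_3_4_2_1 : G (3, 4, 2, 1) :=
  Or.inr ⟨(1, 2, 4, 3), by decide, C8.m_3_4_2_1⟩

lemma g_3_4_3_1 : G (3, 4, 3, 1) :=
  Or.inl (C12.m_3_4_3_1)

lemma g_3_5_2_1 : G (3, 5, 2, 1) :=
  Or.inl (C8.m_3_5_2_1)

lemma g_3_6_2_1 : G (3, 6, 2, 1) :=
  Or.inr ⟨(1, 2, 6, 3), by decide, C12.m_3_6_2_1⟩

lemma g_3_7_2_1 : G (3, 7, 2, 1) :=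
  Or.inr ⟨(2, 3, 5, 2), by decide, C11.m_3_7_2_1⟩

lemma g_3_2_4_2 : G (3, 2, 4, 2) :=
  Or.inl (C9.m_3_2_4_2)

lemma g_3_2_5_2 : G (3, 2, 5, 2) :=
  Or.inl (C9.m_3_2_5_2)

lemma g_3_3_3_2 : G (3, 3, 3, 2) :=
  Or.inl (C10.m_3_3_3_2)

lemma g_3_4_2_2 : G (3, 4, 2, 2) :=
  Or.inl (C8.m_3_4_2_2)

lemma g_3_5_2_2 : G (3, 5, 2, 2) :=
  Or.inl (C8.m_3_5_2_2)

lemma g_4_2_3_1 : G (4, 2, 3, 1) :=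
  Or.inl (C12.m_4_2_3_1)

lemma g_4_2_4_1 : G (4, 2, 4, 1) :=
  Or.inl (C12.m_4_2_4_1)

lemma g_4_3_2_1 : G (4, 3, 2, 1) :=
  Or.inl (C9.m_4_3_2_1)

lemma g_4_3_3_1 : G (4, 3, 3, 1) :=
  Or.inr ⟨(1, 3, 3, 4), by decide, C8.m_4_3_3_1⟩

lemma g_4_4_2_1 : G (4, 4, 2, 1) :=
  Or.inl (C11.m_4_4_2_1)

lemma tbl_G : ∀ r ∈ tbl, G r := by
  intro r hr
  simp only [tbl, List.mem_cons, List.not_mem_nil, or_false] at hr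
  rcases hr with rfl | rfl | rfl | rfl | rfl | rfl | rfl | rfl | rfl | rfl | rfl | rfl | rfl | rfl | rfl | rfl | rfl | rfl | rfl | rfl | rfl | rfl | rfl | rfl | rfl | rfl | rfl | rfl | rfl | rfl | rfl | rfl | rfl | rfl | rfl | rfl | rfl | rfl | rfl | rfl | rfl | rfl | rfl | rfl | rfl | rfl | rfl | rfl | rfl | rfl | rfl | rfl | rfl | rfl | rfl | rfl | rfl | rfl | rfl | rfl | rfl | rfl | rfl | rfl | rfl | rfl | rfl | rfl | rfl | rfl | rfl | rfl | rfl | rfl | rfl | rfl | rfl | rfl | rfl | rfl | rfl | rfl | rfl | rfl | rfl | rfl | rfl | rfl | rfl | rfl | rfl | rfl | rfl | rfl | rfl | rfl | rfl | rfl | rfl | rfl | rfl | rfl | rfl | rfl | rfl | rfl | rfl | rfl | rfl | rfl | rfl | rfl | rfl | rfl | rfl | rfl | rfl | rfl | rfl | rfl | rfl | rfl | rfl | rfl | rfl | rfl | rfl | rfl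 | rfl | rfl | rfl | rfl | rfl | rfl | rfl | rfl | rfl | rfl | rfl | rfl
  exacts [g_1_2_2_1, g_1_2_3_1, g_1_2_4_1, g_1_2_5_1, g_1_2_6_1, g_1_2_7_1, g_1_2_8_1, g_1_2_9_1, g_1_2_10_1, g_1_2_11_1, g_1_3_2_1, g_1_3_3_1, g_1_3_4_1, g_1_3_5_1, g_1_3_6_1, g_1_3_7_1, g_1_4_2_1, g_1_4_3_1, g_1_4_4_1, g_1_4_5_1, g_1_5_2_1, g_1_5_3_1, g_1_5_4_1, g_1_6_2_1, g_1_6_3_1, g_1_7_2_1, g_1_7_3_1, g_1_8_2_1, g_1_9_2_1, g_1_10_2_1, g_1_11_2_1, g_1_2_2_2, g_1_2_3_2, g_1_2_4_2, g_1_2_5_2, g_1_2_6_2, g_1_2_7_2, g_1_2_8_2, g_1_2_9_2, g_1_3_2_2, g_1_3_3_2, g_1_3_4_2, g_1_3_5_2, g_1_3_6_2, g_1_4_2_2, g_1_4_3_2, g_1_4_4_2, g_1_5_2_2, g_1_5_3_2, g_1_6_2_2, g_1_6_3_2, g_1_7_2_2, g_1_8_2_2, g_1_9_2_2, g_1_2_2_3, g_1_2_3_3, g_1_2_4_3, g_1_2_5_3, g_1_2_6_3, g_1_2_7_3, g_1_3_2_3, g_1_3_3_3, g_1_3_4_3, g_1_4_2_3,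 g_1_4_3_3, g_1_5_2_3, g_1_6_2_3, g_1_7_2_3, g_1_2_3_4, g_1_2_4_4, g_1_3_2_4, g_1_3_3_4, g_1_4_2_4, g_2_2_2_1, g_2_2_3_1, g_2_2_4_1, g_2_2_5_1, g_2_2_6_1, g_2_2_7_1, g_2_2_8_1, g_2_2_9_1, g_2_3_2_1, g_2_3_3_1, g_2_3_4_1, g_2_3_5_1, g_2_3_6_1, g_2_4_2_1, g_2_4_3_1, g_2_4_4_1, g_2_5_2_1, g_2_5_3_1, g_2_6_2_1, g_2_6_3_1, g_2_7_2_1, g_2_8_2_1, g_2_9_2_1, g_2_2_3_2, g_2_2_4_2, g_2_2_5_2, g_2_2_6_2, g_2_2_7_2, g_2_3_2_2, g_2_3_3_2, g_2_3_4_2, g_2_3_5_2, g_2_4_2_2, g_2_4_3_2, g_2_5_2_2, g_2_5_3_2, g_2_6_2_2, g_2_7_2_2, g_2_2_4_3, g_2_2_5_3, g_2_3_3_3, g_2_4_2_3, g_2_5_2_3, g_3_2_2_1, g_3_2_3_1, g_3_2_4_1, g_3_2_5_1, g_3_2_6_1, g_3_2_7_1, g_3_3_2_1, g_3_3_3_1, g_3_3_4_1, g_3_4_2_1, g_3_4_3_1, g_3_5_2_1, g_3_6_2_1, g_3_7_2_1, g_3_2_4_2, g_3_2_5_2, g_3_3_3_2, g_3_4_2_2, g_3_5_2_2,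 g_4_2_3_1, g_4_2_4_1, g_4_3_2_1, g_4_3_3_1, g_4_4_2_1]

/-- The conditions, as a Boolean test. -/
def bad (a e b c : ℕ) : Bool :=
  decide (1 ≤ a) && decide (1 ≤ e) && decide (2 ≤ b) && decide (2 ≤ c) &&
    decide (a * e < b * c) && decide (6 * (a + e) + (b * c - a * e) < 36) &&
    !(decide (a + e = 2) && decide (b * c - a * e = 23)) && !(tbl.contains (a, b, c, e))

lemma tbl_dec : ∀ a : Fin 6, ∀ e : Fin 6, ∀ b : Fin 16, ∀ c : Fin 16,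
    bad a e b c = false := by
  decide +kernel

lemma tbl_mem (a : ℕ) (ha : a < 6) (e : ℕ) (he : e < 6) (b : ℕ) (hb : b < 16) (c : ℕ)
    (hc : c < 16) (h1 : 1 ≤ a) (h2 : 1 ≤ e) (h3 : 2 ≤ b) (h4 : 2 ≤ c)
    (h5 : a * e < b * c) (h6 : 6 * (a + e) + (b * c - a * e) < 36)
    (h7 : ¬ (a + e = 2 ∧ b * c - a * e = 23)) : (a, b, c, e) ∈ tbl := by
  have h := tbl_dec ⟨a, ha⟩ ⟨e, he⟩ ⟨b, hb⟩ ⟨c, hc⟩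
  unfold bad at h
  by_contra hn
  have hn' : tbl.contains (a, b, c, e) = false := by simpa using hn
  simp only [h1, h2, h3, h4, h5, h6, hn', decide_true, Bool.true_and, Bool.not_false,
    Bool.and_true, Bool.not_eq_false', Bool.and_eq_true, decide_eq_true_eq] at h
  exact h7 h

theorem cls (a b c e : ℕ) (h1 : a * e < b * c) (h2 : 6 * (a + e) + (b * c - a * e) < 36)
    (h3 : ¬ (a + e = 2 ∧ b * c - a * e = 23)) : G (a, b, c, e) := by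
  have hb : b ≠ 0 := by
    rintro rfl
    simp at h1
  have hc : c ≠ 0 := by
    rintro rfl
    simp at h1
  rcases Nat.eq_zero_or_pos e with he | he
  · subst he
    refine Or.inl ?_
    have h := ch_zero a b c
    simpa [K] using h
  rcases Nat.eq_zero_or_pos a with ha | ha
  · subst ha
    refine Or.inl ?_
    have h := (ch_swap 0 b c e).trans (ch_zero e c b)
    simpa [K, mul_comm] using h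
  rcases Nat.lt_or_ge c 2 with hc2 | hc2
  · have : c = 1 := by omega
    subst this
    refine Or.inl ?_
    have h := (ch_one e a (b * 1 - a * e)).symm
    have e1 : a * e + (b * 1 - a * e) = b := by omega
    rw [e1] at h
    simpa [K] using h
  rcases Nat.lt_or_ge b 2 with hb2 | hb2
  · have : b = 1 := by omega
    subst this
    refine Or.inl ?_
    have h := (ch_one a e (1 * c - a * e)).symm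
    have e1 : e * a + (1 * c - a * e) = c := by rw [mul_comm e a]; omega
    rw [e1] at h
    have h' := (ch_swap a 1 c e).trans h
    simpa [K, add_comm] using h'
  have h2b : b * 2 ≤ b * c := Nat.mul_le_mul_left b hc2
  have h2c : 2 * c ≤ b * c := Nat.mul_le_mul_right c hb2
  have ha6 : a < 6 := by omega
  have he6 : e < 6 := by omega
  have hsum : a + e ≤ 5 := by omega
  have hae : a * e ≤ 6 := by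
    have h6 : (a + e) * (a + e) ≤ 25 := Nat.mul_le_mul hsum hsum
    have h7 : 4 * (a * e) ≤ (a + e) * (a + e) := by nlinarith [sq_nonneg ((a : ℤ) - e)]
    omega
  have hb16 : b < 16 := by omega
  have hc16 : c < 16 := by omega
  exact tbl_G _ (tbl_mem a ha6 e he6 b hb16 c hc16 ha he hb2 hc2 h1 h2 h3)

end Pool.Agent.U783.SSE
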