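import Mathlib

/-!
# Elementary equivalences over `ℕ` and chains of them
-/

set_option autoImplicit false

namespace Pool.Agent.U783.SSE

open Matrix

/-- Elementary equivalence (used by the chain files). -/
def El (X Y : Σ n : ℕ, Matrix (Fin n) (Fin n) ℕ) : Prop :=
  ∃ (R : Matrix (Fin X.1) (Fin Y.1) ℕ) (S : Matrix (Fin Y.1) (Fin X.1) ℕ),
    X.2 = R * S ∧ Y.2 = S * R

/-- Chains of elementary equivalences. -/
abbrev Ch (X Y : Σ n : ℕ, Matrix (Fin n) (Fin n) ℕ) : Prop := Relation.TransGen El X Y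

end Pool.Agent.U783.SSE
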