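import Pool.Agent.U783.SSE.Defs

/-!
# General facts on chains of elementary equivalences
-/

set_option autoImplicit false

namespace Pool.Agent.U783.SSE

open Matrix

lemma El.symm {X Y : Σ n : ℕ, Matrix (Fin n) (Fin n) ℕ} (h : El X Y) : El Y X := by
  obtain ⟨R, S, h1, h2⟩ := h
  exact ⟨S, R, h2, h1⟩

lemma El.refl (X : Σ n : ℕ, Matrix (Fin n) (Fin n) ℕ) : El X X :=
  ⟨X.2, 1, by rw [Matrix.mul_one], by rw [Matrix.one_mul]⟩

lemma Ch.refl (X : Σ n : ℕ, Matrix (Fin n) (Fin n) ℕ) : Ch X X :=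
  Relation.TransGen.single (El.refl X)

lemma Ch.symm {X Y : Σ n : ℕ, Matrix (Fin n) (Fin n) ℕ} (h : Ch X Y) : Ch Y X := by
  induction h with
  | single h => exact Relation.TransGen.single h.symm
  | tail _ h ih => exact (Relation.TransGen.single h.symm).trans ih

/-- Renumbering the two vertices. -/
lemma ch_swap (a b c e : ℕ) : Ch ⟨2, !![a, b; c, e]⟩ ⟨2, !![e, c; b, a]⟩ := by
  refine Relation.TransGen.single ⟨!![b, a; e, c], !![0, 1; 1, 0], ?_, ?_⟩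
  · ext i j; fin_cases i <;> fin_cases j <;> simp [Matrix.mul_apply, Fin.sum_univ_succ]
  · ext i j; fin_cases i <;> fin_cases j <;> simp [Matrix.mul_apply, Fin.sum_univ_succ]

/-- A zero on the diagonal. -/
lemma ch_zero (a b c : ℕ) : Ch ⟨2, !![a, b; c, 0]⟩ ⟨2, !![a, b * c; 1, 0]⟩ := by
  refine Relation.TransGen.single ⟨!![1, 0; 0, c], !![a, b; 1, 0], ?_, ?_⟩
  · ext i j; fin_cases i <;> fin_cases j <;> simp [Matrix.mul_apply, Fin.sum_univ_succ]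
  · ext i j; fin_cases i <;> fin_cases j <;> simp [Matrix.mul_apply, Fin.sum_univ_succ]

/-- Moving a unit of the trace. -/
lemma ch_shift (a b e : ℕ) : Ch ⟨2, !![a + 1, b + e; 1, e]⟩ ⟨2, !![a, b + a; 1, e + 1]⟩ := by
  refine Relation.TransGen.single ⟨!![1, 1; 0, 1], !![a, b; 1, e], ?_, ?_⟩
  · ext i j; fin_cases i <;> fin_cases j <;> simp [Matrix.mul_apply, Fin.sum_univ_succ]
  · ext i j; fin_cases i <;> fin_cases j <;>
      simp [Matrix.mul_apply, Fin.sum_univ_succ] <;> ring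

/-- Matrices with an off-diagonal entry `1` are in the principal class. -/
lemma ch_one (e : ℕ) : ∀ (a d : ℕ),
    Ch ⟨2, !![a + e, d; 1, 0]⟩ ⟨2, !![a, a * e + d; 1, e]⟩ := by
  induction e with
  | zero => intro a d; simpa using Ch.refl ⟨2, !![a, d; 1, 0]⟩
  | succ e ih =>
    intro a d
    have h1 := ih (a + 1) d
    have h2 := ch_shift a (a * e + d) e
    have e1 : a + 1 + e = a + (e + 1) := by ring
    have e2 : (a + 1) * e + d = a * e + d + e := by ring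
    have e3 : a * e + d + a = a * (e + 1) + d := by ring
    rw [e1, e2] at h1
    rw [e3] at h2
    exact h1.trans h2

section

variable {k : Type} [Semiring k]

lemma pow_comm_rect {n m : ℕ} {A : Matrix (Fin n) (Fin n) k} {B : Matrix (Fin m) (Fin m) k}
    {R : Matrix (Fin n) (Fin m) k} (h : A * R = R * B) (l : ℕ) : A ^ l * R = R * B ^ l := by
  induction l with
  | zero => rw [pow_zero, pow_zero, Matrix.one_mul, Matrix.mul_one]
  | succ l ih =>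
    rw [pow_succ, Matrix.mul_assoc, h, ← Matrix.mul_assoc, ih, Matrix.mul_assoc, ← pow_succ]

/-- Transitivity of shift equivalence over a semiring. -/
lemma se_trans {n m p : ℕ} {A : Matrix (Fin n) (Fin n) k} {B : Matrix (Fin m) (Fin m) k}
    {C : Matrix (Fin p) (Fin p) k}
    (h1 : ∃ l, 1 ≤ l ∧ ∃ (R : Matrix (Fin n) (Fin m) k) (S : Matrix (Fin m) (Fin n) k),
      A ^ l = R * S ∧ B ^ l = S * R ∧ A * R = R * B ∧ S * A = B * S)
    (h2 : ∃ l, 1 ≤ l ∧ ∃ (R : Matrix (Fin m) (Fin p) k) (S : Matrix (Fin p) (Fin m) k),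
      B ^ l = R * S ∧ C ^ l = S * R ∧ B * R = R * C ∧ S * B = C * S) :
    ∃ l, 1 ≤ l ∧ ∃ (R : Matrix (Fin n) (Fin p) k) (S : Matrix (Fin p) (Fin n) k),
      A ^ l = R * S ∧ C ^ l = S * R ∧ A * R = R * C ∧ S * A = C * S := by
  obtain ⟨l1, hl1, R1, S1, a1, a2, a3, a4⟩ := h1
  obtain ⟨l2, hl2, R2, S2, b1, b2, b3, b4⟩ := h2
  refine ⟨l1 + l2, by omega, R1 * R2, S2 * S1, ?_, ?_, ?_, ?_⟩
  · calc A ^ (l1 + l2) = A ^ l2 * A ^ l1 := by rw [add_comm, pow_add]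
      _ = (A ^ l2 * R1) * S1 := by rw [a1, Matrix.mul_assoc]
      _ = R1 * B ^ l2 * S1 := by rw [pow_comm_rect a3]
      _ = R1 * R2 * (S2 * S1) := by rw [b1]; simp only [Matrix.mul_assoc]
  · calc C ^ (l1 + l2) = C ^ l1 * C ^ l2 := by rw [pow_add]
      _ = (C ^ l1 * S2) * R2 := by rw [b2, Matrix.mul_assoc]
      _ = S2 * B ^ l1 * R2 := by rw [pow_comm_rect b4.symm]
      _ = S2 * S1 * (R1 * R2) := by rw [a2]; simp only [Matrix.mul_assoc]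
  · rw [← Matrix.mul_assoc, a3, Matrix.mul_assoc, b3, ← Matrix.mul_assoc]
  · rw [Matrix.mul_assoc, a4, ← Matrix.mul_assoc, b4, Matrix.mul_assoc]

end

/-- A chain of elementary equivalences over `ℕ` gives a shift equivalence over `ℕ`. -/
theorem se_of_ch {X Y : Σ n : ℕ, Matrix (Fin n) (Fin n) ℕ} (h : Ch X Y) :
    ∃ l, 1 ≤ l ∧ ∃ (R : Matrix (Fin X.1) (Fin Y.1) ℕ) (S : Matrix (Fin Y.1) (Fin X.1) ℕ),
      X.2 ^ l = R * S ∧ Y.2 ^ l = S * R ∧ X.2 * R = R * Y.2 ∧ S * X.2 = Y.2 * S := by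
  have h1 : ∀ X Y, El X Y → ∃ l, 1 ≤ l ∧
      ∃ (R : Matrix (Fin X.1) (Fin Y.1) ℕ) (S : Matrix (Fin Y.1) (Fin X.1) ℕ),
      X.2 ^ l = R * S ∧ Y.2 ^ l = S * R ∧ X.2 * R = R * Y.2 ∧ S * X.2 = Y.2 * S := by
    intro X Y hXY
    obtain ⟨R, S, e1, e2⟩ := hXY
    refine ⟨1, le_refl 1, R, S, by rw [pow_one, e1], by rw [pow_one, e2], ?_, ?_⟩
    · rw [e1, e2, Matrix.mul_assoc]
    · rw [e1, e2, Matrix.mul_assoc]
  induction h with
  | single h => exact h1 _ _ h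
  | tail _ h ih => exact se_trans ih (h1 _ _ h)

/-- Shift equivalence over `ℕ` gives shift equivalence over `ℤ`. -/
theorem seZ_of_seN {n m : ℕ} {A : Matrix (Fin n) (Fin n) ℕ} {B : Matrix (Fin m) (Fin m) ℕ}
    (h : ∃ l, 1 ≤ l ∧ ∃ (R : Matrix (Fin n) (Fin m) ℕ) (S : Matrix (Fin m) (Fin n) ℕ),
      A ^ l = R * S ∧ B ^ l = S * R ∧ A * R = R * B ∧ S * A = B * S) :
    ∃ l, 1 ≤ l ∧ ∃ (R : Matrix (Fin n) (Fin m) ℤ) (S : Matrix (Fin m) (Fin n) ℤ),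
      (A.map (Nat.cast : ℕ → ℤ)) ^ l = R * S ∧ (B.map (Nat.cast : ℕ → ℤ)) ^ l = S * R ∧
      A.map (Nat.cast : ℕ → ℤ) * R = R * B.map (Nat.cast : ℕ → ℤ) ∧
      S * A.map (Nat.cast : ℕ → ℤ) = B.map (Nat.cast : ℕ → ℤ) * S := by
  obtain ⟨l, hl, R, S, e1, e2, e3, e4⟩ := h
  have hm : ∀ {a b c : ℕ} (X : Matrix (Fin a) (Fin b) ℕ) (Y : Matrix (Fin b) (Fin c) ℕ),
      (X * Y).map (Nat.cast : ℕ → ℤ) = X.map (Nat.cast : ℕ → ℤ) * Y.map (Nat.cast : ℕ → ℤ) :=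
    fun X Y => Matrix.map_mul (f := Nat.castRingHom ℤ)
  have hp : ∀ {a : ℕ} (X : Matrix (Fin a) (Fin a) ℕ) (j : ℕ),
      (X ^ j).map (Nat.cast : ℕ → ℤ) = (X.map (Nat.cast : ℕ → ℤ)) ^ j :=
    fun X j => Matrix.map_pow (f := Nat.castRingHom ℤ) X j
  refine ⟨l, hl, R.map (Nat.cast : ℕ → ℤ), S.map (Nat.cast : ℕ → ℤ), ?_, ?_, ?_, ?_⟩
  · rw [← hp, e1, hm]
  · rw [← hp, e2, hm]
  · rw [← hm, e3, hm]
  · rw [← hm, e4, hm]

/-- The weak form of shift equivalence that the obstructions use: an intertwiner over `ℤ` whose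
determinant divides a power of the determinant. -/
def Wk (A B : Matrix (Fin 2) (Fin 2) ℕ) : Prop :=
  ∃ R : Matrix (Fin 2) (Fin 2) ℤ, ∃ k : ℕ,
    A.map (Nat.cast : ℕ → ℤ) * R = R * B.map (Nat.cast : ℕ → ℤ) ∧
    R.det ∣ (A.map (Nat.cast : ℕ → ℤ)).det ^ k

lemma wk_of_seZ {A B : Matrix (Fin 2) (Fin 2) ℕ}
    (h : ∃ l, 1 ≤ l ∧ ∃ (R : Matrix (Fin 2) (Fin 2) ℤ) (S : Matrix (Fin 2) (Fin 2) ℤ),
      (A.map (Nat.cast : ℕ → ℤ)) ^ l = R * S ∧ (B.map (Nat.cast : ℕ → ℤ)) ^ l = S * R ∧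
      A.map (Nat.cast : ℕ → ℤ) * R = R * B.map (Nat.cast : ℕ → ℤ) ∧
      S * A.map (Nat.cast : ℕ → ℤ) = B.map (Nat.cast : ℕ → ℤ) * S) : Wk A B := by
  obtain ⟨l, _, R, S, e1, _, e3, _⟩ := h
  refine ⟨R, l, e3, S.det, ?_⟩
  rw [← Matrix.det_pow, e1, Matrix.det_mul]

lemma wk_of_ch {A B : Matrix (Fin 2) (Fin 2) ℕ} (h : Ch ⟨2, A⟩ ⟨2, B⟩) : Wk A B :=
  wk_of_seZ (seZ_of_seN (se_of_ch h))

lemma Wk.det_eq {A B : Matrix (Fin 2) (Fin 2) ℕ} (h : Wk A B)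
    (hA : (A.map (Nat.cast : ℕ → ℤ)).det ≠ 0) :
    (A.map (Nat.cast : ℕ → ℤ)).det = (B.map (Nat.cast : ℕ → ℤ)).det := by
  obtain ⟨R, k, e, hd⟩ := h
  have hR : R.det ≠ 0 := fun h0 => by
    rw [h0] at hd
    exact pow_ne_zero k hA (zero_dvd_iff.mp hd)
  have h1 := congrArg Matrix.det e
  rw [Matrix.det_mul, Matrix.det_mul, mul_comm] at h1
  exact mul_left_cancel₀ hR h1

lemma Wk.trace_eq {A B : Matrix (Fin 2) (Fin 2) ℕ} (h : Wk A B)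
    (hA : (A.map (Nat.cast : ℕ → ℤ)).det ≠ 0) :
    (A.map (Nat.cast : ℕ → ℤ)).trace = (B.map (Nat.cast : ℕ → ℤ)).trace := by
  obtain ⟨R, k, e, hd⟩ := h
  have hR : R.det ≠ 0 := fun h0 => by
    rw [h0] at hd
    exact pow_ne_zero k hA (zero_dvd_iff.mp hd)
  have h1 : (A.map (Nat.cast : ℕ → ℤ) * R * R.adjugate).trace =
      (R * B.map (Nat.cast : ℕ → ℤ) * R.adjugate).trace := by rw [e]
  rw [Matrix.mul_assoc, Matrix.mul_adjugate, Matrix.trace_mul_comm (R * _), ← Matrix.mul_assoc,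
    Matrix.adjugate_mul, Matrix.mul_smul, Matrix.mul_one, Matrix.smul_mul, Matrix.one_mul,
    Matrix.trace_smul, Matrix.trace_smul, smul_eq_mul, smul_eq_mul] at h1
  exact mul_left_cancel₀ hR h1

lemma Wk.trans {A B C : Matrix (Fin 2) (Fin 2) ℕ} (h1 : Wk A B) (h2 : Wk B C)
    (hA : (A.map (Nat.cast : ℕ → ℤ)).det ≠ 0) : Wk A C := by
  have hd := h1.det_eq hA
  obtain ⟨R, k, e, hR⟩ := h1
  obtain ⟨R', k', e', hR'⟩ := h2
  refine ⟨R * R', k + k', ?_, ?_⟩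
  · rw [← Matrix.mul_assoc, e, Matrix.mul_assoc, e', ← Matrix.mul_assoc]
  · rw [Matrix.det_mul, pow_add]
    rw [← hd] at hR'
    exact mul_dvd_mul hR hR'

end Pool.Agent.U783.SSE
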