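import Pool.Agent.U783.SSE.Gen

/-!
# Obstructions to shift equivalence over `ℤ`
-/

set_option autoImplicit false

namespace Pool.Agent.U783.SSE

open Matrix

/-- The four scalar equations behind an intertwiner. -/
lemma wk_entries {a b c e a' b' c' e' : ℕ}
    (h : Wk !![a, b; c, e] !![a', b'; c', e']) :
    ∃ p q r s : ℤ, ∃ k : ℕ,
      (a : ℤ) * p + b * r = p * a' + q * c' ∧ (a : ℤ) * q + b * s = p * b' + q * e' ∧
      (c : ℤ) * p + e * r = r * a' + s * c' ∧ (c : ℤ) * q + e * s = r * b' + s * e' ∧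
      p * s - q * r ∣ ((a : ℤ) * e - b * c) ^ k := by
  obtain ⟨R, k, e1, hd⟩ := h
  have k00 := congrFun (congrFun e1 0) 0
  have k01 := congrFun (congrFun e1 0) 1
  have k10 := congrFun (congrFun e1 1) 0
  have k11 := congrFun (congrFun e1 1) 1
  simp [Matrix.mul_apply, Fin.sum_univ_succ] at k00 k01 k10 k11
  rw [Matrix.det_fin_two, Matrix.det_fin_two] at hd
  simp at hd
  exact ⟨R 0 0, R 0 1, R 1 0, R 1 1, k, k00, k01, k10, k11, hd⟩

/-- If the first matrix is scalar modulo `N`, prime to the determinant, so is the second. -/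
lemma obs_scalar (N : ℕ) {a b c e a' b' c' e' : ℕ} (hb : (N : ℤ) ∣ b) (hc : (N : ℤ) ∣ c)
    (hae : (N : ℤ) ∣ (a : ℤ) - e) (hcop : IsCoprime (N : ℤ) ((a : ℤ) * e - b * c))
    (h : Wk !![a, b; c, e] !![a', b'; c', e']) : (N : ℤ) ∣ b' ∧ (N : ℤ) ∣ c' := by
  obtain ⟨p, q, r, s, k, e1, e2, e3, e4, hd⟩ := wk_entries h
  have hcop' : IsCoprime (N : ℤ) (p * s - q * r) := by
    have h1 : IsCoprime (N : ℤ) (((a : ℤ) * e - b * c) ^ k) := hcop.pow_right
    exact h1.of_isCoprime_of_dvd_right hd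
  obtain ⟨u, hu⟩ := hb
  obtain ⟨v, hv⟩ := hc
  obtain ⟨w, hw⟩ := hae
  constructor
  · refine hcop'.dvd_of_dvd_mul_left ?_
    refine ⟨s * q * w + s * s * u - q * q * v, ?_⟩
    linear_combination (-s) * e2 + q * e4 + s * s * hu - q * q * hv + s * q * hw
  · refine hcop'.dvd_of_dvd_mul_left ?_
    refine ⟨p * p * v - r * p * w - r * r * u, ?_⟩
    linear_combination (-p) * e3 + r * e1 + p * p * hv - r * r * hu - r * p * hw

lemma pm_of_dvd (P N : ℕ) (hP : Nat.Prime P) (hPN : (P : ZMod N) = 1 ∨ (P : ZMod N) = -1)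
    (D : ℤ) (k : ℕ) (h : D ∣ (P : ℤ) ^ k) : (D : ZMod N) = 1 ∨ (D : ZMod N) = -1 := by
  have h1 : D.natAbs ∣ P ^ k := by
    have := Int.natAbs_dvd_natAbs.mpr h
    rwa [Int.natAbs_pow, Int.natAbs_natCast] at this
  obtain ⟨i, _, hi⟩ := (Nat.dvd_prime_pow hP).mp h1
  have h2 : ((P ^ i : ℕ) : ZMod N) = 1 ∨ ((P ^ i : ℕ) : ZMod N) = -1 := by
    rw [Nat.cast_pow]
    rcases hPN with h | h
    · left; rw [h, one_pow]
    · rw [h]
      exact neg_one_pow_eq_or _ i
  rcases Int.natAbs_eq D with h3 | h3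
  · rw [hi] at h3
    rw [h3, Int.cast_natCast]
    exact h2
  · rw [hi] at h3
    rw [h3, Int.cast_neg, Int.cast_natCast]
    rcases h2 with h | h
    · right; rw [h]
    · left; rw [h, neg_neg]

/-- The genus obstruction for trace `4` and determinant `-11`. -/
lemma obs_4_11 : ¬ Wk !![4, 11; 1, 0] !![2, 3; 5, 2] := by
  intro h
  obtain ⟨p, q, r, s, k, _, _, e3, e4, hd⟩ := wk_entries h
  push_cast at e3 e4 hd
  have hp : p = 2 * r + 5 * s := by linarith
  have hq : q = 3 * r + 2 * s := by linarith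
  have hD : p * s - q * r = 5 * s ^ 2 - 3 * r ^ 2 := by rw [hp, hq]; ring
  rw [hD] at hd
  have h11 : (5 * s ^ 2 - 3 * r ^ 2) ∣ ((11 : ℕ) : ℤ) ^ k := by
    have hd' : (5 * s ^ 2 - 3 * r ^ 2) ∣ (-1 : ℤ) ^ k * 11 ^ k := by
      rw [← mul_pow]
      have e : ((4 : ℤ) * 0 - 11 * 1) = -1 * 11 := by norm_num
      rw [← e]
      exact hd
    have hu : IsUnit ((-1 : ℤ) ^ k) := (by norm_num : IsUnit (-1 : ℤ)).pow k
    exact_mod_cast hu.dvd_mul_left.mp hd'
  rcases pm_of_dvd 11 5 (by norm_num) (Or.inl (by decide)) _ k h11 with h | h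
  · push_cast at h
    revert h
    generalize (s : ZMod 5) = x
    generalize (r : ZMod 5) = y
    revert x y
    decide
  · push_cast at h
    revert h
    generalize (s : ZMod 5) = x
    generalize (r : ZMod 5) = y
    revert x y
    decide

end Pool.Agent.U783.SSE
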