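import Pool.Agent.U783.SSE.Cls
import Pool.Agent.U783.SSE.Obs

/-!
# Shift equivalence over `ℤ` implies strong shift equivalence, spectral radius below 6
-/

set_option autoImplicit false

namespace Pool.Agent.U783.SSE

open Matrix

lemma wk_inv {a b c e a' b' c' e' : ℕ} (h : Wk !![a, b; c, e] !![a', b'; c', e'])
    (h0 : a * e < b * c) :
    a + e = a' + e' ∧ (a : ℤ) * e - b * c = a' * e' - b' * c' := by
  have hne : ((!![a, b; c, e] : Matrix (Fin 2) (Fin 2) ℕ).map (Nat.cast : ℕ → ℤ)).det ≠ 0 := by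
    rw [Matrix.det_fin_two]
    simp
    have : (a : ℤ) * e < b * c := by exact_mod_cast h0
    linarith
  have h1 := h.det_eq hne
  have h2 := h.trace_eq hne
  rw [Matrix.det_fin_two, Matrix.det_fin_two] at h1
  rw [Matrix.trace_fin_two, Matrix.trace_fin_two] at h2
  simp at h1 h2
  constructor
  · exact_mod_cast h2
  · linarith

lemma noP : ∀ s ∈ rp, ∀ t d : ℕ, t = s.1 + s.2.2.2 → d = s.2.1 * s.2.2.1 - s.1 * s.2.2.2 →
    Wk (K s) !![t, d; 1, 0] → Wk !![t, d; 1, 0] (K s) → False := by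
  intro s hs t d ht hd h1 h2
  simp only [rp, List.mem_cons, List.not_mem_nil, or_false] at hs
  have key : ∀ N : ℕ, 2 ≤ N → ∀ {a b c e : ℕ}, (N : ℤ) ∣ b → (N : ℤ) ∣ c →
      (N : ℤ) ∣ (a : ℤ) - e → IsCoprime (N : ℤ) ((a : ℤ) * e - b * c) →
      Wk !![a, b; c, e] !![t, d; 1, 0] → False := by
    intro N hN a b c e hb hc hae hcop h
    have h3 := (obs_scalar N hb hc hae hcop h).2
    have h4 := Int.le_of_dvd (by norm_num) h3
    push_cast at h4
    omega
  have cop : ∀ m n u v : ℤ, u * m + v * n = 1 → IsCoprime m n := fun m n u v h => ⟨u, v, h⟩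
  rcases hs with rfl | rfl | rfl | rfl | rfl | rfl | rfl | rfl | rfl | rfl | rfl | rfl | rfl | rfl
  · exact key 2 (by norm_num) (by norm_num) (by norm_num) (by norm_num)
      (cop _ _ 2 1 (by norm_num)) h1
  · exact key 2 (by norm_num) (by norm_num) (by norm_num) (by norm_num)
      (cop _ _ 4 1 (by norm_num)) h1
  · exact key 3 (by norm_num) (by norm_num) (by norm_num) (by norm_num)
      (cop _ _ 3 1 (by norm_num)) h1
  · exact key 2 (by norm_num) (by norm_num) (by norm_num) (by norm_num)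
      (cop _ _ 6 1 (by norm_num)) h1
  · exact key 2 (by norm_num) (by norm_num) (by norm_num) (by norm_num)
      (cop _ _ 8 1 (by norm_num)) h1
  · exact key 2 (by norm_num) (by norm_num) (by norm_num) (by norm_num)
      (cop _ _ 8 1 (by norm_num)) h1
  · exact key 3 (by norm_num) (by norm_num) (by norm_num) (by norm_num)
      (cop _ _ 6 1 (by norm_num)) h1
  · exact key 2 (by norm_num) (by norm_num) (by norm_num) (by norm_num)
      (cop _ _ 10 1 (by norm_num)) h1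
  · exact key 2 (by norm_num) (by norm_num) (by norm_num) (by norm_num)
      (cop _ _ 1 1 (by norm_num)) h1
  · exact key 2 (by norm_num) (by norm_num) (by norm_num) (by norm_num)
      (cop _ _ 3 1 (by norm_num)) h1
  · exact key 3 (by norm_num) (by norm_num) (by norm_num) (by norm_num)
      (cop _ _ 2 1 (by norm_num)) h1
  · exact key 2 (by norm_num) (by norm_num) (by norm_num) (by norm_num)
      (cop _ _ 5 1 (by norm_num)) h1
  · subst ht; subst hd
    exact obs_4_11 h2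
  · exact key 3 (by norm_num) (by norm_num) (by norm_num) (by norm_num)
      (cop _ _ 2 1 (by norm_num)) h1

/-- Equal invariants. -/
def sameInv (s s' : ℕ × ℕ × ℕ × ℕ) : Bool :=
  decide (s.1 + s.2.2.2 = s'.1 + s'.2.2.2) &&
    decide (s.2.1 * s.2.2.1 - s.1 * s.2.2.2 = s'.2.1 * s'.2.2.1 - s'.1 * s'.2.2.2)

/-- The exceptional pairs. -/
def exPair (s s' : ℕ × ℕ × ℕ × ℕ) : Bool :=
  decide (s = s') || (decide (s = (1, 2, 8, 1)) && decide (s' = (1, 4, 4, 1))) ||
    (decide (s = (1, 4, 4, 1)) && decide (s' = (1, 2, 8, 1))) ||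
    (decide (s = (1, 2, 4, 3)) && decide (s' = (2, 3, 3, 2))) ||
    (decide (s = (2, 3, 3, 2)) && decide (s' = (1, 2, 4, 3)))

lemma rp_all : (rp.all fun s => rp.all fun s' => !(sameInv s s') || exPair s s') = true := by
  decide +kernel

lemma rp_key (s : ℕ × ℕ × ℕ × ℕ) (hs : s ∈ rp) (s' : ℕ × ℕ × ℕ × ℕ) (hs' : s' ∈ rp)
    (h1 : s.1 + s.2.2.2 = s'.1 + s'.2.2.2)
    (h2 : s.2.1 * s.2.2.1 - s.1 * s.2.2.2 = s'.2.1 * s'.2.2.1 - s'.1 * s'.2.2.2) :
    s = s' ∨ (s = (1, 2, 8, 1) ∧ s' = (1, 4, 4, 1)) ∨ (s = (1, 4, 4, 1) ∧ s' = (1, 2, 8, 1)) ∨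
      (s = (1, 2, 4, 3) ∧ s' = (2, 3, 3, 2)) ∨ (s = (2, 3, 3, 2) ∧ s' = (1, 2, 4, 3)) := by
  have h := List.all_eq_true.mp (List.all_eq_true.mp rp_all s hs) s' hs'
  have h3 : sameInv s s' = true := by simp [sameInv, h1, h2]
  rw [h3] at h
  simp only [Bool.not_true, Bool.false_or] at h
  simpa [exPair, or_assoc] using h

lemma rp_neg : ∀ s ∈ rp, s.1 * s.2.2.2 < s.2.1 * s.2.2.1 := by
  intro s hs
  simp only [rp, List.mem_cons, List.not_mem_nil, or_false] at hs
  rcases hs with rfl | rfl | rfl | rfl | rfl | rfl | rfl | rfl | rfl | rfl | rfl | rfl | rfl | rfl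
  all_goals norm_num

lemma rp_eq (s s' : ℕ × ℕ × ℕ × ℕ) (hs : s ∈ rp) (hs' : s' ∈ rp) (h : Wk (K s) (K s'))
    (h' : Wk (K s') (K s)) : s = s' := by
  have n1 := rp_neg s hs
  have n2 := rp_neg s' hs'
  obtain ⟨i1, i2⟩ := wk_inv (a := s.1) (b := s.2.1) (c := s.2.2.1) (e := s.2.2.2)
    (a' := s'.1) (b' := s'.2.1) (c' := s'.2.2.1) (e' := s'.2.2.2) h n1
  have i3 : s.2.1 * s.2.2.1 - s.1 * s.2.2.2 = s'.2.1 * s'.2.2.1 - s'.1 * s'.2.2.2 := by
    have n1' : ((s.1 * s.2.2.2 : ℕ) : ℤ) < ((s.2.1 * s.2.2.1 : ℕ) : ℤ) := by exact_mod_cast n1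
    have i2' : ((s.1 * s.2.2.2 : ℕ) : ℤ) - ((s.2.1 * s.2.2.1 : ℕ) : ℤ) =
        ((s'.1 * s'.2.2.2 : ℕ) : ℤ) - ((s'.2.1 * s'.2.2.1 : ℕ) : ℤ) := by
      push_cast; exact i2
    omega
  have cop : ∀ m n u v : ℤ, u * m + v * n = 1 → IsCoprime m n := fun m n u v h => ⟨u, v, h⟩
  rcases rp_key s hs s' hs' i1 i3 with h1 | ⟨rfl, rfl⟩ | ⟨rfl, rfl⟩ | ⟨rfl, rfl⟩ | ⟨rfl, rfl⟩
  · exact h1
  · exfalso
    have := (obs_scalar 4 (a := 1) (b := 4) (c := 4) (e := 1) (by norm_num) (by norm_num)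
      (by norm_num) (cop _ _ 4 1 (by norm_num)) h').1
    norm_num at this
  · exfalso
    have := (obs_scalar 4 (a := 1) (b := 4) (c := 4) (e := 1) (by norm_num) (by norm_num)
      (by norm_num) (cop _ _ 4 1 (by norm_num)) h).1
    norm_num at this
  · exfalso
    have := (obs_scalar 3 (a := 2) (b := 3) (c := 3) (e := 2) (by norm_num) (by norm_num)
      (by norm_num) (cop _ _ 2 1 (by norm_num)) h').1
    norm_num at this
  · exfalso
    have := (obs_scalar 3 (a := 2) (b := 3) (c := 3) (e := 2) (by norm_num) (by norm_num)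
      (by norm_num) (cop _ _ 2 1 (by norm_num)) h).1
    norm_num at this

theorem main (a b c e a' b' c' e' : ℕ) (h1 : a * e < b * c)
    (h2 : 6 * (a + e) + (b * c - a * e) < 36) (h3 : ¬ (a + e = 2 ∧ b * c - a * e = 23))
    (hAB : Wk !![a, b; c, e] !![a', b'; c', e']) (hBA : Wk !![a', b'; c', e'] !![a, b; c, e]) :
    Ch ⟨2, !![a, b; c, e]⟩ ⟨2, !![a', b'; c', e']⟩ := by
  obtain ⟨i1, i2⟩ := wk_inv hAB h1
  have i2' : ((a * e : ℕ) : ℤ) - ((b * c : ℕ) : ℤ) = ((a' * e' : ℕ) : ℤ) - ((b' * c' : ℕ) : ℤ) := by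
    push_cast; exact i2
  have h1' : a' * e' < b' * c' := by omega
  have h4 : b * c - a * e = b' * c' - a' * e' := by omega
  have hneA : ((!![a, b; c, e] : Matrix (Fin 2) (Fin 2) ℕ).map (Nat.cast : ℕ → ℤ)).det ≠ 0 := by
    rw [Matrix.det_fin_two]
    simp
    have : (a : ℤ) * e < b * c := by exact_mod_cast h1
    linarith
  have hneB : ((!![a', b'; c', e'] : Matrix (Fin 2) (Fin 2) ℕ).map
      (Nat.cast : ℕ → ℤ)).det ≠ 0 := by
    rw [Matrix.det_fin_two]
    simp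
    have : (a' : ℤ) * e' < b' * c' := by exact_mod_cast h1'
    linarith
  have gA : G (a, b, c, e) := cls a b c e h1 h2 h3
  have gB : G (a', b', c', e') := cls a' b' c' e' h1' (by omega) (by omega)
  unfold G at gA gB
  simp only at gA gB
  -- determinants of the representatives do not vanish
  have neOf : ∀ {M N : Matrix (Fin 2) (Fin 2) ℕ}, Ch ⟨2, M⟩ ⟨2, N⟩ →
      (M.map (Nat.cast : ℕ → ℤ)).det ≠ 0 → (N.map (Nat.cast : ℕ → ℤ)).det ≠ 0 := by
    intro M N h hM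
    rw [← (wk_of_ch h).det_eq hM]
    exact hM
  rcases gA with gA | ⟨s, hs, gA⟩
  · rcases gB with gB | ⟨s, hs, gB⟩
    · rw [← i1, ← h4] at gB
      exact gA.trans gB.symm
    · exfalso
      have w1 : Wk (K s) !![a + e, b * c - a * e; 1, 0] :=
        ((wk_of_ch gB.symm).trans hBA (neOf gB hneB)).trans (wk_of_ch gA) (neOf gB hneB)
      have w2 : Wk !![a + e, b * c - a * e; 1, 0] (K s) :=
        ((wk_of_ch gA.symm).trans hAB (neOf gA hneA)).trans (wk_of_ch gB) (neOf gA hneA)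
      have n1 := rp_neg s hs
      obtain ⟨j1, j2⟩ := wk_inv (a := s.1) (b := s.2.1) (c := s.2.2.1) (e := s.2.2.2) w1 n1
      have j2' : ((s.1 * s.2.2.2 : ℕ) : ℤ) - ((s.2.1 * s.2.2.1 : ℕ) : ℤ) =
          - ((b * c - a * e : ℕ) : ℤ) := by
        push_cast at j2 ⊢
        linarith
      exact noP s hs _ _ (by omega) (by omega) w1 w2
  · rcases gB with gB | ⟨s', hs', gB⟩
    · exfalso
      have w1 : Wk (K s) !![a' + e', b' * c' - a' * e'; 1, 0] :=
        ((wk_of_ch gA.symm).trans hAB (neOf gA hneA)).trans (wk_of_ch gB) (neOf gA hneA)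
      have w2 : Wk !![a' + e', b' * c' - a' * e'; 1, 0] (K s) :=
        ((wk_of_ch gB.symm).trans hBA (neOf gB hneB)).trans (wk_of_ch gA) (neOf gB hneB)
      have n1 := rp_neg s hs
      obtain ⟨j1, j2⟩ := wk_inv (a := s.1) (b := s.2.1) (c := s.2.2.1) (e := s.2.2.2) w1 n1
      have j2' : ((s.1 * s.2.2.2 : ℕ) : ℤ) - ((s.2.1 * s.2.2.1 : ℕ) : ℤ) =
          - ((b' * c' - a' * e' : ℕ) : ℤ) := by
        push_cast at j2 ⊢
        linarith
      exact noP s hs _ _ (by omega) (by omega) w1 w2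
    · have w1 : Wk (K s) (K s') :=
        ((wk_of_ch gA.symm).trans hAB (neOf gA hneA)).trans (wk_of_ch gB) (neOf gA hneA)
      have w2 : Wk (K s') (K s) :=
        ((wk_of_ch gB.symm).trans hBA (neOf gB hneB)).trans (wk_of_ch gA) (neOf gB hneB)
      have hss := rp_eq s s' hs hs' w1 w2
      subst hss
      exact gA.trans gB.symm

end Pool.Agent.U783.SSE
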